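import Pool.Agent.H87.NV.Wmx
import Pool.Agent.H87.NV.Bad

/-!
# Crude bounds and dyadic classes

`shr_tiny`: any direction moves the labels as it should, for very small steps. `val_up`: a crude bound
of the derivative of a label of a line in a direction at the samples. `crd`: a crude bound of the
derivative of a polynomial of the line on a window at most samples. `dyc`: dyadic classes.
-/

set_option autoImplicit false

namespace Pool.NVX

open Finset Real MvPolynomial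
open Pool.Agent.H49.Ent Pool.Agent.H32.Dense Pool.STK Pool.KA Pool.KSAT Pool.K2S Pool.PB Pool.S6C
open Pool.GEN Pool.CHT
open Pool.D2R (dd hs)
open Pool.SHR (dir dir_eq mvp mvp_none mvp_some mvp_zero mvp_box meanv dep_mvp ShrY slpY_cmp dir_sub
  inv_le_of)
open Pool.PB.Trl (rt rt_mem t_rt)
open Pool.FLF (Fam.sub)

variable {m J : ℕ}

theorem nlp_add_le {g : ℕ → ℕ} {l i S : ℕ} (hS : ∀ j ≤ i, g j ≤ S) : nlp g l i + g i ≤ S := by
  unfold nlp
  have h1 : (Finset.Icc l i).sup g ≤ S := Finset.sup_le fun x hx => hS x (Finset.mem_Icc.1 hx).2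
  have h2 := hS i le_rfl
  omega

theorem nlp_le {g : ℕ → ℕ} {l i S : ℕ} (hS : ∀ j < i, g j ≤ S) : nlp g l i ≤ S := by
  unfold nlp
  have h1 : (Finset.Icc l i).sup g ≤ S + g i := Finset.sup_le fun x hx => by
    rcases (Finset.mem_Icc.1 hx).2.lt_or_eq with h | h
    · have := hS x h
      omega
    · rw [h]
      omega
  omega

/-- **Any direction** moves the labels as it should, for very small steps. -/
theorem shr_tiny (D r : ℕ) : ∃ C : ℕ, ∀ {m J : ℕ} {F : Fam m J} {c : ℕ → Fin m}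
    {a w e S X Y l i : ℕ} {g : ℕ → ℕ} {A : F.Ω → Prop}
    {G : PtT F → ℕ → MvPolynomial (Option (Fin m)) ℝ}
    {H : LnT F → ℕ → MvPolynomial (Option (Fin m)) ℝ} {v : PtT F → Fin m → ℝ} {ω : F.Ω}, i ≤ r →
    Set.InjOn c (Set.Iio i) → ChOK F c i (fun _ => D) a w e g A G H → A ω →
    (∀ j < i, g j ≤ S) → C + e + X + S ≤ Y →
    v (ptr F J ω) (c l) = 1 → (∀ j < l, v (ptr F J ω) (c j) = 0) →
    (∀ j < i, l < j → |v (ptr F J ω) (c j)| ≤ 2 ^ X) →
    ∀ j < i, l < j → ShrY F c a Y g G v 1 j ω := by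
  obtain ⟨c₀, D₁, hD₁, hdil⟩ := nbx_dil r (fun _ => D)
  refine ⟨c₀ + 2 * D₁ + r + 1, ?_⟩
  intro m J F c a w e S X Y l i g A G H v ω hir hc hL hω hS hY h1 h0 hX j
  have pw : ∀ {x y : ℕ}, x ≤ y → (2 : ℝ) ^ x ≤ 2 ^ y := fun h => pow_le_pow_right₀ (by norm_num) h
  induction j using Nat.strong_induction_on with
  | _ j ih =>
    intro hji hlj b hb s hs
    have hcj : Set.InjOn c (Set.Iio j) := hc.mono (Set.Iio_subset_Iio hji.le)
    have hsY : |s| ≤ 1 / 2 ^ g l := hs.trans (inv_le_of (by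
      have := hS l (by omega)
      omega))
    -- the derivative on the segment
    have hder : ∀ s' : ℝ, |s'| ≤ |s| →
        |eval (mvp (v (ptr F J ω)) s' b) (dir (v (ptr F J ω)) (G (ptr F J ω) j)) - 0| ≤
          2 ^ (c₀ + 2 * D₁ + r + e + X + nlp g l j) := by
      intro s' hs'
      rw [sub_zero]
      obtain ⟨m1, m2⟩ := mvp_box (y := 1) (fun k => hL.depG _ k) h0 h1 hb (hs'.trans hsY)
        fun k hk hlk => ih k hk (by omega) hlk b (hb.mono le_rfl hk.le) s' (hs'.trans hs)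
      rw [dir_eq hcj _ (hL.depG _ j)]
      refine (Finset.abs_sum_le_sum_abs _ _).trans ?_
      have hterm : ∀ k ∈ range j, |v (ptr F J ω) (c k) *
          eval (mvp (v (ptr F J ω)) s' b) (pderiv (some (c k)) (G (ptr F J ω) j))| ≤
          2 ^ (c₀ + 2 * D₁ + e + X + nlp g l j) := by
        intro k hk
        rw [mem_range] at hk
        rcases lt_or_ge k l with hkl | hkl
        · rw [h0 k hkl, zero_mul, abs_zero]
          positivity
        · have h3 : |v (ptr F J ω) (c k)| ≤ 2 ^ X := by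
            rcases hkl.eq_or_lt with h4 | h4
            · rw [← h4, h1, abs_one]
              exact one_le_pow₀ (by norm_num)
            · exact hX k (by omega) h4
          have h4 : nlp g k j ≤ nlp g l j := by
            unfold nlp
            have : (Finset.Icc k j).sup g ≤ (Finset.Icc l j).sup g :=
              Finset.sup_mono (Finset.Icc_subset_Icc_left hkl)
            omega
          have h5 := hdil (c := c) (i := j) (G := G (ptr F J ω))
            (Q := pderiv (some (c k)) (G (ptr F J ω) j)) (g := g) (a := a) (t := F.t ω)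
            (M := 2 ^ (e + nlp g k j)) 2 (by omega) hcj (fun l => hL.degG _ l)
            (fun l => hL.depG _ l) ((hL.depG _ j).pderiv k)
            (Pool.KS3.SML.totalDegree_pderiv_le _ _ D
              ((hL.degG _ j).trans (Nat.le_succ _))) (by positivity)
            (fun b' hb' => hL.lip ω hω j hji b' hb' k hk) _ m1 m2
          rw [abs_mul]
          calc |v (ptr F J ω) (c k)| * |eval (mvp (v (ptr F J ω)) s' b)
                (pderiv (some (c k)) (G (ptr F J ω) j))|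
              ≤ 2 ^ X * (2 ^ (c₀ + 2 * D₁) * 2 ^ (e + nlp g k j)) :=
                mul_le_mul h3 h5 (abs_nonneg _) (by positivity)
            _ = 2 ^ (X + (c₀ + 2 * D₁ + (e + nlp g k j))) := by
              rw [pow_add 2 X, pow_add 2 (c₀ + 2 * D₁)]
            _ ≤ _ := pw (by omega)
      refine (Finset.sum_le_sum hterm).trans ?_
      rw [Finset.sum_const, card_range, nsmul_eq_mul]
      have h6 : (j : ℝ) ≤ 2 ^ r := by
        have h7 : j ≤ 2 ^ r := (by omega : j ≤ r).trans Nat.lt_two_pow_self.le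
        exact_mod_cast h7
      calc (j : ℝ) * 2 ^ (c₀ + 2 * D₁ + e + X + nlp g l j)
          ≤ 2 ^ r * 2 ^ (c₀ + 2 * D₁ + e + X + nlp g l j) :=
            mul_le_mul_of_nonneg_right h6 (by positivity)
        _ = 2 ^ (r + (c₀ + 2 * D₁ + e + X + nlp g l j)) := by rw [← pow_add]
        _ ≤ _ := pw (by omega)
    have h2 := meanv (v (ptr F J ω)) b (G (ptr F J ω) j) (x := 0) hder
    rw [zero_mul, sub_zero] at h2
    have hnl : nlp g l j + g j ≤ S := nlp_add_le fun k hk => hS k (by omega)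
    have h3 : 2 ^ (c₀ + 2 * D₁ + r + e + X + nlp g l j) * |s| ≤ 1 / 2 ^ g j := by
      calc 2 ^ (c₀ + 2 * D₁ + r + e + X + nlp g l j) * |s|
          ≤ 2 ^ (c₀ + 2 * D₁ + r + e + X + nlp g l j) * (1 / 2 ^ Y) :=
            mul_le_mul_of_nonneg_left hs (by positivity)
        _ ≤ 1 / 2 ^ g j := by
          rw [mul_one_div, div_le_div_iff₀ (by positivity) (by positivity), one_mul, ← pow_add]
          exact pw (by omega)
    have h4 : |s * v (ptr F J ω) (c j)| ≤ 1 / 2 ^ g j := by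
      rw [abs_mul]
      calc |s| * |v (ptr F J ω) (c j)| ≤ 1 / 2 ^ Y * 2 ^ X :=
            mul_le_mul hs (hX j hji hlj) (abs_nonneg _) (by positivity)
        _ ≤ 1 / 2 ^ g j := by
          rw [one_div_mul_eq_div, div_le_div_iff₀ (by positivity) (by positivity), one_mul,
            ← pow_add]
          exact pw (by omega)
    have h5 := abs_sub (eval (mvp (v (ptr F J ω)) s b) (G (ptr F J ω) j) -
      eval b (G (ptr F J ω) j)) (s * v (ptr F J ω) (c j))
    have e1 : (2 : ℝ) ^ 1 / 2 ^ g j = 1 / 2 ^ g j + 1 / 2 ^ g j := by ring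
    rw [e1]
    exact h5.trans (add_le_add (h2.trans h3) h4)

/-- **A crude bound** of the derivative of a label of a line in a direction at the samples. -/
theorem val_up (D r : ℕ) : ∃ C : ℕ, ∀ {m J : ℕ} {F : Fam m J} {c : ℕ → Fin m}
    {a w e S X l i : ℕ} {g : ℕ → ℕ} {A : F.Ω → Prop}
    {G : PtT F → ℕ → MvPolynomial (Option (Fin m)) ℝ}
    {H : LnT F → ℕ → MvPolynomial (Option (Fin m)) ℝ} {v : Fin m → ℝ} {ω : F.Ω}, i < r → l < i →
    Set.InjOn c (Set.Iio i) → ChOK F c (i + 1) (fun _ => D) a w e g A G H → A ω →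
    (∀ j < i, g j ≤ S) → v (c l) = 1 → (∀ j < l, v (c j) = 0) →
    (∀ j < i, l < j → |v (c j)| ≤ 2 ^ X) →
    |eval (bt F ω) (dir v (H (slam F w ω) i))| ≤ 2 ^ (C + e + X + S) := by
  obtain ⟨C₁, htiny⟩ := shr_tiny D r
  obtain ⟨C₂, hcmp⟩ := slpY_cmp D r
  refine ⟨r + 2 * C₂ + C₁ + 1, ?_⟩
  intro m J F c a w e S X l i g A G H v ω hir hli hc hL hω hS h1 h0 hX
  have pw : ∀ {x y : ℕ}, x ≤ y → (2 : ℝ) ^ x ≤ 2 ^ y := fun h => pow_le_pow_right₀ (by norm_num) h
  have hLi : ChOK F c i (fun _ => D) a w e g A G H := hL.mono (by omega) (fun _ => le_rfl) le_rfl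
    le_rfl
  have hsh := htiny (v := fun _ => v) (Y := C₁ + e + X + S) hir.le hc hLi hω hS le_rfl h1 h0 hX
  have hself := hL.self hω (show i ≤ i + 1 by omega)
  have h2 := hcmp (c := c) (l := l) (i := i) (a := a) (k := 0) (y := 1) (p := g i)
    (Y := C₁ + e + X + S) (g := g) (G := G) (v := fun _ => v)
    (P := G (ptr F J ω) i - H (slam F w ω) i) (ω := ω) (b := bt F ω) (by
      have := hS l hli
      omega) hir hc hL.degG hL.depG (fun b b' hn hb => by
      rw [map_sub, map_sub, hL.depG _ i b b' hn hb, hL.depH _ i b b' hn hb])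
    ((totalDegree_sub _ _).trans (max_le (hL.degG _ i) (hL.degH _ i))) h1 h0 hsh hself
    (fun b hb => by
      rw [map_sub, pow_zero]
      exact hL.agr ω hω i (by omega) b hb)
  -- the value of the label of the point
  have h3 : |eval (bt F ω) (dir v (G (ptr F J ω) i))| ≤ 2 ^ (r + e + X + S) := by
    rw [dir_eq hc _ (hL.depG _ i)]
    refine (Finset.abs_sum_le_sum_abs _ _).trans ?_
    have hterm : ∀ k ∈ range i, |v (c k) *
        eval (bt F ω) (pderiv (some (c k)) (G (ptr F J ω) i))| ≤ 2 ^ (e + X + S) := by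
      intro k hk
      rw [mem_range] at hk
      rcases lt_or_ge k l with hkl | hkl
      · rw [h0 k hkl, zero_mul, abs_zero]
        positivity
      · have h3 : |v (c k)| ≤ 2 ^ X := by
          rcases hkl.eq_or_lt with h4 | h4
          · rw [← h4, h1, abs_one]
            exact one_le_pow₀ (by norm_num)
          · exact hX k (by omega) h4
        have h5 := hL.lip ω hω i (by omega) _ hself k hk
        have h6 : nlp g k i ≤ S := nlp_le hS
        rw [abs_mul]
        calc |v (c k)| * |eval (bt F ω) (pderiv (some (c k)) (G (ptr F J ω) i))|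
            ≤ 2 ^ X * 2 ^ (e + nlp g k i) := mul_le_mul h3 h5 (abs_nonneg _) (by positivity)
          _ = 2 ^ (X + (e + nlp g k i)) := by rw [← pow_add]
          _ ≤ _ := pw (by omega)
    refine (Finset.sum_le_sum hterm).trans ?_
    rw [Finset.sum_const, card_range, nsmul_eq_mul]
    have h6 : (i : ℝ) ≤ 2 ^ r := by
      have h7 : i ≤ 2 ^ r := (by omega : i ≤ r).trans Nat.lt_two_pow_self.le
      exact_mod_cast h7
    calc (i : ℝ) * 2 ^ (e + X + S) ≤ 2 ^ r * 2 ^ (e + X + S) :=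
          mul_le_mul_of_nonneg_right h6 (by positivity)
      _ = 2 ^ (r + (e + X + S)) := by rw [← pow_add]
      _ ≤ _ := pw (by omega)
  have e1 : eval (bt F ω) (dir v (H (slam F w ω) i)) = eval (bt F ω) (dir v (G (ptr F J ω) i)) -
      eval (bt F ω) (dir v (G (ptr F J ω) i - H (slam F w ω) i)) := by
    rw [dir_sub, map_sub]
    ring
  rw [e1]
  refine (abs_sub _ _).trans ?_
  have f2 : (2 : ℝ) ^ (C₂ * (0 + 1 + 1)) * 2 ^ (C₁ + e + X + S) / 2 ^ g i ≤
      2 ^ (2 * C₂ + C₁ + e + X + S) := by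
    rw [div_le_iff₀ (by positivity)]
    calc (2 : ℝ) ^ (C₂ * (0 + 1 + 1)) * 2 ^ (C₁ + e + X + S)
        = 2 ^ (C₂ * (0 + 1 + 1) + (C₁ + e + X + S)) := by rw [← pow_add]
      _ ≤ 2 ^ (2 * C₂ + C₁ + e + X + S) := pw (by omega)
      _ ≤ _ := le_mul_of_one_le_right (by positivity) (one_le_pow₀ (by norm_num))
  calc |eval (bt F ω) (dir v (G (ptr F J ω) i))| +
        |eval (bt F ω) (dir v (G (ptr F J ω) i - H (slam F w ω) i))|
      ≤ 2 ^ (r + e + X + S) + 2 ^ (2 * C₂ + C₁ + e + X + S) := add_le_add h3 (h2.trans f2)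
    _ ≤ 2 ^ (r + 2 * C₂ + C₁ + e + X + S) + 2 ^ (r + 2 * C₂ + C₁ + e + X + S) :=
      add_le_add (pw (by omega)) (pw (by omega))
    _ = 2 ^ (r + 2 * C₂ + C₁ + 1 + e + X + S) := by
      rw [show r + 2 * C₂ + C₁ + 1 + e + X + S = (r + 2 * C₂ + C₁ + e + X + S) + 1 by omega,
        pow_succ]
      ring

/-- **A crude bound** of the derivative of a polynomial of the line on the window, at a quarter of
the samples. -/
theorem crd (m D : ℕ) : ∃ (C : ℕ) (C₁ : ℝ), 1 ≤ C₁ ∧ ∀ {J : ℕ} {F : Fam m J} {w s : ℕ}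
    {A : F.Ω → Prop} {M θ : ℝ} (Q : LnT F → Polynomial ℝ), 0 < Pe F.p A → w ≤ J →
    (∀ s, (Q s).natDegree ≤ D) →
    (∀ (B' : F.Ω → Prop) (hB' : 0 < Pe F.p B'), Sub B' A → Pe F.p A ≤ 2 * Pe F.p B' →
      (Fam.sub F B' hB').Tm θ) → 0 ≤ θ → C₁ * (θ + 1) ≤ ((J : ℝ) - w) * Real.log 2 →
    C₁ * (θ + 1) ≤ s → 0 ≤ M → (∀ ω, A ω → |(Q (slam F w ω)).eval (F.t ω)| ≤ M) →
    ∃ B : F.Ω → Prop, Sub B A ∧ Pe F.p A / 4 ≤ Pe F.p B ∧ ∀ ω, B ω →
      wmx w (slam F w ω).2.2 (Polynomial.derivative (Q (slam F w ω))) ≤ 2 ^ (C + w + s) * M := by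
  obtain ⟨C₁, hC₁, hrem⟩ := low_rem m D
  obtain ⟨C₂, hder⟩ := mkv_der D
  refine ⟨C₂, C₁, hC₁, ?_⟩
  intro J F w s A M θ Q hA hw hdeg hTm hθ hn1 hn2 hM0 hM
  -- the derivative is bounded by the polynomial
  have hmk : ∀ ω, wmx w (slam F w ω).2.2 (Polynomial.derivative (Q (slam F w ω))) ≤
      2 ^ (C₂ + w) * wmx w (slam F w ω).2.2 (Q (slam F w ω)) := by
    intro ω
    have h1 := hder (w := w) (n := (slam F w ω).2.2)
      (K := wmx w (slam F w ω).2.2 (Q (slam F w ω))) (P := Q (slam F w ω)) (hdeg _)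
      (fun t ht => le_wmx ht)
    obtain ⟨t, ht, h2⟩ := wmx_mem w (slam F w ω).2.2 (Polynomial.derivative (Q (slam F w ω)))
    rw [h2]
    exact h1 t ht
  obtain ⟨A₀, hA₀⟩ : ∃ A₀ : F.Ω → Prop, A₀ = fun ω =>
    0 < wmx w (slam F w ω).2.2 (Q (slam F w ω)) := ⟨_, rfl⟩
  have hsplit : Pe F.p A ≤ Pe F.p (fun ω => A ω ∧ A₀ ω) + Pe F.p (fun ω => A ω ∧ ¬ A₀ ω) :=
    Pool.K2S.Pe_or F.isLaw fun ω hω => by
      by_cases h : A₀ ω
      · exact Or.inl ⟨hω, h⟩
      · exact Or.inr ⟨hω, h⟩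
  rcases le_or_gt (Pe F.p A / 2) (Pe F.p (fun ω => A ω ∧ A₀ ω)) with h1 | h1
  · have h0 : 0 < Pe F.p (fun ω => A ω ∧ A₀ ω) := by linarith
    have hT := hTm _ h0 (fun ω h => h.1) (by linarith)
    obtain ⟨B, k1, k2, k3⟩ := hrem h0 Q (fun s' => wmx w s'.2.2 (Q s')) hw hdeg hT hθ hn1 hn2
      (fun ω hω => by
        have h2 := hω.2
        rw [hA₀] at h2
        refine ⟨h2, ?_⟩
        obtain ⟨t, ht, h3⟩ := wmx_mem w (slam F w ω).2.2 (Q (slam F w ω))
        obtain ⟨h4, h5⟩ := (win_iff hw ω t).2 ht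
        exact ⟨t, h4, h5, h3.le⟩)
    refine ⟨B, fun ω h => (k1 ω h).1, by linarith, fun ω hω => (hmk ω).trans ?_⟩
    have h2 := k3 ω hω
    rw [div_le_iff₀ (by positivity)] at h2
    have h3 := h2.trans (mul_le_mul_of_nonneg_right (hM ω (k1 ω hω).1) (by positivity))
    calc 2 ^ (C₂ + w) * wmx w (slam F w ω).2.2 (Q (slam F w ω))
        ≤ 2 ^ (C₂ + w) * (M * 2 ^ s) := mul_le_mul_of_nonneg_left h3 (by positivity)
      _ = _ := by rw [pow_add 2 (C₂ + w)]; ring
  · refine ⟨fun ω => A ω ∧ ¬ A₀ ω, fun ω h => h.1, by linarith, fun ω hω => (hmk ω).trans ?_⟩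
    have h2 := hω.2
    rw [hA₀] at h2
    push Not at h2
    have h3 : (2 : ℝ) ^ (C₂ + w) * wmx w (slam F w ω).2.2 (Q (slam F w ω)) ≤ 0 :=
      mul_nonpos_of_nonneg_of_nonpos (by positivity) h2
    exact h3.trans (by positivity)

/-- **Dyadic classes.** -/
theorem dyc {Ω : Type} [Fintype Ω] {p : Ω → ℝ} (hp : IsLaw p) {A : Ω → Prop} {f : Ω → ℝ}
    {Q s N G : ℕ} (hf : ∀ ω, A ω → f ω ≤ 2 ^ (Q + N * s) / 2 ^ G) :
    ∃ k ≤ N, ∃ B : Ω → Prop, Sub B A ∧ Pe p A ≤ (N + 1) * Pe p B ∧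
      (∀ ω, B ω → f ω ≤ 2 ^ (Q + k * s) / 2 ^ G) ∧
      (0 < k → ∀ ω, B ω → 2 ^ (Q + k * s) / 2 ^ G / 2 ^ s ≤ f ω) := by
  obtain ⟨Φ, hΦ⟩ : ∃ Φ : ℕ → Ω → Prop, Φ = fun k ω => f ω ≤ 2 ^ (Q + k * s) / 2 ^ G ∧
    (0 < k → 2 ^ (Q + k * s) / 2 ^ G / 2 ^ s ≤ f ω) := ⟨_, rfl⟩
  have hcl : ∀ ω, A ω → ∃ k < N + 1, Φ k ω := by
    intro ω hω
    have key : ∀ n : ℕ, f ω ≤ 2 ^ (Q + n * s) / 2 ^ G → ∃ k < n + 1, Φ k ω := by
      intro n
      induction n with
      | zero =>
        intro h5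
        refine ⟨0, by omega, ?_⟩
        rw [hΦ]
        exact ⟨h5, fun h => absurd h (lt_irrefl 0)⟩
      | succ n ih =>
        intro h5
        rcases le_or_gt (f ω) (2 ^ (Q + n * s) / 2 ^ G) with h6 | h6
        · obtain ⟨k, hk, h7⟩ := ih h6
          exact ⟨k, by omega, h7⟩
        · refine ⟨n + 1, by omega, ?_⟩
          rw [hΦ]
          refine ⟨h5, fun _ => le_trans (le_of_eq ?_) h6.le⟩
          rw [show Q + (n + 1) * s = (Q + n * s) + s by ring, pow_add 2 (Q + n * s) s]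
          field_simp
    exact key N (hf ω hω)
  obtain ⟨k, hk, h1⟩ := pig hp (Nat.succ_pos N) hcl
  refine ⟨k, by omega, fun ω => A ω ∧ Φ k ω, fun ω h => h.1, by exact_mod_cast h1,
    fun ω h => ?_, fun h0 ω h => ?_⟩
  · have := h.2
    rw [hΦ] at this
    exact this.1
  · have := h.2
    rw [hΦ] at this
    exact this.2 h0

end Pool.NVX
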