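import Pool.Agent.H87.GEN.Nod
import Pool.Agent.H87.GEN.ShrY
import Pool.Agent.H73.D2.Hgt

/-!
# The shear of the label of `c 2`, from one node to another

`shr_ext`: the shear on a larger box and for larger steps. `shr_mv`: for near labels. `shr_two`: both
directions, for two nodes at the same samples.
-/

set_option autoImplicit false

namespace Pool.NVX

open Finset Real MvPolynomial
open Pool.Agent.H49.Ent Pool.Agent.H32.Dense Pool.STK Pool.KA Pool.KSAT Pool.K2S Pool.PB Pool.S6C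
open Pool.GEN Pool.CHT
open Pool.SHR

/-- The shear of one polynomial. -/
def Sh2 {m : ℕ} (c : ℕ → Fin m) (G : ℕ → MvPolynomial (Option (Fin m)) ℝ) (v : Fin m → ℝ)
    (g : ℕ → ℕ) (a : ℕ) (t : ℝ) (Y y : ℕ) : Prop :=
  ∀ b : Option (Fin m) → ℝ, NBx c G g a t 2 b → ∀ s : ℝ, |s| ≤ 1 / 2 ^ Y →
    |eval (mvp v s b) (G 2) - eval b (G 2) - s * v (c 2)| ≤ 2 ^ y / 2 ^ g 2

/-- The shear on a larger box and for larger steps. -/
theorem shr_ext (D : ℕ) : ∃ C : ℕ, ∀ {m : ℕ} {c : ℕ → Fin m}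
    {G : ℕ → MvPolynomial (Option (Fin m)) ℝ} {v : Fin m → ℝ} {g : ℕ → ℕ} {a Y y n q : ℕ} {t : ℝ},
    Set.InjOn c (Set.Iio 2) → (∀ l, (G l).totalDegree ≤ D) → (∀ l, DepC c l (G l)) →
    Sh2 c G v g a t Y y → ∀ b, |b none - t| ≤ 1 / 2 ^ a →
    (∀ l < 2, |b (some (c l)) - eval b (G l)| ≤ 2 ^ n / 2 ^ g l) →
    ∀ s : ℝ, |s| ≤ 2 ^ q / 2 ^ Y →
      |eval (mvp v s b) (G 2) - eval b (G 2) - s * v (c 2)| ≤
        2 ^ (C * (n + q + y + 1)) / 2 ^ g 2 := by
  obtain ⟨c₀, D₁, hD₁, hdil⟩ := nbx_dil 3 (fun _ => D)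
  obtain ⟨Cg, hCg, hgr⟩ := grow_one (D + 1)
  obtain ⟨c₁, hc₁⟩ := pow_unbounded_of_one_lt Cg (one_lt_two (α := ℝ))
  refine ⟨c₀ + D₁ + c₁ + D + 3, ?_⟩
  intro m c G v g a Y y n q t hc hGd hGp hS b hb0 hb s hs
  -- small steps
  have h1 : ∀ s : ℝ, |s| ≤ 1 / 2 ^ Y → |eval (mvp v s b) (G 2) - eval b (G 2) - s * v (c 2)| ≤
      2 ^ (c₀ + n * D₁) * (2 ^ y / 2 ^ g 2) := by
    intro s hs
    obtain ⟨f, hf⟩ : ∃ f : Option (Fin m) → MvPolynomial (Option (Fin m)) ℝ,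
      f = fun o => X o + C (s * dvc v o) := ⟨_, rfl⟩
    have hfe : ∀ b', eval b' (bind₁ f (G 2)) = eval (mvp v s b') (G 2) := by
      intro b'
      rw [Pool.D2G30.eval_bind]
      congr 2
      funext o
      rw [hf, map_add, eval_X, eval_C]
      rfl
    have hfd : (bind₁ f (G 2)).totalDegree ≤ D := by
      have h2 := Pool.D2G30.deg_bind f (K := 1) (fun o => by
        rw [hf]
        refine (totalDegree_add _ _).trans ?_
        rw [totalDegree_X, totalDegree_C]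
        simp) (G 2)
      rw [mul_one] at h2
      exact h2.trans (hGd 2)
    have h3 := hdil (c := c) (i := 2) (G := G)
      (Q := bind₁ f (G 2) - G 2 - C (s * v (c 2))) (g := g) (a := a) (t := t)
      (M := 2 ^ y / 2 ^ g 2) n (by norm_num) hc hGd hGp (fun b₁ b₂ hn h12 => by
        rw [map_sub, map_sub, map_sub, map_sub, eval_C, eval_C, hfe, hfe, hGp 2 b₁ b₂ hn h12,
          hGp 2 (mvp v s b₁) (mvp v s b₂) (by rw [mvp_none, mvp_none, hn]) (fun k hk => by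
            rw [mvp_some, mvp_some, h12 k hk])])
      ((totalDegree_sub _ _).trans (max_le ((totalDegree_sub _ _).trans (max_le hfd (hGd 2))) (by
        rw [totalDegree_C]; exact Nat.zero_le _))) (by positivity) (fun b' hb' => by
        rw [map_sub, map_sub, eval_C, hfe]
        exact hS b' hb' s hs) b hb0 hb
    rw [map_sub, map_sub, eval_C, hfe] at h3
    exact h3
  -- larger steps
  obtain ⟨f, hf⟩ : ∃ f : Polynomial ℝ, f = (MvPolynomial.aeval (lnv v b) (G 2) -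
      Polynomial.C (eval b (G 2)) - Polynomial.C (v (c 2)) * Polynomial.X).comp
        (Polynomial.C s * Polynomial.X) := ⟨_, rfl⟩
  have hfe : ∀ t : ℝ, f.eval t = eval (mvp v (s * t) b) (G 2) - eval b (G 2) -
      (s * t) * v (c 2) := by
    intro t
    rw [hf, Polynomial.eval_comp, Polynomial.eval_sub, Polynomial.eval_sub, Polynomial.eval_mul,
      Polynomial.eval_mul, Polynomial.eval_C, Polynomial.eval_C, Polynomial.eval_C,
      Polynomial.eval_X, Polynomial.eval_X, eval_lnv]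
    ring
  have hfd : f.natDegree ≤ D + 1 := by
    rw [hf]
    have h0 : (Polynomial.C s * Polynomial.X : Polynomial ℝ).natDegree ≤ 1 :=
      (Polynomial.natDegree_C_mul_le _ _).trans Polynomial.natDegree_X_le
    refine (Polynomial.natDegree_comp_le).trans ((Nat.mul_le_mul_left _ h0).trans ?_)
    rw [mul_one]
    refine (Polynomial.natDegree_sub_le _ _).trans (max_le ((Polynomial.natDegree_sub_le _ _).trans
      (max_le ((natDegree_lnv v b (hGd 2)).trans (Nat.le_succ _)) ?_)) ?_)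
    · rw [Polynomial.natDegree_C]
      exact Nat.zero_le _
    · exact (Polynomial.natDegree_C_mul_le _ _).trans (Polynomial.natDegree_X_le.trans (by omega))
  have h2 := hgr f (2 ^ (c₀ + n * D₁) * (2 ^ y / 2 ^ g 2)) q (D + 1) hfd le_rfl (fun τ hτ => by
    rw [hfe]
    refine h1 _ ?_
    rw [abs_mul, abs_div, abs_of_nonneg hτ.1, abs_of_pos (show (0 : ℝ) < 2 ^ q by positivity)]
    have h3 : τ / 2 ^ q ≤ 1 / 2 ^ q := div_le_div_of_nonneg_right hτ.2 (by positivity)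
    calc |s| * (τ / 2 ^ q) ≤ 2 ^ q / 2 ^ Y * (1 / 2 ^ q) :=
          mul_le_mul hs h3 (div_nonneg hτ.1 (by positivity)) (by positivity)
      _ = 1 / 2 ^ Y := by field_simp)
  rw [hfe, mul_one] at h2
  refine h2.trans ?_
  calc Cg * 2 ^ (q * (D + 1)) * (2 ^ (c₀ + n * D₁) * (2 ^ y / 2 ^ g 2)) ≤
      2 ^ c₁ * 2 ^ (q * (D + 1)) * (2 ^ (c₀ + n * D₁) * (2 ^ y / 2 ^ g 2)) :=
        mul_le_mul_of_nonneg_right (mul_le_mul_of_nonneg_right hc₁.le (by positivity))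
          (by positivity)
    _ = 2 ^ (c₁ + q * (D + 1) + (c₀ + n * D₁) + y) / 2 ^ g 2 := by
        rw [pow_add _ (c₁ + q * (D + 1) + (c₀ + n * D₁)) y, pow_add _ (c₁ + q * (D + 1)),
          pow_add _ c₁]
        ring
    _ ≤ _ := by
        refine div_le_div_of_nonneg_right (pow_le_pow_right₀ (by norm_num) ?_) (by positivity)
        nlinarith [Nat.zero_le (c₀ * n), Nat.zero_le (c₀ * q), Nat.zero_le (c₀ * y),
          Nat.zero_le (D₁ * q), Nat.zero_le (D₁ * y), Nat.zero_le (c₁ * n), Nat.zero_le (c₁ * q),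
          Nat.zero_le (c₁ * y), Nat.zero_le (D * n), Nat.zero_le (D * y), Nat.zero_le n,
          Nat.zero_le q, Nat.zero_le y, Nat.zero_le D, Nat.zero_le D₁]

theorem inv_q {x y q : ℕ} (h : y ≤ x + q) : (1 : ℝ) / 2 ^ x ≤ 2 ^ q / 2 ^ y := by
  rw [div_le_div_iff₀ (by positivity) (by positivity), one_mul, ← pow_add]
  exact pow_le_pow_right₀ (by norm_num) (by omega)

theorem div_q {x y q n : ℕ} (h : y ≤ x + q) : (2 : ℝ) ^ n / 2 ^ x ≤ 2 ^ (n + q) / 2 ^ y := by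
  rw [div_le_div_iff₀ (by positivity) (by positivity), ← pow_add, ← pow_add]
  exact pow_le_pow_right₀ (by norm_num) (by omega)

/-- **The shear for near labels**, both directions. -/
theorem shr_mv (D : ℕ) : ∃ C : ℕ, ∀ {m : ℕ} {c : ℕ → Fin m}
    {G G' : ℕ → MvPolynomial (Option (Fin m)) ℝ} {v : Fin m → ℝ} {g g' : ℕ → ℕ}
    {a Y Y' y k q : ℕ} {t : ℝ},
    Set.InjOn c (Set.Iio 3) → (∀ l, (G l).totalDegree ≤ D) → (∀ l, DepC c l (G l)) →
    (∀ l, (G' l).totalDegree ≤ D) → (∀ l, DepC c l (G' l)) → v (c 0) = 0 → v (c 1) = 1 →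
    (∀ i < 3, ∀ b, NBx c G g a t i b → |eval b (G i) - eval b (G' i)| ≤ 2 ^ k / 2 ^ g' i) →
    (g 1 ≤ Y → Y' ≤ Y + q → g 2 ≤ g' 2 + q → g' 0 ≤ g 0 + q → g' 1 ≤ g 1 + q →
      Sh2 c G' v g' a t Y' y → Sh2 c G v g a t Y (C * (k + q + y + 1))) ∧
    (g' 1 ≤ Y' → Y ≤ Y' + q → g' 2 ≤ g 2 + q → g 0 ≤ g' 0 + q → g 1 ≤ g' 1 + q →
      Sh2 c G v g a t Y y → Sh2 c G' v g' a t Y' (C * (k + q + y + 1))) := by
  obtain ⟨c₀, D₁, hD₁, hdil⟩ := nbx_dil 3 (fun _ => D)
  obtain ⟨C₁, hext⟩ := shr_ext D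
  have pw : ∀ {x y : ℕ}, x ≤ y → (2 : ℝ) ^ x ≤ 2 ^ y := fun h => pow_le_pow_right₀ (by norm_num) h
  refine ⟨C₁ * (c₀ + D₁ + 3) + c₀ + (c₀ + D₁ + 3) * D₁ + 6, ?_⟩
  intro m c G G' v g g' a Y Y' y k q t hc hGd hGp hGd' hGp' hv0 hv1 hnear
  obtain ⟨T, hT⟩ : ∃ T, T = k + q + y + 1 := ⟨_, rfl⟩
  have hT1 : 1 ≤ T := by omega
  rw [← hT]
  have hc2 : Set.InjOn c (Set.Iio 2) := hc.mono (by
    intro y hy
    rw [Set.mem_Iio] at hy ⊢
    omega)
  have hc1' : Set.InjOn c (Set.Iio 1) := hc.mono (by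
    intro y hy
    rw [Set.mem_Iio] at hy ⊢
    omega)
  -- the moved point
  have hmv : ∀ (G : ℕ → MvPolynomial (Option (Fin m)) ℝ) (g : ℕ → ℕ) (n e : ℕ) (b) (s : ℝ),
      (∀ l, DepC c l (G l)) → (∀ l < 2, |b (some (c l)) - eval b (G l)| ≤ 2 ^ n / 2 ^ g l) →
      |s| ≤ 2 ^ e / 2 ^ g 1 → ∀ l < 2,
        |mvp v s b (some (c l)) - eval (mvp v s b) (G l)| ≤ 2 ^ (n + e + 1) / 2 ^ g l := by
    intro G g n e b s hGp hb hs l hl
    rcases Nat.lt_or_ge l 1 with h4 | h4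
    · have : l = 0 := by omega
      subst this
      have e3 : eval (mvp v s b) (G 0) = eval b (G 0) :=
        hGp 0 _ _ (mvp_none _ _ _) fun k hk => absurd hk (Nat.not_lt_zero k)
      rw [e3, mvp_some, hv0, mul_zero, add_zero]
      exact (hb 0 (by norm_num)).trans (div_le_div_of_nonneg_right (pw (by omega))
        (by positivity))
    · have : l = 1 := by omega
      subst this
      have e3 : eval (mvp v s b) (G 1) = eval b (G 1) :=
        hGp 1 _ _ (mvp_none _ _ _) fun k hk => by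
          have : k = 0 := by omega
          subst this
          rw [mvp_some, hv0, mul_zero, add_zero]
      rw [e3, mvp_some, hv1, mul_one]
      have e4 : b (some (c 1)) + s - eval b (G 1) = (b (some (c 1)) - eval b (G 1)) + s := by
        ring
      rw [e4]
      refine (abs_add_le _ _).trans ((add_le_add (hb 1 (by norm_num)) hs).trans ?_)
      rw [← add_div]
      refine div_le_div_of_nonneg_right ?_ (by positivity)
      have g1 : (2 : ℝ) ^ n ≤ 2 ^ (n + e) := pw (by omega)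
      have g2 : (2 : ℝ) ^ e ≤ 2 ^ (n + e) := pw (by omega)
      rw [pow_succ]
      linarith
  -- near labels on the larger box
  have hnr : ∀ (i n : ℕ) (b), i < 3 → |b none - t| ≤ 1 / 2 ^ a →
      (∀ l < i, |b (some (c l)) - eval b (G l)| ≤ 2 ^ n / 2 ^ g l) →
      |eval b (G i) - eval b (G' i)| ≤ 2 ^ (c₀ + n * D₁ + k) / 2 ^ g' i := by
    intro i n b hi hb0 hb
    have hci : Set.InjOn c (Set.Iio i) := hc.mono (by
      intro y hy
      rw [Set.mem_Iio] at hy ⊢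
      omega)
    have h3 := hdil (c := c) (i := i) (G := G) (Q := G i - G' i) (g := g) (a := a) (t := t)
      (M := 2 ^ k / 2 ^ g' i) n hi hci hGd hGp (fun b₁ b₂ hn h12 => by
        rw [map_sub, map_sub, hGp i b₁ b₂ hn h12, hGp' i b₁ b₂ hn h12])
      ((totalDegree_sub _ _).trans (max_le (hGd i) (hGd' i))) (by positivity) (fun b' hb' => by
        rw [map_sub]
        exact hnear i hi b' hb') b hb0 hb
    rw [map_sub] at h3
    refine h3.trans (le_of_eq ?_)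
    rw [pow_add _ (c₀ + n * D₁) k, mul_div_assoc]
  have fin3 : ∀ {x₁ x₂ x₃ E : ℕ}, x₁ + 2 ≤ E → x₂ + 2 ≤ E → x₃ + 2 ≤ E →
      (2 : ℝ) ^ x₁ + (2 ^ x₂ + 2 ^ x₃) ≤ 2 ^ E := by
    intro x₁ x₂ x₃ E h1 h2 h3
    obtain ⟨e, he⟩ : ∃ e, E = e + 2 := ⟨E - 2, by omega⟩
    have k1 : (2 : ℝ) ^ x₁ ≤ 2 ^ e := pw (by omega)
    have k2 : (2 : ℝ) ^ x₂ ≤ 2 ^ e := pw (by omega)
    have k3 : (2 : ℝ) ^ x₃ ≤ 2 ^ e := pw (by omega)
    have k4 : (0 : ℝ) < 2 ^ e := by positivity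
    rw [he, pow_add]
    norm_num
    linarith
  obtain ⟨Ct, hCt⟩ : ∃ Ct, Ct = C₁ * (c₀ + D₁ + 3) + c₀ + (c₀ + D₁ + 3) * D₁ + 6 := ⟨_, rfl⟩
  rw [← hCt]
  have eCt : Ct * T = C₁ * ((c₀ + D₁ + 3) * T) + c₀ * T + (c₀ + D₁ + 3) * T * D₁ + 6 * T := by
    rw [hCt]
    ring
  have b0 : c₀ ≤ c₀ * T := Nat.le_mul_of_pos_right _ hT1
  constructor
  · intro hY hYY hg2 hg0 hg1 hS b hb s hs
    obtain ⟨n, hn⟩ : ∃ n, n = q + k + 1 := ⟨_, rfl⟩
    have hbG : ∀ l < 2, |b (some (c l)) - eval b (G l)| ≤ 2 ^ 0 / 2 ^ g l := by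
      intro l hl
      rw [pow_zero]
      exact hb.2 l hl
    have hbG' : ∀ l < 2, |b (some (c l)) - eval b (G' l)| ≤ 2 ^ n / 2 ^ g' l := by
      intro l hl
      have h1 := hb.2 l hl
      have h2 := hnear l (by omega) b (hb.mono le_rfl hl.le)
      have h3 : (1 : ℝ) / 2 ^ g l ≤ 2 ^ q / 2 ^ g' l := inv_q (by
        rcases Nat.lt_or_ge l 1 with h4 | h4
        · have : l = 0 := by omega
          subst this
          exact hg0
        · have : l = 1 := by omega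
          subst this
          exact hg1)
      have e1 : b (some (c l)) - eval b (G' l) = (b (some (c l)) - eval b (G l)) +
          (eval b (G l) - eval b (G' l)) := by ring
      rw [e1]
      refine (abs_add_le _ _).trans ((add_le_add (h1.trans h3) h2).trans ?_)
      rw [← add_div]
      refine div_le_div_of_nonneg_right ?_ (by positivity)
      have k1 : (2 : ℝ) ^ q ≤ 2 ^ (q + k) := pw (by omega)
      have k2 : (2 : ℝ) ^ k ≤ 2 ^ (q + k) := pw (by omega)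
      rw [hn, pow_succ]
      linarith
    have hs1 : |s| ≤ 2 ^ q / 2 ^ Y' := hs.trans (inv_q hYY)
    have h1 := hext hc2 hGd' hGp' hS b hb.1 hbG' s hs1
    have hsg : |s| ≤ 2 ^ 0 / 2 ^ g 1 := by
      rw [pow_zero]
      exact hs.trans (inv_le_of hY)
    have hb' := hmv G g 0 0 b s hGp hbG hsg
    have h2 := hnr 2 (0 + 0 + 1) (mvp v s b) (by norm_num) (by rw [mvp_none]; exact hb.1) hb'
    have h3 := hnear 2 (by norm_num) b hb
    have e1 : eval (mvp v s b) (G 2) - eval b (G 2) - s * v (c 2) =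
        (eval (mvp v s b) (G' 2) - eval b (G' 2) - s * v (c 2)) +
        ((eval (mvp v s b) (G 2) - eval (mvp v s b) (G' 2)) - (eval b (G 2) - eval b (G' 2))) := by
      ring
    rw [e1]
    refine (abs_add_le _ _).trans ((add_le_add h1 ((abs_sub _ _).trans (add_le_add h2 h3))).trans
      ?_)
    rw [← add_div, ← add_div, div_le_div_iff₀ (by positivity) (by positivity)]
    obtain ⟨E, hE⟩ : ∃ E, E = Ct * T - q := ⟨_, rfl⟩
    have q1 : q ≤ T := by omega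
    have m1 : C₁ * (n + q + y + 1) ≤ C₁ * ((c₀ + D₁ + 3) * T) := by
      refine Nat.mul_le_mul_left _ ?_
      have : (c₀ + D₁ + 3) * T = c₀ * T + D₁ * T + 3 * T := by ring
      rw [this]
      omega
    have m2 : c₀ + (0 + 0 + 1) * D₁ + k ≤ c₀ * T + (c₀ + D₁ + 3) * T * D₁ + T := by
      have : (0 + 0 + 1) * D₁ ≤ (c₀ + D₁ + 3) * T * D₁ := by
        refine Nat.mul_le_mul_right _ ?_
        have : 1 * 1 ≤ (c₀ + D₁ + 3) * T := Nat.mul_le_mul (by omega) hT1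
        omega
      omega
    have hq : q ≤ Ct * T := by omega
    have key := fin3 (x₁ := C₁ * (n + q + y + 1)) (x₂ := c₀ + (0 + 0 + 1) * D₁ + k) (x₃ := k)
      (E := E) (by omega) (by omega) (by omega)
    calc _ ≤ (2 : ℝ) ^ E * 2 ^ g 2 := mul_le_mul_of_nonneg_right key (by positivity)
      _ = 2 ^ (E + g 2) := by rw [pow_add]
      _ ≤ 2 ^ (Ct * T + g' 2) := pw (by omega)
      _ = _ := by rw [pow_add]
  · intro hY hYY hg2 hg0 hg1 hS b hb s hs
    obtain ⟨n₁, hn₁⟩ : ∃ n₁, n₁ = k + 1 + q := ⟨_, rfl⟩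
    obtain ⟨n₂, hn₂⟩ : ∃ n₂, n₂ = c₀ + n₁ * D₁ + k + 1 + q := ⟨_, rfl⟩
    have hb0G : |b (some (c 0)) - eval b (G 0)| ≤ 2 ^ n₁ / 2 ^ g 0 := by
      have h1 := hb.2 0 (by norm_num)
      have h2 := hnear 0 (by norm_num) b ⟨hb.1, fun l hl => absurd hl (Nat.not_lt_zero l)⟩
      have e1 : b (some (c 0)) - eval b (G 0) = (b (some (c 0)) - eval b (G' 0)) -
          (eval b (G 0) - eval b (G' 0)) := by ring
      rw [e1]
      refine (abs_sub _ _).trans ((add_le_add h1 h2).trans ?_)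
      rw [← add_div]
      have k1 : (1 : ℝ) + 2 ^ k ≤ 2 ^ (k + 1) := by
        have : (1 : ℝ) ≤ 2 ^ k := one_le_pow₀ (by norm_num)
        rw [pow_succ]
        linarith
      refine (div_le_div_of_nonneg_right k1 (by positivity)).trans ?_
      rw [hn₁]
      exact div_q hg0
    have hb1G : |b (some (c 1)) - eval b (G 1)| ≤ 2 ^ n₂ / 2 ^ g 1 := by
      have h1 := hb.2 1 (by norm_num)
      have h2 := hnr 1 n₁ b (by norm_num) hb.1 (fun l hl => by
        have : l = 0 := by omega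
        subst this
        exact hb0G)
      have e1 : b (some (c 1)) - eval b (G 1) = (b (some (c 1)) - eval b (G' 1)) -
          (eval b (G 1) - eval b (G' 1)) := by ring
      rw [e1]
      refine (abs_sub _ _).trans ((add_le_add h1 h2).trans ?_)
      rw [← add_div]
      have k1 : (1 : ℝ) + 2 ^ (c₀ + n₁ * D₁ + k) ≤ 2 ^ (c₀ + n₁ * D₁ + k + 1) := by
        have : (1 : ℝ) ≤ 2 ^ (c₀ + n₁ * D₁ + k) := one_le_pow₀ (by norm_num)
        rw [pow_succ]
        linarith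
      refine (div_le_div_of_nonneg_right k1 (by positivity)).trans ?_
      rw [hn₂]
      exact div_q hg1
    have hn12 : n₁ ≤ n₂ := by
      have : n₁ ≤ n₁ * D₁ := Nat.le_mul_of_pos_right _ hD₁
      omega
    have hbG : ∀ l < 2, |b (some (c l)) - eval b (G l)| ≤ 2 ^ n₂ / 2 ^ g l := by
      intro l hl
      rcases Nat.lt_or_ge l 1 with h4 | h4
      · have : l = 0 := by omega
        subst this
        exact hb0G.trans (div_le_div_of_nonneg_right (pw hn12) (by positivity))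
      · have : l = 1 := by omega
        subst this
        exact hb1G
    have hs1 : |s| ≤ 2 ^ q / 2 ^ Y := hs.trans (inv_q hYY)
    have h1 := hext hc2 hGd hGp hS b hb.1 hbG s hs1
    have hsg : |s| ≤ 2 ^ q / 2 ^ g 1 := (hs.trans (inv_le_of hY)).trans (inv_q hg1)
    have hb' := hmv G g n₂ q b s hGp hbG hsg
    have h2 := hnr 2 (n₂ + q + 1) (mvp v s b) (by norm_num) (by rw [mvp_none]; exact hb.1) hb'
    have h3 := hnr 2 n₂ b (by norm_num) hb.1 hbG
    have e1 : eval (mvp v s b) (G' 2) - eval b (G' 2) - s * v (c 2) =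
        (eval (mvp v s b) (G 2) - eval b (G 2) - s * v (c 2)) +
        ((eval b (G 2) - eval b (G' 2)) - (eval (mvp v s b) (G 2) - eval (mvp v s b) (G' 2))) := by
      ring
    rw [e1]
    have h1' := h1.trans (div_q (n := C₁ * (n₂ + q + y + 1)) hg2)
    refine (abs_add_le _ _).trans ((add_le_add h1' ((abs_sub _ _).trans (add_le_add h3 h2))).trans
      ?_)
    rw [← add_div, ← add_div]
    refine div_le_div_of_nonneg_right ?_ (by positivity)
    have hn₁T : n₁ ≤ T := by omega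
    have m3 : n₁ * D₁ ≤ D₁ * T := by
      rw [mul_comm]
      exact Nat.mul_le_mul_left _ hn₁T
    have m0 : (c₀ + D₁ + 3) * T = c₀ * T + D₁ * T + 3 * T := by ring
    have m1 : C₁ * (n₂ + q + y + 1) ≤ C₁ * ((c₀ + D₁ + 3) * T) := by
      refine Nat.mul_le_mul_left _ ?_
      rw [m0]
      omega
    have m2 : (n₂ + q + 1) * D₁ ≤ (c₀ + D₁ + 3) * T * D₁ := by
      refine Nat.mul_le_mul_right _ ?_
      rw [m0]
      omega
    have m4 : n₂ * D₁ ≤ (n₂ + q + 1) * D₁ := Nat.mul_le_mul_right _ (by omega)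
    exact fin3 (by omega) (by omega) (by omega)

/-- **The shear of the label of `c 2`**, from one node to another one at the same radius. -/
theorem shr_two (D : ℕ) (hD : 1 ≤ D) : ∃ C : ℕ, ∀ {m J : ℕ} {F : Fam m J} {c : ℕ → Fin m}
    {a w e' h q y : ℕ} {g g' : ℕ → ℕ} {κ κ' : ℝ} {B₀ B' : F.Ω → Prop}
    {T T' : PtT F → ℕ → MvPolynomial (Option (Fin m)) ℝ}
    {H' : LnT F → ℕ → MvPolynomial (Option (Fin m)) ℝ} {v : PtT F → Fin m → ℝ},
    Set.InjOn c (Set.Iio 3) → RelvF F c 3 a w g D h κ B₀ T → (∀ y l, (T y l).totalDegree ≤ D) →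
    (∀ y l, DepC c l (T y l)) → Sub B' B₀ → κ' * Pe F.p B₀ ≤ Pe F.p B' → κ * 2 ^ C ≤ κ' →
    ChOK F c 3 (fun _ => D) a w e' g' B' T' H' →
    (∀ ω, B' ω → v (ptr F J ω) (c 0) = 0 ∧ v (ptr F J ω) (c 1) = 1) →
    ∃ B : F.Ω → Prop, Sub B B' ∧ Pe F.p B' / 2 ^ C ≤ Pe F.p B ∧
      (∀ Y Y' : ℕ, g 1 ≤ Y → Y' ≤ Y + q → g 2 ≤ g' 2 + q → g' 0 ≤ g 0 + q → g' 1 ≤ g 1 + q →
        ∀ ω, B ω → ShrY F c a Y' g' T' v y 2 ω →
          ShrY F c a Y g T v (C * (h + q + y + 1)) 2 ω) ∧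
      (∀ Y Y' : ℕ, g' 1 ≤ Y' → Y ≤ Y' + q → g' 2 ≤ g 2 + q → g 0 ≤ g' 0 + q → g 1 ≤ g' 1 + q →
        ∀ ω, B ω → ShrY F c a Y g T v y 2 ω →
          ShrY F c a Y' g' T' v (C * (h + q + y + 1)) 2 ω) := by
  obtain ⟨C₂, hlab⟩ := lab_near D 3 hD
  obtain ⟨C₃, hmv⟩ := shr_mv D
  refine ⟨C₃ * (C₂ + 1) + 4, ?_⟩
  intro m J F c a w e' h q y g g' κ κ' B₀ B' T T' H' v hc hR hTd hTp hB hP hκ hL hv
  have hPB0 := Pe_nonneg F.isLaw B₀
  have hPB := Pe_nonneg F.isLaw B'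
  -- the constants may be nonnegative
  obtain ⟨B, k1, k2, k3⟩ := hlab (κ' := max κ' 0) (le_refl 3) hc
    (hR.mono (κ' := max κ 0) le_rfl (le_max_left _ _)) hTp hB (by
      rcases le_total κ' 0 with h0 | h0
      · rw [max_eq_right h0, zero_mul]
        exact hPB
      · rw [max_eq_left h0]
        exact hP) (by
      rcases le_total κ 0 with h0 | h0
      · rw [max_eq_right h0, zero_mul]
        exact le_max_right _ _
      · rw [max_eq_left h0]
        refine le_trans ?_ (hκ.trans (le_max_left _ _))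
        refine mul_le_mul_of_nonneg_left (pow_le_pow_right₀ (by norm_num) (by omega)) h0) hL
  have hpow : (2 : ℝ) ^ 3 ≤ 2 ^ (C₃ * (C₂ + 1) + 4) := pow_le_pow_right₀ (by norm_num) (by omega)
  have hnum : C₃ * (C₂ * (h + 1) + q + y + 1) ≤ (C₃ * (C₂ + 1) + 4) * (h + q + y + 1) := by
    have e1 : C₂ * (h + 1) + q + y + 1 ≤ (C₂ + 1) * (h + q + y + 1) := by
      have : C₂ * (h + 1) ≤ C₂ * (h + q + y + 1) := Nat.mul_le_mul_left _ (by omega)
      have e2 : (C₂ + 1) * (h + q + y + 1) = C₂ * (h + q + y + 1) + (h + q + y + 1) := by ring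
      omega
    calc C₃ * (C₂ * (h + 1) + q + y + 1) ≤ C₃ * ((C₂ + 1) * (h + q + y + 1)) :=
          Nat.mul_le_mul_left _ e1
      _ ≤ _ := by
          have : C₃ * ((C₂ + 1) * (h + q + y + 1)) = C₃ * (C₂ + 1) * (h + q + y + 1) := by ring
          rw [this]
          exact Nat.mul_le_mul_right _ (by omega)
  have hup : ∀ {n n' : ℕ} {x : ℕ}, n ≤ n' → (2 : ℝ) ^ n / 2 ^ x ≤ 2 ^ n' / 2 ^ x := fun h =>
    div_le_div_of_nonneg_right (pow_le_pow_right₀ (by norm_num) h) (by positivity)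
  refine ⟨B, k1, (div_le_div_of_nonneg_left hPB (by positivity) hpow).trans k2, ?_, ?_⟩
  · intro Y Y' h1 h2 h3 h4 h5 ω hω hS b hb s hs
    obtain ⟨hv0, hv1⟩ := hv ω (k1 ω hω)
    have h6 := (hmv (Y := Y) (Y' := Y') (y := y) (q := q) hc (hTd (ptr F J ω))
      (hTp (ptr F J ω)) (hL.degG (ptr F J ω)) (hL.depG (ptr F J ω)) hv0 hv1
      (fun i hi b hb => k3 ω hω i hi b hb)).1 h1 h2 h3 h4 h5 hS b hb s hs
    exact h6.trans (hup hnum)
  · intro Y Y' h1 h2 h3 h4 h5 ω hω hS b hb s hs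
    obtain ⟨hv0, hv1⟩ := hv ω (k1 ω hω)
    have h6 := (hmv (Y := Y) (Y' := Y') (y := y) (q := q) hc (hTd (ptr F J ω))
      (hTp (ptr F J ω)) (hL.degG (ptr F J ω)) (hL.depG (ptr F J ω)) hv0 hv1
      (fun i hi b hb => k3 ω hω i hi b hb)).2 h1 h2 h3 h4 h5 hS b hb s hs
    exact h6.trans (hup hnum)

end Pool.NVX
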