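import Pool.Agent.H39.NV.BoxDir
import Pool.Agent.H39.NV.Shr2
import Pool.Agent.H80.NV.Axl
import Pool.Agent.H87.GEN.Nod
import Pool.Agent.H13.K2S.Cht

/-!
# The slope of the label of `c 2` in the direction `c 1`

`rnd_two`: two near functions have equal roundings on half of the event. `sig_ex`: the slope is
visible and closed, up to the natural size.
-/

set_option autoImplicit false

namespace Pool.NVX

open Finset Real MvPolynomial
open Pool.Agent.H49.Ent Pool.Agent.H32.Dense Pool.STK Pool.KA Pool.KSAT Pool.K2S Pool.PB Pool.S6C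
open Pool.GEN Pool.CHT
open Pool.D2R (dd hs)
open Pool.SHR (dir mvp mvp_none mvp_some RelvH Shr meanv slp_cmp lab_near dir_sub dir_deg dir_dep)

variable {m J : ℕ}

theorem floor_or {u u' : ℝ} (h : |u - u'| ≤ 1 / 4) :
    ⌊u⌋ = ⌊u'⌋ ∨ ⌊u + 1 / 2⌋ = ⌊u' + 1 / 2⌋ := by
  have key : ∀ {u u' : ℝ}, |u - u'| ≤ 1 / 4 → ⌊u⌋ < ⌊u'⌋ → ⌊u + 1 / 2⌋ = ⌊u' + 1 / 2⌋ := by
    intro u u' h hlt
    rw [abs_le] at h
    have h1 := Int.floor_le u'
    have h2 := Int.lt_floor_add_one u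
    have h3 : ((⌊u⌋ : ℤ) : ℝ) + 1 ≤ ⌊u'⌋ := by exact_mod_cast hlt
    have e1 : ⌊u + 1 / 2⌋ = ⌊u'⌋ := by
      rw [Int.floor_eq_iff]
      constructor <;> linarith [h.1, h.2]
    have e2 : ⌊u' + 1 / 2⌋ = ⌊u'⌋ := by
      rw [Int.floor_eq_iff]
      constructor <;> linarith [h.1, h.2]
    rw [e1, e2]
  rcases lt_trichotomy ⌊u⌋ ⌊u'⌋ with h1 | h1 | h1
  · exact Or.inr (key h h1)
  · exact Or.inl h1
  · exact Or.inr (key (by rw [abs_sub_comm]; exact h) h1).symm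

/-- **Two near functions have equal roundings** on half of the event. -/
theorem rnd_two {F : Fam m J} {w : ℕ} {B : F.Ω → Prop} {f : PtT F → ℝ} {f' : LnT F → ℝ} {A : ℝ}
    (hA : 0 < A) (h : ∀ ω, B ω → |f (ptr F J ω) - f' (slam F w ω)| ≤ A) :
    ∃ (B' : F.Ω → Prop) (r : PtT F → ℝ) (r' : LnT F → ℝ), Sub B' B ∧ Pe F.p B / 2 ≤ Pe F.p B' ∧
      (∀ ω, B' ω → r (ptr F J ω) = r' (slam F w ω)) ∧ ∀ x, |r x - f x| ≤ 4 * A := by
  have hr : ∀ (θ z : ℝ), |((⌊z / (4 * A) + θ⌋ : ℤ) - θ) * (4 * A) - z| ≤ 4 * A := by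
    intro θ z
    have h1 := Int.floor_le (z / (4 * A) + θ)
    have h2 := Int.lt_floor_add_one (z / (4 * A) + θ)
    have e1 : ((⌊z / (4 * A) + θ⌋ : ℤ) - θ) * (4 * A) - z =
        (((⌊z / (4 * A) + θ⌋ : ℤ) - (z / (4 * A) + θ))) * (4 * A) := by
      field_simp
      ring
    rw [e1, abs_mul, abs_of_pos (show 0 < 4 * A by linarith)]
    have h3 : |((⌊z / (4 * A) + θ⌋ : ℤ) : ℝ) - (z / (4 * A) + θ)| ≤ 1 := by
      rw [abs_le]
      constructor <;> linarith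
    nlinarith
  obtain ⟨Q, hQ⟩ : ∃ Q : ℝ → F.Ω → Prop, Q = fun θ ω => B ω ∧
      ⌊f (ptr F J ω) / (4 * A) + θ⌋ = ⌊f' (slam F w ω) / (4 * A) + θ⌋ := ⟨_, rfl⟩
  have hor : Pe F.p B ≤ Pe F.p (Q 0) + Pe F.p (Q (1 / 2)) := by
    refine Pool.K2S.Pe_or F.isLaw fun ω hω => ?_
    have h1 : |f (ptr F J ω) / (4 * A) - f' (slam F w ω) / (4 * A)| ≤ 1 / 4 := by
      rw [← sub_div, abs_div, abs_of_pos (show 0 < 4 * A by linarith),
        div_le_div_iff₀ (by linarith) (by norm_num)]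
      have := h ω hω
      linarith
    rw [hQ]
    rcases floor_or h1 with h2 | h2
    · left
      refine ⟨hω, ?_⟩
      show ⌊f (ptr F J ω) / (4 * A) + 0⌋ = ⌊f' (slam F w ω) / (4 * A) + 0⌋
      rw [add_zero, add_zero]
      exact h2
    · exact Or.inr ⟨hω, h2⟩
  obtain ⟨θ, hθ⟩ : ∃ θ : ℝ, Pe F.p B / 2 ≤ Pe F.p (Q θ) := by
    rcases le_total (Pe F.p (Q 0)) (Pe F.p (Q (1 / 2))) with h1 | h1
    · exact ⟨1 / 2, by linarith⟩
    · exact ⟨0, by linarith⟩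
  refine ⟨Q θ, fun x => ((⌊f x / (4 * A) + θ⌋ : ℤ) - θ) * (4 * A),
    fun s => ((⌊f' s / (4 * A) + θ⌋ : ℤ) - θ) * (4 * A), fun ω hω => ?_, hθ, fun ω hω => ?_,
    fun x => hr θ (f x)⟩
  · rw [hQ] at hω
    exact hω.1
  · rw [hQ] at hω
    show ((⌊f (ptr F J ω) / (4 * A) + θ⌋ : ℤ) - θ) * (4 * A) = _
    rw [hω.2]

/-- The numbers of `sig_ex`. -/
theorem sig_num (c₀ D₁ C₁ C₂ C₃ h y n k E C T : ℕ) (hT : T = h + y + 1)
    (hn : n = y + C₁ * (h + 1) + 1) (hk : k = C₁ * (h + 1) + c₀ + n * D₁ + y + 2)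
    (hE : E = C₃ * (h + 1) + C₂ * (k + 1) + y + 3)
    (hC : C = C₂ * (C₁ + c₀ + (C₁ + 2) * D₁ + 4) + 2 * C₃ + c₀ + D₁ + 12) :
    c₀ + D₁ + 5 + E ≤ C * T ∧ h + 2 * C₃ ≤ C * T ∧ 5 ≤ C := by
  have hT1 : 1 ≤ T := by omega
  have h1 : C₁ * (h + 1) ≤ C₁ * T := Nat.mul_le_mul_left _ (by omega)
  have h3 : C₃ * (h + 1) ≤ C₃ * T := Nat.mul_le_mul_left _ (by omega)
  have h4 : n ≤ (C₁ + 2) * T := by
    have : (C₁ + 2) * T = C₁ * T + 2 * T := by ring
    omega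
  have h5 : n * D₁ ≤ (C₁ + 2) * D₁ * T := by
    calc n * D₁ ≤ (C₁ + 2) * T * D₁ := Nat.mul_le_mul_right _ h4
      _ = _ := by ring
  have c0 : c₀ ≤ c₀ * T := Nat.le_mul_of_pos_right _ hT1
  have d1 : D₁ ≤ D₁ * T := Nat.le_mul_of_pos_right _ hT1
  have h3' : C₃ ≤ C₃ * T := Nat.le_mul_of_pos_right _ hT1
  have h6 : k + 1 ≤ (C₁ + c₀ + (C₁ + 2) * D₁ + 4) * T := by
    have : (C₁ + c₀ + (C₁ + 2) * D₁ + 4) * T = C₁ * T + c₀ * T + (C₁ + 2) * D₁ * T + 4 * T := by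
      ring
    omega
  have h7 : C₂ * (k + 1) ≤ C₂ * (C₁ + c₀ + (C₁ + 2) * D₁ + 4) * T := by
    rw [mul_assoc]
    exact Nat.mul_le_mul_left _ h6
  have h8 : C * T = C₂ * (C₁ + c₀ + (C₁ + 2) * D₁ + 4) * T + 2 * (C₃ * T) + c₀ * T + D₁ * T +
      12 * T := by
    rw [hC]
    ring
  refine ⟨by omega, by omega, by omega⟩

/-- **The slope of the label of `c 2` in the direction `c 1`, visible and closed**, up to the
natural size. `T` = the node `(a, a)`, `NH` = closed labels of the window `w ≤ a` seen from the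
window `a`. -/
theorem sig_ex (D : ℕ) (hD : 1 ≤ D) : ∃ C : ℕ, ∀ {m J : ℕ} {F : Fam m J} {c : ℕ → Fin m}
    {a e E h y : ℕ} {g gN Y : ℕ → ℕ} {κ : ℝ} {B₀ B : F.Ω → Prop}
    {T N : PtT F → ℕ → MvPolynomial (Option (Fin m)) ℝ}
    {TH NH : LnT F → ℕ → MvPolynomial (Option (Fin m)) ℝ},
    Set.InjOn c (Set.Iio 3) → a ≤ J → Sub B B₀ → 0 ≤ κ → κ * 2 ^ C * Pe F.p B₀ ≤ Pe F.p B →
    0 < Pe F.p B → ChOK F c 3 (fun _ => D) a a e g B T TH → RelvH F c 3 a a g Y D h κ B₀ T →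
    ChOK F c 3 (fun _ => D) a a E gN B N NH → g 2 ≤ gN 2 + y → (∀ l < 2, gN l ≤ g l + y) →
    (∀ j < 3, Y j ≤ J) → (∀ l < 3, e + g l + C * (h + y + 1) ≤ J) →
    (∀ ω ω', B ω → B ω' → slam F a ω = slam F a ω' →
      |eval (bt F ω) (pderiv (some (c 1)) (NH (slam F a ω) 2)) -
        eval (bt F ω') (pderiv (some (c 1)) (NH (slam F a ω) 2))| ≤ 2 ^ (g 1 + y) / 2 ^ g 2) →
    ∃ (B' : F.Ω → Prop) (v : PtT F → Fin m → ℝ) (v' : LnT F → Fin m → ℝ), Sub B' B ∧
      Pe F.p B / 2 ^ C ≤ Pe F.p B' ∧ (∀ ω, B' ω → v (ptr F J ω) = v' (slam F a ω)) ∧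
      (∀ x, v x (c 1) = 1 ∧ v x (c 0) = 0 ∧ ∀ k, k ≠ c 1 → k ≠ c 2 → v x k = 0) ∧
      ∀ ω, B' ω → Shr F c 1 a g T v (C * (h + y + 1)) 2 ω ∧
        ∀ b, NBx c (T (ptr F J ω)) g a (F.t ω) 2 b →
          |eval b (pderiv (some (c 1)) (T (ptr F J ω) 2)) - v (ptr F J ω) (c 2)| ≤
            2 ^ (C * (h + y + 1) + g 1) / 2 ^ g 2 ∧
          |eval b (pderiv (some (c 1)) (TH (slam F a ω) 2)) - v (ptr F J ω) (c 2)| ≤
            2 ^ (C * (h + y + 1) + g 1) / 2 ^ g 2 ∧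
          |eval b (pderiv (some (c 1)) (NH (slam F a ω) 2)) - v (ptr F J ω) (c 2)| ≤
            2 ^ (C * (h + y + 1) + g 1) / 2 ^ g 2 := by
  classical
  obtain ⟨c₀, D₁, hD₁, hdil⟩ := nbx_dil 3 (fun _ => D)
  obtain ⟨C₁, hlab⟩ := lab_near D 3 hD
  obtain ⟨C₂, hcmp⟩ := slp_cmp D 3
  obtain ⟨C₃, hbox⟩ := box_dir D 3
  have pw : ∀ {x y : ℕ}, x ≤ y → (2 : ℝ) ^ x ≤ 2 ^ y := fun h => pow_le_pow_right₀ (by norm_num) h
  obtain ⟨Ct, hCt⟩ : ∃ Ct, Ct = C₂ * (C₁ + c₀ + (C₁ + 2) * D₁ + 4) + 2 * C₃ + c₀ + D₁ + 12 :=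
    ⟨_, rfl⟩
  refine ⟨Ct, ?_⟩
  intro m J F c a e E h y g gN Y κ B₀ B T N TH NH hc haJ hB hκ hP hP0 hL hR hN hg2 hgN hY hJ hV
  obtain ⟨n, hn⟩ : ∃ n, n = y + C₁ * (h + 1) + 1 := ⟨_, rfl⟩
  obtain ⟨k, hk⟩ : ∃ k, k = C₁ * (h + 1) + c₀ + n * D₁ + y + 2 := ⟨_, rfl⟩
  obtain ⟨E₁, hE₁⟩ : ∃ E₁, E₁ = C₃ * (h + 1) + C₂ * (k + 1) + y + 3 := ⟨_, rfl⟩
  obtain ⟨q1, q2, q3⟩ := sig_num c₀ D₁ C₁ C₂ C₃ h y n k E₁ Ct _ rfl hn hk hE₁ hCt
  have hc2 : Set.InjOn c (Set.Iio 2) := hc.mono (by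
    intro y hy
    rw [Set.mem_Iio] at hy ⊢
    omega)
  have hne : c 0 ≠ c 1 := fun h => by
    have := hc (show (0 : ℕ) ∈ Set.Iio 3 by simp) (show (1 : ℕ) ∈ Set.Iio 3 by simp) h
    omega
  have hne2 : c 2 ≠ c 1 := fun h => by
    have := hc (show (2 : ℕ) ∈ Set.Iio 3 by simp) (show (1 : ℕ) ∈ Set.Iio 3 by simp) h
    omega
  have hne3 : c 0 ≠ c 2 := fun h => by
    have := hc (show (0 : ℕ) ∈ Set.Iio 3 by simp) (show (2 : ℕ) ∈ Set.Iio 3 by simp) h
    omega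
  have hPB : 0 ≤ Pe F.p B := hP0.le
  have hPB0 : 0 ≤ κ * Pe F.p B₀ := mul_nonneg hκ (Pe_nonneg F.isLaw B₀)
  obtain ⟨nat, hnat⟩ : ∃ nat : ℝ, nat = 2 ^ g 1 / 2 ^ g 2 := ⟨_, rfl⟩
  have hnat0 : 0 < nat := by rw [hnat]; positivity
  -- the labels of `T` and of `N` are near
  obtain ⟨B₂, k1, k2, k3⟩ := hlab (κ := κ) (κ' := κ * 2 ^ Ct) le_rfl hc hR.relv hL.depG hB hP
    (mul_le_mul_of_nonneg_left (pw (by omega)) hκ) hN
  have hkk : ∀ ω, B₂ ω → ∀ b, NBx c (T (ptr F J ω)) g a (F.t ω) 2 b →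
      |eval b (N (ptr F J ω) 2) - eval b (NH (slam F a ω) 2)| ≤
        2 ^ (c₀ + n * D₁ + y) / 2 ^ g 2 := by
    intro ω hω b hb
    have h1 := hdil (c := c) (i := 2) (G := N (ptr F J ω))
      (Q := N (ptr F J ω) 2 - NH (slam F a ω) 2) (g := gN) (a := a) (t := F.t ω)
      (M := 1 / 2 ^ gN 2) n (by norm_num) hc2 (hN.degG _) (hN.depG _) (fun b b' hn hb => by
        rw [map_sub, map_sub, hN.depG _ 2 b b' hn hb, hN.depH _ 2 b b' hn hb])
      ((totalDegree_sub _ _).trans (max_le (hN.degG _ 2) (hN.degH _ 2))) (by positivity)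
      (fun b hb => by
        rw [map_sub]
        exact hN.agr ω (k1 ω hω) 2 (by norm_num) b hb) b hb.1 (fun l hl => by
        have h2 := hb.2 l hl
        have h3 := k3 ω hω l (by omega) b (hb.mono le_rfl hl.le)
        have h4 : (1 : ℝ) / 2 ^ g l ≤ 2 ^ y / 2 ^ gN l := inv_q (hgN l hl)
        have e1 : b (some (c l)) - eval b (N (ptr F J ω) l) =
            (b (some (c l)) - eval b (T (ptr F J ω) l)) +
              (eval b (T (ptr F J ω) l) - eval b (N (ptr F J ω) l)) := by ring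
        rw [e1]
        refine (abs_add_le _ _).trans ((add_le_add (h2.trans h4) h3).trans ?_)
        rw [← add_div]
        refine div_le_div_of_nonneg_right ?_ (by positivity)
        have g1 : (2 : ℝ) ^ y ≤ 2 ^ (y + C₁ * (h + 1)) := pw (by omega)
        have g2 : (2 : ℝ) ^ (C₁ * (h + 1)) ≤ 2 ^ (y + C₁ * (h + 1)) := pw (by omega)
        rw [hn, pow_succ]
        linarith)
    rw [map_sub] at h1
    refine h1.trans ?_
    rw [mul_one_div]
    exact div_q hg2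
  -- the labels `T`, `TH` and `NH` are near
  have tn : ∀ ω, B₂ ω → ∀ b, NBx c (T (ptr F J ω)) g a (F.t ω) 2 b →
      |eval b (T (ptr F J ω) 2) - eval b (N (ptr F J ω) 2)| ≤ 2 ^ (C₁ * (h + 1) + y) / 2 ^ g 2 :=
    fun ω hω b hb => (k3 ω hω 2 (by norm_num) b hb).trans (div_q hg2)
  have tnh : ∀ ω, B₂ ω → ∀ b, NBx c (T (ptr F J ω)) g a (F.t ω) 2 b →
      |eval b (T (ptr F J ω) 2) - eval b (NH (slam F a ω) 2)| ≤ 2 ^ k / 2 ^ g 2 := by
    intro ω hω b hb
    have h1 := tn ω hω b hb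
    have h2 := hkk ω hω b hb
    have h3 := abs_sub_le (eval b (T (ptr F J ω) 2)) (eval b (N (ptr F J ω) 2))
      (eval b (NH (slam F a ω) 2))
    refine h3.trans ((add_le_add h1 h2).trans ?_)
    rw [← add_div]
    refine div_le_div_of_nonneg_right ?_ (by positivity)
    obtain ⟨z, hz⟩ : ∃ z, k = z + 2 := ⟨k - 2, by omega⟩
    have g1 : (2 : ℝ) ^ (C₁ * (h + 1) + y) ≤ 2 ^ z := pw (by omega)
    have g2 : (2 : ℝ) ^ (c₀ + n * D₁ + y) ≤ 2 ^ z := pw (by omega)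
    have g3 : (0 : ℝ) < 2 ^ z := by positivity
    rw [hz, pow_add _ z 2]
    norm_num
    linarith
  obtain ⟨u, hu⟩ : ∃ u : ℝ, u = 2 ^ E₁ * nat := ⟨_, rfl⟩
  have hu0 : 0 < u := by rw [hu]; positivity
  have upu : ∀ {z : ℕ}, z ≤ E₁ → (2 : ℝ) ^ z * nat ≤ u := fun hz => by
    rw [hu]
    exact mul_le_mul_of_nonneg_right (pw hz) hnat0.le
  have ve1 : ek (c 1) (c 1) = 1 := ek_self _
  have ve0 : ∀ j < 1, ek (c 1) (c j) = 0 := fun j hj => by
    have : j = 0 := by omega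
    subst this
    exact ek_ne hne
  -- the derivatives
  have cmp : ∀ ω, B₂ ω → ∀ b, NBx c (T (ptr F J ω)) g a (F.t ω) 2 b →
      |eval b (pderiv (some (c 1)) (T (ptr F J ω) 2)) -
        eval b (pderiv (some (c 1)) (TH (slam F a ω) 2))| ≤ 2 ^ C₂ * nat ∧
      |eval b (pderiv (some (c 1)) (T (ptr F J ω) 2)) -
        eval b (pderiv (some (c 1)) (NH (slam F a ω) 2))| ≤ 2 ^ (C₂ * (k + 1)) * nat := by
    intro ω hω b hb
    have hω' := k1 ω hω
    constructor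
    · have h1 := hcmp (c := c) (l := 1) (i := 2) (a := a) (k := 0) (y := 0) (p := g 2) (g := g)
        (G := T) (v := fun _ => ek (c 1)) (P := T (ptr F J ω) 2 - TH (slam F a ω) 2) (ω := ω)
        (b := b) (by norm_num) hc2 hL.degG hL.depG (fun b b' hn hb => by
          rw [map_sub, map_sub, hL.depG _ 2 b b' hn hb, hL.depH _ 2 b b' hn hb])
        ((totalDegree_sub _ _).trans (max_le (hL.degG _ 2) (hL.degH _ 2))) ve1 ve0
        (fun j hj hlj => by omega) hb (fun b hb => by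
          rw [map_sub, pow_zero]
          exact hL.agr ω hω' 2 (by norm_num) b hb)
      rw [dir_ek, map_sub, map_sub, zero_add, mul_div_assoc, ← hnat, zero_add, mul_one] at h1
      exact h1
    · have h1 := hcmp (c := c) (l := 1) (i := 2) (a := a) (k := k) (y := 0) (p := g 2) (g := g)
        (G := T) (v := fun _ => ek (c 1)) (P := T (ptr F J ω) 2 - NH (slam F a ω) 2) (ω := ω)
        (b := b) (by norm_num) hc2 hL.degG hL.depG (fun b b' hn hb => by
          rw [map_sub, map_sub, hL.depG _ 2 b b' hn hb, hN.depH _ 2 b b' hn hb])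
        ((totalDegree_sub _ _).trans (max_le (hL.degG _ 2) (hN.degH _ 2))) ve1 ve0
        (fun j hj hlj => by omega) hb (fun b hb => by
          rw [map_sub]
          exact tnh ω hω b hb)
      rw [dir_ek, map_sub, map_sub, add_zero, mul_div_assoc, ← hnat] at h1
      exact h1
  -- the variation along the line
  obtain ⟨V, hVV⟩ : ∃ V : ℝ, V = 2 ^ (C₂ * (k + 1) + y + 3) * nat := ⟨_, rfl⟩
  have hV0 : 0 ≤ V := by rw [hVV]; positivity
  have hself : ∀ ω, B₂ ω → NBx c (T (ptr F J ω)) g a (F.t ω) 2 (bt F ω) := fun ω hω =>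
    hL.self (k1 ω hω) (by norm_num)
  have hC2k : C₂ ≤ C₂ * (k + 1) := Nat.le_mul_of_pos_right _ (Nat.succ_pos k)
  have hyn : (2 : ℝ) ^ (g 1 + y) / 2 ^ g 2 = 2 ^ y * nat := by
    rw [hnat, pow_add]
    ring
  have thn : ∀ ω, B₂ ω → |eval (bt F ω) (pderiv (some (c 1)) (TH (slam F a ω) 2)) -
      eval (bt F ω) (pderiv (some (c 1)) (NH (slam F a ω) 2))| ≤
        2 ^ (C₂ * (k + 1) + 1) * nat := by
    intro ω hω
    obtain ⟨h1, h2⟩ := cmp ω hω _ (hself ω hω)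
    rw [abs_sub_comm] at h1
    have h3 := abs_sub_le (eval (bt F ω) (pderiv (some (c 1)) (TH (slam F a ω) 2)))
      (eval (bt F ω) (pderiv (some (c 1)) (T (ptr F J ω) 2)))
      (eval (bt F ω) (pderiv (some (c 1)) (NH (slam F a ω) 2)))
    have h4 : (2 : ℝ) ^ C₂ * nat ≤ 2 ^ (C₂ * (k + 1)) * nat :=
      mul_le_mul_of_nonneg_right (pw hC2k) hnat0.le
    rw [pow_succ]
    linarith
  have hvar : ∀ ω ω', B₂ ω → B₂ ω' → slam F a ω = slam F a ω' →
      |eval (bt F ω) (pderiv (some (c 1)) (TH (slam F a ω) 2)) -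
        eval (bt F ω') (pderiv (some (c 1)) (TH (slam F a ω) 2))| ≤ V := by
    intro ω ω' hω hω' hs
    have h1 := thn ω hω
    have h2 := thn ω' hω'
    have h3 := hV ω ω' (k1 ω hω) (k1 ω' hω') hs
    rw [← hs, abs_sub_comm] at h2
    rw [hyn] at h3
    have h4 := abs_sub_le (eval (bt F ω) (pderiv (some (c 1)) (TH (slam F a ω) 2)))
      (eval (bt F ω) (pderiv (some (c 1)) (NH (slam F a ω) 2)))
      (eval (bt F ω') (pderiv (some (c 1)) (TH (slam F a ω) 2)))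
    have h5 := abs_sub_le (eval (bt F ω) (pderiv (some (c 1)) (NH (slam F a ω) 2)))
      (eval (bt F ω') (pderiv (some (c 1)) (NH (slam F a ω) 2)))
      (eval (bt F ω') (pderiv (some (c 1)) (TH (slam F a ω) 2)))
    have h6 : (2 : ℝ) ^ (C₂ * (k + 1) + 1) * nat ≤ 2 ^ (C₂ * (k + 1) + y + 1) * nat :=
      mul_le_mul_of_nonneg_right (pw (by omega)) hnat0.le
    have h7 : (2 : ℝ) ^ y * nat ≤ 2 ^ (C₂ * (k + 1) + y + 1) * nat :=
      mul_le_mul_of_nonneg_right (pw (by omega)) hnat0.le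
    have h8 : V = 4 * (2 ^ (C₂ * (k + 1) + y + 1) * nat) := by
      rw [hVV, pow_add _ (C₂ * (k + 1) + y) 3, pow_add _ (C₂ * (k + 1) + y) 1]
      ring
    have h9 : 0 ≤ (2 : ℝ) ^ (C₂ * (k + 1) + y + 1) * nat := by positivity
    linarith
  -- the derivative on the natural box
  obtain ⟨B₃, x, l1, l2, l3⟩ := hbox (c := c) (l := 1) (i := 2) (a := a) (w := a) (e := e) (h := h)
    (σ := h + C₃) (y := 0) (g := g) (Y := Y) (κ := κ) (V := V) (B₀ := B₀) (B' := B₂) (G := T)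
    (H := TH) (v := fun _ => ek (c 1)) (v' := fun _ => ek (c 1)) (by norm_num) (by norm_num) hc
    (hR.low (by norm_num) hc hL.depG) (fun ω hω => hB ω (k1 ω hω)) hκ (by
      have h1 : κ * Pe F.p B₀ * 2 ^ 3 ≤ Pe F.p B := by
        calc κ * Pe F.p B₀ * 2 ^ 3 ≤ κ * Pe F.p B₀ * 2 ^ Ct :=
              mul_le_mul_of_nonneg_left (pw (by omega)) hPB0
          _ = κ * 2 ^ Ct * Pe F.p B₀ := by ring
          _ ≤ _ := hP
      refine le_trans ?_ k2
      rw [le_div_iff₀ (by positivity)]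
      exact h1) (hL.sub k1) hV0 (fun ω ω' hω hω' hs => by
      simp only [dir_ek]
      exact hvar ω ω' hω hω' hs) (fun j hj => hY j (by omega)) (fun j hj => by
      have := hJ j hj
      omega) le_rfl (fun _ _ => rfl) (fun _ _ => ⟨ve1, ve0⟩) (fun ω _ j hj hlj => by omega)
  have hEV : 2 ^ (C₃ * (h + 0 + 1)) * (2 ^ g 1 / 2 ^ g 2 + V) ≤ 2 * u := by
    rw [← hnat, add_zero]
    have h1 : nat ≤ V := by
      rw [hVV]
      exact le_mul_of_one_le_left hnat0.le (one_le_pow₀ (by norm_num))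
    calc (2 : ℝ) ^ (C₃ * (h + 1)) * (nat + V) ≤ 2 ^ (C₃ * (h + 1)) * (2 * V) :=
          mul_le_mul_of_nonneg_left (by linarith) (by positivity)
      _ = 2 * (2 ^ (C₃ * (h + 1) + (C₂ * (k + 1) + y + 3)) * nat) := by
          rw [hVV, pow_add _ (C₃ * (h + 1))]
          ring
      _ ≤ 2 * u := by
          have := upu (z := C₃ * (h + 1) + (C₂ * (k + 1) + y + 3)) (by omega)
          linarith
  -- the closed value
  obtain ⟨be, hbe⟩ : ∃ be : LnT F → ℝ, be = fun s =>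
      if h : ∃ ω, B₃ ω ∧ slam F a ω = s then
        eval (bt F h.choose) (pderiv (some (c 1)) (NH s 2)) else 0 := ⟨_, rfl⟩
  have hbeta : ∀ ω, B₃ ω → |eval (bt F ω) (pderiv (some (c 1)) (NH (slam F a ω) 2)) -
      be (slam F a ω)| ≤ u := by
    intro ω hω
    have hex : ∃ ω', B₃ ω' ∧ slam F a ω' = slam F a ω := ⟨ω, hω, rfl⟩
    have h1 := hex.choose_spec
    have h2 := hV ω hex.choose (k1 ω (l1 ω hω)) (k1 _ (l1 _ h1.1)) h1.2.symm
    rw [hyn] at h2
    rw [hbe]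
    show |_ - (if h : ∃ ω', B₃ ω' ∧ slam F a ω' = slam F a ω then
      eval (bt F h.choose) (pderiv (some (c 1)) (NH (slam F a ω) 2)) else 0)| ≤ _
    rw [dif_pos hex]
    exact h2.trans (upu (by omega))
  have htx : ∀ ω, B₃ ω → ∀ b, NBx c (T (ptr F J ω)) g a (F.t ω) 2 b →
      |eval b (pderiv (some (c 1)) (T (ptr F J ω) 2)) - x (ptr F J ω)| ≤ 2 * u := by
    intro ω hω b hb
    have h1 := l3 ω hω b hb
    simp only [dir_ek] at h1
    exact h1.trans hEV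
  obtain ⟨B₄, r, r', m1, m2, m3, m4⟩ := rnd_two (F := F) (w := a) (B := B₃) (f := x) (f' := be)
    (A := 4 * u) (by linarith) (fun ω hω => by
      have h1 := htx ω hω _ (hself ω (l1 ω hω))
      obtain ⟨-, h2⟩ := cmp ω (l1 ω hω) _ (hself ω (l1 ω hω))
      have h3 := hbeta ω hω
      have h4 := h2.trans (upu (by omega))
      rw [abs_sub_comm] at h1
      have h5 := abs_sub_le (x (ptr F J ω))
        (eval (bt F ω) (pderiv (some (c 1)) (T (ptr F J ω) 2))) (be (slam F a ω))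
      have h6 := abs_sub_le (eval (bt F ω) (pderiv (some (c 1)) (T (ptr F J ω) 2)))
        (eval (bt F ω) (pderiv (some (c 1)) (NH (slam F a ω) 2))) (be (slam F a ω))
      linarith)
  have hv2 : ∀ z : ℝ, Function.update (ek (c 1)) (c 2) z (c 2) = z := fun z =>
    Function.update_self _ _ _
  have hv1 : ∀ z : ℝ, ∀ k, k ≠ c 2 → Function.update (ek (c 1)) (c 2) z k = ek (c 1) k :=
    fun z k hk => Function.update_of_ne hk _ _
  -- the three bounds
  have b1 : ∀ ω, B₄ ω → ∀ b, NBx c (T (ptr F J ω)) g a (F.t ω) 2 b →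
      |eval b (pderiv (some (c 1)) (T (ptr F J ω) 2)) - r (ptr F J ω)| ≤ 18 * u := by
    intro ω hω b hb
    have h1 := htx ω (m1 ω hω) b hb
    have h2 := m4 (ptr F J ω)
    rw [abs_sub_comm] at h2
    have h3 := abs_sub_le (eval b (pderiv (some (c 1)) (T (ptr F J ω) 2))) (x (ptr F J ω))
      (r (ptr F J ω))
    linarith
  have hu5 : ∀ {z : ℝ}, z ≤ 19 * u → z ≤ 2 ^ (Ct * (h + y + 1) + g 1) / 2 ^ g 2 := by
    intro z hz
    refine hz.trans ?_
    rw [hu, hnat]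
    have h1 : (19 : ℝ) ≤ 2 ^ 5 := by norm_num
    calc 19 * ((2 : ℝ) ^ E₁ * (2 ^ g 1 / 2 ^ g 2)) ≤ 2 ^ 5 * ((2 : ℝ) ^ E₁ * (2 ^ g 1 / 2 ^ g 2)) :=
          mul_le_mul_of_nonneg_right h1 (by positivity)
      _ = 2 ^ (5 + E₁ + g 1) / 2 ^ g 2 := by
          rw [pow_add, pow_add]
          ring
      _ ≤ _ := div_le_div_of_nonneg_right (pw (by omega)) (by positivity)
  refine ⟨B₄, fun p => Function.update (ek (c 1)) (c 2) (r p),
    fun s => Function.update (ek (c 1)) (c 2) (r' s), fun ω hω => k1 ω (l1 ω (m1 ω hω)), ?_,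
    fun ω hω => ?_, fun p => ⟨?_, ?_, fun k hk1 hk2 => ?_⟩, fun ω hω => ⟨?_, fun b hb => ?_⟩⟩
  · have h1 : Pe F.p B / 2 ^ Ct ≤ Pe F.p B / 2 ^ 5 :=
      div_le_div_of_nonneg_left hPB (by positivity) (pw q3)
    have h2 : Pe F.p B / 2 ^ 5 = Pe F.p B / 2 ^ 3 / 2 / 2 := by ring
    rw [h2] at h1
    linarith
  · show Function.update (ek (c 1)) (c 2) (r (ptr F J ω)) =
      Function.update (ek (c 1)) (c 2) (r' (slam F a ω))
    rw [m3 ω hω]
  · show Function.update (ek (c 1)) (c 2) (r p) (c 1) = 1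
    rw [hv1 _ _ hne2.symm]
    exact ve1
  · show Function.update (ek (c 1)) (c 2) (r p) (c 0) = 0
    rw [hv1 _ _ hne3]
    exact ve0 0 (by norm_num)
  · show Function.update (ek (c 1)) (c 2) (r p) k = 0
    rw [hv1 _ _ hk2]
    exact ek_ne hk1
  · -- the shear
    intro b hb s hs
    show |eval (mvp (Function.update (ek (c 1)) (c 2) (r (ptr F J ω))) s b) (T (ptr F J ω) 2) -
      eval b (T (ptr F J ω) 2) -
        s * Function.update (ek (c 1)) (c 2) (r (ptr F J ω)) (c 2)| ≤ _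
    rw [hv2]
    have e1 : eval (mvp (Function.update (ek (c 1)) (c 2) (r (ptr F J ω))) s b)
        (T (ptr F J ω) 2) = eval (mvp (ek (c 1)) s b) (T (ptr F J ω) 2) :=
      hL.depG (ptr F J ω) 2 _ _ (by rw [mvp_none, mvp_none]) fun k hk => by
        rw [mvp_some, mvp_some, hv1]
        intro h
        have := hc (show k ∈ Set.Iio 3 by rw [Set.mem_Iio]; omega)
          (show (2 : ℕ) ∈ Set.Iio 3 by simp) h
        omega
    rw [e1]
    have h5 := meanv (ek (c 1)) b (T (ptr F J ω) 2) (x := r (ptr F J ω))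
      (Y := 2 ^ (c₀ + 1 * D₁) * (18 * u)) (s := s) (fun s' hs' => by
        have hs1 : |s'| ≤ 1 / 2 ^ g 1 := hs'.trans hs
        have h6 := hdil (c := c) (i := 2) (G := T (ptr F J ω))
          (Q := dir (ek (c 1)) (T (ptr F J ω) 2) - C (r (ptr F J ω))) (g := g) (a := a)
          (t := F.t ω) (M := 18 * u) 1 (by norm_num) hc2 (hL.degG _) (hL.depG _)
          (fun b b' hn hb => by
            rw [map_sub, map_sub, eval_C, eval_C, dir_dep _ (hL.depG _ 2) b b' hn hb])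
          ((totalDegree_sub _ _).trans (max_le (dir_deg _ (hL.degG _ 2)) (by
            rw [totalDegree_C]; exact Nat.zero_le _))) (by linarith)
          (fun b hb => by
            rw [map_sub, eval_C, dir_ek]
            exact b1 ω hω b hb) (mvp (ek (c 1)) s' b) (by rw [mvp_none]; exact hb.1)
          (fun l hl => by
            rcases Nat.lt_or_ge l 1 with h7 | h7
            · have : l = 0 := by omega
              subst this
              have e3 : eval (mvp (ek (c 1)) s' b) (T (ptr F J ω) 0) =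
                  eval b (T (ptr F J ω) 0) :=
                hL.depG _ 0 _ _ (mvp_none _ _ _) fun k hk => absurd hk (Nat.not_lt_zero k)
              rw [e3, mvp_some, ve0 0 (by norm_num), mul_zero, add_zero]
              refine (hb.2 0 (by norm_num)).trans (div_le_div_of_nonneg_right (by norm_num)
                (by positivity))
            · have : l = 1 := by omega
              subst this
              have e3 : eval (mvp (ek (c 1)) s' b) (T (ptr F J ω) 1) =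
                  eval b (T (ptr F J ω) 1) :=
                hL.depG _ 1 _ _ (mvp_none _ _ _) fun k hk => by
                  rw [mvp_some, ve0 k hk, mul_zero, add_zero]
              rw [e3, mvp_some, ve1, mul_one]
              have e4 : b (some (c 1)) + s' - eval b (T (ptr F J ω) 1) =
                  (b (some (c 1)) - eval b (T (ptr F J ω) 1)) + s' := by ring
              rw [e4]
              refine (abs_add_le _ _).trans ((add_le_add (hb.2 1 (by norm_num)) hs1).trans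
                (le_of_eq ?_))
              ring)
        rw [map_sub, eval_C] at h6
        exact h6)
    have e2 : s * r (ptr F J ω) = r (ptr F J ω) * s := mul_comm _ _
    rw [e2]
    refine h5.trans ?_
    have h7 : (18 : ℝ) ≤ 2 ^ 5 := by norm_num
    calc (2 : ℝ) ^ (c₀ + 1 * D₁) * (18 * u) * |s|
        ≤ 2 ^ (c₀ + 1 * D₁) * (2 ^ 5 * u) * (1 / 2 ^ g 1) := by
          refine mul_le_mul ?_ hs (abs_nonneg _) (by positivity)
          refine mul_le_mul_of_nonneg_left ?_ (by positivity)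
          exact mul_le_mul_of_nonneg_right h7 hu0.le
      _ = 2 ^ (c₀ + 1 * D₁ + 5 + E₁) / 2 ^ g 2 := by
          rw [hu, hnat, pow_add _ (c₀ + 1 * D₁ + 5), pow_add _ (c₀ + 1 * D₁)]
          field_simp
      _ ≤ _ := div_le_div_of_nonneg_right (pw (by omega)) (by positivity)
  · show |eval b (pderiv (some (c 1)) (T (ptr F J ω) 2)) -
        Function.update (ek (c 1)) (c 2) (r (ptr F J ω)) (c 2)| ≤ _ ∧
      |eval b (pderiv (some (c 1)) (TH (slam F a ω) 2)) -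
        Function.update (ek (c 1)) (c 2) (r (ptr F J ω)) (c 2)| ≤ _ ∧
      |eval b (pderiv (some (c 1)) (NH (slam F a ω) 2)) -
        Function.update (ek (c 1)) (c 2) (r (ptr F J ω)) (c 2)| ≤ _
    rw [hv2]
    have h1 := b1 ω hω b hb
    obtain ⟨h2, h3⟩ := cmp ω (l1 ω (m1 ω hω)) b hb
    have h2' := h2.trans (upu (by omega))
    have h3' := h3.trans (upu (by omega))
    rw [abs_sub_comm] at h2' h3'
    refine ⟨hu5 (by linarith), hu5 ?_, hu5 ?_⟩
    · have h4 := abs_sub_le (eval b (pderiv (some (c 1)) (TH (slam F a ω) 2)))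
        (eval b (pderiv (some (c 1)) (T (ptr F J ω) 2))) (r (ptr F J ω))
      linarith
    · have h4 := abs_sub_le (eval b (pderiv (some (c 1)) (NH (slam F a ω) 2)))
        (eval b (pderiv (some (c 1)) (T (ptr F J ω) 2))) (r (ptr F J ω))
      linarith

end Pool.NVX
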