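import Pool.Agent.H80.NV.Nvb
import Pool.Agent.H39.NV.ClsB0
import Pool.Agent.H39.NV.Sig
import Pool.Agent.H87.GEN.Stg

/-!
# The bad event is small, for the derivative of the label of `c 3` in the direction `c 2`

`NvB`: the statement of the family theorem for `c 0, c 1, c 2; c 3`, `c 1` static. `no_bad_b`: there
is no event on which the derivative of the closed derivative is large, if on all its large parts
there are nodes for `c 0, c 1, c 2` near the node of the family.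
-/

set_option autoImplicit false

namespace Pool.NVX

open Finset Real MvPolynomial
open Pool.Agent.H49.Ent Pool.Agent.H32.Dense Pool.STK Pool.KA Pool.KSAT Pool.K2S Pool.PB Pool.S6C
open Pool.GEN Pool.CHT
open Pool.SHR (dir dir_eq mvp RelvH Shr ShrY NVG shrY_iff relvF_low)
open Pool.PB.Trl (rt rt_mem t_rt)
open Pool.FLF (Fam.sub)
open Pool.ISO (cwn cwn_slam chOK_win)
open Pool.D2R (dd hs)

variable {m J : ℕ}

/-- **The statement of the family theorem** for `c 0, c 1, c 2; c 3`, `c 1` static. -/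
def NvB (m D : ℕ) : Prop := ∃ (C : ℕ) (C₁ : ℝ), 1 ≤ C₁ ∧
    ∀ {J : ℕ} {F : Fam m J} {c : ℕ → Fin m} {a w w₂ a₂ a₃ e E h s lam₁ lam₂ D₂ : ℕ}
    {gN g g₂ g₃ g₄ Y : ℕ → ℕ} {κ θ : ℝ} {B₀ B : F.Ω → Prop}
    {N T T₂ T₃ T₄ : PtT F → ℕ → MvPolynomial (Option (Fin m)) ℝ}
    {NH TH T₂H T₃H T₄H : LnT F → ℕ → MvPolynomial (Option (Fin m)) ℝ}
    {v : PtT F → Fin m → ℝ} {v' : LnT F → Fin m → ℝ},
    Set.InjOn c (Set.Iio 4) → w ≤ w₂ → w₂ ≤ a → a ≤ a₂ → a₂ ≤ a₃ → a₃ + 1 ≤ J →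
    0 < Pe F.p B → Sub B B₀ → ChOK F c 4 (fun _ => D) a w E gN B N NH →
    ChOK F c 3 (fun _ => D) a a e g B₀ T TH → RelvH F c 3 a a g Y D h κ B₀ T →
    ChOK F c 3 (fun _ => D) a₂ a₂ e g₂ B₀ T₂ T₂H → RelvF F c 3 a₂ a₂ g₂ D h κ B₀ T₂ →
    ChOK F c 2 (fun _ => D) a₃ a₃ e g₃ B₀ T₃ T₃H →
    ChOK F c 3 (fun _ => D) a w₂ e g₄ B₀ T₄ T₄H → RelvF F c 3 a w₂ g₄ D₂ h κ B₀ T₄ →
    D + 2 ≤ D₂ → 0 ≤ κ → κ * 2 ^ C * Pe F.p B₀ ≤ Pe F.p B → κ * 2 ^ C ≤ 1 →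
    (∀ (B' : F.Ω → Prop) (hB' : 0 < Pe F.p B'), Sub B' B → Pe F.p B ≤ 2 ^ C * Pe F.p B' →
      (Fam.sub F B' hB').Tm θ) → 0 ≤ θ → C₁ * (θ + 1) ≤ ((J : ℝ) - a₃) * Real.log 2 →
    C₁ * (θ + 1) ≤ s → h ≤ s → (∀ l < 3, gN l ≤ g l + s) →
    (∀ j < 3, Y j ≤ J) → (∀ l < 4, e + E + gN l + C * (s + 1) ≤ J) →
    (∀ l < 3, e + E + g l + C * (s + 1) ≤ J) → (∀ l < 3, e + g₂ l + C * (s + 1) ≤ J) →
    (∀ l < 2, e + g₃ l + C * (s + 1) ≤ J) → (∀ l < 3, e + g₄ l + C * (s + 1) ≤ J) →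
    C * (s + 1) ≤ gN 3 → (∀ ω, B ω → v (ptr F J ω) = v' (slam F a ω)) →
    (∀ ω, B ω → v (ptr F J ω) (c 0) = 0 ∧ v (ptr F J ω) (c 1) = 1) →
    (∀ ω, B ω → ShrY F c a (g 1) g T v s 2 ω) →
    (∀ ω, B ω → ∀ t : ℝ, F.t ω - rt F w ω / 2 ^ w ≤ t → t ≤ F.t ω + (1 - rt F w ω) / 2 ^ w →
      |(hcl (c 2) (NH (slam F w ω) 3) (slam F w ω)).eval t| ≤ 2 ^ (a + lam₂) / 2 ^ gN 3) →
    (∀ ω, B ω → ∃ t : ℝ, F.t ω - rt F w ω / 2 ^ w ≤ t ∧ t ≤ F.t ω + (1 - rt F w ω) / 2 ^ w ∧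
      2 ^ (a + lam₂) / 2 ^ gN 3 / 2 ^ s ≤
        |(hcl (c 2) (NH (slam F w ω) 3) (slam F w ω)).eval t|) →
    (∀ ω, B ω → ∀ t : ℝ, F.t ω - rt F a ω / 2 ^ a ≤ t → t ≤ F.t ω + (1 - rt F a ω) / 2 ^ a →
      |(hcl (c 1) (NH (slam F w ω) 3) (slam F w ω)).eval t +
        v (ptr F J ω) (c 2) * (hcl (c 2) (NH (slam F w ω) 3) (slam F w ω)).eval t| ≤
        2 ^ (a + lam₁) / 2 ^ gN 3) →
    (lam₂ + g 1 < lam₁ + g₄ 2 + C * (s + 1) → ∀ ω, B ω → ∃ t : ℝ,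
      F.t ω - rt F a ω / 2 ^ a ≤ t ∧ t ≤ F.t ω + (1 - rt F a ω) / 2 ^ a ∧
      2 ^ (a + lam₁) / 2 ^ gN 3 / 2 ^ s ≤
        |(hcl (c 1) (NH (slam F w ω) 3) (slam F w ω)).eval t +
        v (ptr F J ω) (c 2) * (hcl (c 2) (NH (slam F w ω) 3) (slam F w ω)).eval t|) →
    g₄ 2 + C * (s + 1) ≤ lam₂ → g₄ 2 + C * (s + 1) ≤ g 2 →
    g 1 + a₃ + C * (s + 1) ≤ g₃ 1 + a → g₂ 1 + a₃ + C * (s + 1) ≤ g₃ 1 + a →
    g 2 + a₂ + C * (s + 1) ≤ g₂ 2 + a → w + C * (s + 1) ≤ w₂ →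
    g 0 ≤ g₄ 0 + s → g 1 ≤ g₄ 1 + s → g₄ 1 ≤ g 1 + s → False

theorem nvB_of (m D : ℕ) (hD : 1 ≤ D) : NvB m D := nv_b m D hD

/-- The derivative of a label of `c 3` in a direction with `v (c 0) = 0`, `v (c 1) = 1`. -/
theorem dir_one3 {c : ℕ → Fin m} (hc : Set.InjOn c (Set.Iio 3)) {v : Fin m → ℝ}
    {P : MvPolynomial (Option (Fin m)) ℝ} (hP : DepC c 3 P) (h0 : v (c 0) = 0) (h1 : v (c 1) = 1)
    (b : Option (Fin m) → ℝ) : eval b (dir v P) =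
      eval b (pderiv (some (c 1)) P) + v (c 2) * eval b (pderiv (some (c 2)) P) := by
  rw [dir_eq hc v hP b, Finset.sum_range_succ, Finset.sum_range_succ, Finset.sum_range_one, h0, h1]
  ring

/-- The derivative of a label of `c 3` in a direction with `v (c 0) = 0`, `v (c 1) = 0`,
`v (c 2) = 1`. -/
theorem dir_two3 {c : ℕ → Fin m} (hc : Set.InjOn c (Set.Iio 3)) {v : Fin m → ℝ}
    {P : MvPolynomial (Option (Fin m)) ℝ} (hP : DepC c 3 P) (h2 : v (c 2) = 1)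
    (h0 : ∀ j < 2, v (c j) = 0) (b : Option (Fin m) → ℝ) :
    eval b (dir v P) = eval b (pderiv (some (c 2)) P) := by
  rw [dir_eq hc v hP b, Finset.sum_range_succ, Finset.sum_range_succ, Finset.sum_range_one,
    h0 0 (by norm_num), h0 1 (by norm_num), h2]
  ring

/-- **There is no bad event**, for `c 2; c 3`. -/
theorem no_bad_b {m D : ℕ} (hD1 : 1 ≤ D) (h2 : NvB m D) : ∃ (C : ℕ) (C₁ : ℝ), 1 ≤ C₁ ∧
    ∀ {J : ℕ} {F : Fam m J} {c : ℕ → Fin m} {a w w₂ a₂ a₃ e E h s s' S Q N D₂ Y₁ y₁ V₁ : ℕ}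
    {gN g g₂ g₃ g₄ Y : ℕ → ℕ} {κ θ : ℝ} {A : F.Ω → Prop}
    {G : PtT F → ℕ → MvPolynomial (Option (Fin m)) ℝ}
    {H : LnT F → ℕ → MvPolynomial (Option (Fin m)) ℝ}, 0 < Pe F.p A →
    Set.InjOn c (Set.Iio 4) → w ≤ w₂ → w₂ ≤ a → a ≤ a₂ → a₂ ≤ a₃ → a₃ + 1 ≤ J →
    ChOK F c 4 (fun _ => D) a w E gN A G H →
    (∀ ω, A ω → 2 ^ Q / 2 ^ gN 3 <
      wmx w (slam F w ω).2.2 (hcl (c 2) (H (slam F w ω) 3) (slam F w ω))) →
    (∀ (B' : F.Ω → Prop) (hB' : 0 < Pe F.p B'), Sub B' A → Pe F.p A ≤ 2 * Pe F.p B' →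
      (Fam.sub F B' hB').Tm θ) →
    (∀ A' : F.Ω → Prop, Sub A' A → Pe F.p A ≤ 4 * (N + 1) * Pe F.p A' →
      ∃ B : F.Ω → Prop, Sub B A' ∧ 0 < Pe F.p B ∧
      (∀ (B' : F.Ω → Prop) (hB' : 0 < Pe F.p B'), Sub B' B →
        Pe F.p B ≤ 2 ^ C * (N + 1) * Pe F.p B' → (Fam.sub F B' hB').Tm θ) ∧
      ∃ (T T₂ T₃ T₄ : PtT F → ℕ → MvPolynomial (Option (Fin m)) ℝ)
        (TH T₂H T₃H T₄H : LnT F → ℕ → MvPolynomial (Option (Fin m)) ℝ),
        ChOK F c 3 (fun _ => D) a a e g B T TH ∧ RelvH F c 3 a a g Y D h κ B T ∧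
        NVG F c 1 2 a a a g Y₁ y₁ V₁ κ B T TH ∧
        ChOK F c 3 (fun _ => D) a₂ a₂ e g₂ B T₂ T₂H ∧ RelvF F c 3 a₂ a₂ g₂ D h κ B T₂ ∧
        ChOK F c 2 (fun _ => D) a₃ a₃ e g₃ B T₃ T₃H ∧
        ChOK F c 3 (fun _ => D) a w₂ e g₄ B T₄ T₄H ∧ RelvF F c 3 a w₂ g₄ D₂ h κ B T₄) →
    D + 2 ≤ D₂ → 0 ≤ κ → κ * 2 ^ C * (N + 1) ≤ 1 → 0 ≤ θ →
    C₁ * (θ + 1) ≤ ((J : ℝ) - a₃) * Real.log 2 →
    C₁ * (θ + 1) ≤ s → h ≤ s' → C * (s' + 1) ≤ s → V₁ ≤ g 1 + s' → (∀ l < 3, gN l ≤ g l + s) →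
    (∀ j < 3, Y j ≤ J) → (∀ l < 4, e + E + gN l + C * (s + 1) ≤ J) →
    (∀ l < 3, e + E + g l + C * (s + 1) ≤ J) → (∀ l < 3, e + g₂ l + C * (s + 1) ≤ J) →
    (∀ l < 2, e + g₃ l + C * (s + 1) ≤ J) → (∀ l < 3, e + g₄ l + C * (s + 1) ≤ J) →
    C * (s + 1) ≤ gN 3 → (∀ l < 3, gN l ≤ S) →
    C * (s + 1) + a + e + E + g 1 + S + gN 3 ≤ N * s →
    a + g₄ 2 + C * (s + 1) ≤ Q → g₄ 2 + C * (s + 1) ≤ g 2 →
    g 1 + a₃ + C * (s + 1) ≤ g₃ 1 + a → g₂ 1 + a₃ + C * (s + 1) ≤ g₃ 1 + a →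
    g 2 + a₂ + C * (s + 1) ≤ g₂ 2 + a → w + C * (s + 1) ≤ w₂ →
    g 0 ≤ g₄ 0 + s → g 1 ≤ g₄ 1 + s → g₄ 1 ≤ g 1 + s → False := by
  obtain ⟨Cb, Cb₁, hCb₁, hnv⟩ := h2
  obtain ⟨Cc, Cc₁, hCc₁, hcrd⟩ := crd m D
  obtain ⟨Cv, hval⟩ := val_up D 4
  obtain ⟨Cs, hsig⟩ := sig_ex D hD1
  have pw : ∀ {x y : ℕ}, x ≤ y → (2 : ℝ) ^ x ≤ 2 ^ y := fun h => pow_le_pow_right₀ (by norm_num) h
  obtain ⟨C, hC⟩ : ∃ C, C = Cb + Cc + Cv + 2 * Cs + 6 := ⟨_, rfl⟩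
  refine ⟨C, Cb₁ + Cc₁, by linarith, ?_⟩
  intro J F c a w w₂ a₂ a₃ e E h s s' S Q N D₂ Y₁ y₁ V₁ gN g g₂ g₃ g₄ Y κ θ A G H hA hc hw hw2 ha2
    ha3 ha3J hL hbad hTm hown hDD hκ0 hκ1 hθ hθJ hθs hhs hss hV₁ hgx hYJ hrN hrg hr2 hr3 hr4 hgN3 hS
    hN n1 n2 n3 n4 n5 n6 n7 n8 n9
  have hc3 : Set.InjOn c (Set.Iio 3) := hc.mono (Set.Iio_subset_Iio (by norm_num))
  have hc2 : Set.InjOn c (Set.Iio 2) := hc.mono (Set.Iio_subset_Iio (by norm_num))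
  have haJ : a ≤ J := by omega
  have hwJ : w ≤ J := by omega
  have hwa : w ≤ a := by omega
  have hln : 0 < Real.log 2 := Real.log_pos (by norm_num)
  have hθ1 : 0 < θ + 1 := by linarith
  have hm1 : Cb₁ * (θ + 1) ≤ (Cb₁ + Cc₁) * (θ + 1) :=
    mul_le_mul_of_nonneg_right (by linarith) hθ1.le
  have hm2 : Cc₁ * (θ + 1) ≤ (Cb₁ + Cc₁) * (θ + 1) :=
    mul_le_mul_of_nonneg_right (by linarith) hθ1.le
  have hJw : ((J : ℝ) - a₃) * Real.log 2 ≤ ((J : ℝ) - w) * Real.log 2 := by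
    refine mul_le_mul_of_nonneg_right ?_ hln.le
    have : (w : ℝ) ≤ a₃ := by exact_mod_cast (by omega : w ≤ a₃)
    linarith
  have hJa : ((J : ℝ) - a₃) * Real.log 2 ≤ ((J : ℝ) - a) * Real.log 2 := by
    refine mul_le_mul_of_nonneg_right ?_ hln.le
    have : (a : ℝ) ≤ a₃ := by exact_mod_cast (by omega : a ≤ a₃)
    linarith
  have hCs1 : C * (s + 1) = C * s + C := by ring
  have hCs2 : Cb * (s + 1) ≤ C * (s + 1) := Nat.mul_le_mul_right _ (by omega)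
  have hCs3 : Cs * (s + 1) ≤ C * (s + 1) := Nat.mul_le_mul_right _ (by omega)
  have hCs4 : C * s = Cb * s + Cc * s + Cv * s + 2 * (Cs * s) + 6 * s := by rw [hC]; ring
  have hCs5 : C * (s' + 1) = Cb * (s' + 1) + Cc * (s' + 1) + Cv * (s' + 1) +
      2 * (Cs * (s' + 1)) + 6 * (s' + 1) := by rw [hC]; ring
  have hN1 : (1 : ℝ) ≤ N + 1 := by
    have : (0 : ℝ) ≤ N := Nat.cast_nonneg N
    linarith
  -- the derivative in the direction `c 2`: the crude bound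
  have hval2 : ∀ ω, A ω → |eval (bt F ω) (pderiv (some (c 2)) (H (slam F w ω) 3))| ≤
      2 ^ (Cv + E + 0 + S) := by
    intro ω hω
    have h0 : ∀ j < 2, ek (c 2) (c j) = 0 := fun j hj => by
      refine ek_ne fun he => ?_
      have := hc3 (show j < 3 by omega) (show 2 < 3 by norm_num) he
      omega
    have h1 := hval (v := ek (c 2)) (X := 0) (l := 2) (i := 3) (by norm_num) (by norm_num) hc3 hL
      hω hS (ek_self _) h0 (fun j hj hlj => by omega)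
    rwa [dir_two3 hc3 (hL.depH _ 3) (ek_self _) h0] at h1
  obtain ⟨A₁, k1, k2, k3⟩ := hcrd (w := w) (s := s) (A := A) (M := 2 ^ (Cv + E + 0 + S)) (θ := θ)
    (fun s' => gcl (c 2) (H s' 3) s') hA hwJ (fun s' => gcl_deg _ (hL.degH _ _) _) hTm hθ
    ((hm2.trans hθJ).trans hJw) (hm2.trans hθs) (by positivity) (fun ω hω => by
      rw [gcl_self]
      exact hval2 ω hω)
  -- the classes of the derivative in the direction `c 2`
  have hA₁ : 0 < Pe F.p A₁ := by linarith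
  obtain ⟨k, hk, A₂, k4, k5, k6, k7⟩ := dyc F.isLaw (A := A₁) (Q := Q) (s := s) (N := N)
    (G := gN 3) (f := fun ω => wmx w (slam F w ω).2.2 (hcl (c 2) (H (slam F w ω) 3)
      (slam F w ω))) (fun ω hω => by
      refine (k3 ω hω).trans ?_
      rw [le_div_iff₀ (by positivity), ← pow_add, ← pow_add]
      exact pw (by
        have e1 : C * s + C = C * (s + 1) := by ring
        omega))
  have hPA₁ : Pe F.p A ≤ 4 * Pe F.p A₁ := by linarith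
  obtain ⟨B₀, b1, b2, b3, T, T₂, T₃, T₄, TH, T₂H, T₃H, T₄H, hT, hRH, hNV, hT2, hR2, hT3, hT4,
    hR4⟩ := hown A₂ (fun ω hω => k1 ω (k4 ω hω)) (by
      calc Pe F.p A ≤ 4 * Pe F.p A₁ := hPA₁
        _ ≤ 4 * ((N + 1) * Pe F.p A₂) := mul_le_mul_of_nonneg_left k5 (by norm_num)
        _ = _ := by ring)
  have hB₀A : Sub B₀ A := fun ω hω => k1 ω (k4 ω (b1 ω hω))
  have hkpos : 0 < k := by
    by_contra hcon
    have hk0 : k = 0 := by omega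
    subst hk0
    obtain ⟨ω, hω⟩ : ∃ ω, B₀ ω := by
      by_contra hcon'
      push Not at hcon'
      have h1 : Pe F.p B₀ = 0 := by
        unfold Pe
        exact Finset.sum_eq_zero fun ω _ => by simp [hcon' ω]
      linarith
    have h1 := hbad ω (hB₀A ω hω)
    have h3 := k6 ω (b1 ω hω)
    rw [Nat.zero_mul, Nat.add_zero] at h3
    linarith
  -- the shares
  have hκB : κ * 2 ^ C * Pe F.p B₀ ≤ Pe F.p B₀ := by
    have h3 : κ * 2 ^ C ≤ 1 := by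
      refine le_trans ?_ hκ1
      exact le_mul_of_one_le_right (by positivity) hN1
    nlinarith [b2]
  -- the variation of the label of `c 2` at the ball
  obtain ⟨B₁, c1, c2, c3⟩ := hNV B₀ (fun _ h => h) (by
    have h3 : κ ≤ κ * 2 ^ C := le_mul_of_one_le_right hκ0 (one_le_pow₀ (by norm_num))
    exact (mul_le_mul_of_nonneg_right h3 b2.le).trans hκB) (fun _ => ek (c 1)) (fun _ => ek (c 1))
    (fun _ _ => rfl) (fun ω _ => ⟨ek_self _, fun j hj => by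
      refine ek_ne fun he => ?_
      have := hc3 (show j < 3 by omega) (show 1 < 3 by norm_num) he
      omega⟩) (fun ω _ j hj hlj => by omega)
  have c2' : 0 < Pe F.p B₁ := by linarith
  -- the slope of the label of `c 2`
  have h2C : (0 : ℝ) < 2 ^ C := by positivity
  obtain ⟨B₂, v, v', d1, d2, d3, d4, d5⟩ := hsig (F := F) (c := c) (a := a) (e := e) (E := e)
    (h := h) (y := s') (g := g) (gN := g) (Y := Y) (κ := κ) (B₀ := B₀) (B := B₁) (T := T) (N := T)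
    (TH := TH) (NH := TH) hc3 haJ c1 hκ0 (by
      have h3 : κ * 2 ^ Cs * 2 ≤ κ * 2 ^ C := by
        rw [mul_assoc, ← pow_succ]
        exact mul_le_mul_of_nonneg_left (pw (by omega)) hκ0
      have h4 := (mul_le_mul_of_nonneg_right h3 b2.le).trans hκB
      linarith) c2' (hT.sub c1) hRH (hT.sub c1) (by omega) (fun l _ => by omega) hYJ (fun l hl => by
      have h3 := hrg l hl
      have h4 : Cs * (h + s' + 1) ≤ Cs * (2 * (s' + 1)) := Nat.mul_le_mul_left _ (by omega)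
      have h5 : Cs * (2 * (s' + 1)) = 2 * (Cs * (s' + 1)) := by ring
      omega) (fun ω ω' hω hω' hsl => by
      have h3 := c3 ω ω' hω hω' hsl
      rw [dir_ek] at h3
      exact h3.trans (div_le_div_of_nonneg_right (pw hV₁) (by positivity)))
  have hB₂ : Sub B₂ B₀ := fun ω hω => c1 ω (d1 ω hω)
  have hPB₂ : Pe F.p B₀ ≤ 2 ^ (Cs + 1) * Pe F.p B₂ := by
    rw [div_le_iff₀ (by positivity)] at d2
    calc Pe F.p B₀ ≤ 2 * Pe F.p B₁ := by linarith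
      _ ≤ 2 * (Pe F.p B₂ * 2 ^ Cs) := mul_le_mul_of_nonneg_left d2 (by norm_num)
      _ = _ := by rw [pow_succ]; ring
  have hB₂0 : 0 < Pe F.p B₂ := by
    by_contra hcon
    push Not at hcon
    have h3 : (2 : ℝ) ^ (Cs + 1) * Pe F.p B₂ ≤ 0 :=
      mul_nonpos_of_nonneg_of_nonpos (by positivity) hcon
    linarith
  have hCsh : Cs * (h + s' + 1) ≤ 2 * (Cs * (s' + 1)) := by
    have h4 : Cs * (h + s' + 1) ≤ Cs * (2 * (s' + 1)) := Nat.mul_le_mul_left _ (by omega)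
    have h5 : Cs * (2 * (s' + 1)) = 2 * (Cs * (s' + 1)) := by ring
    omega
  -- the size of the slope
  obtain ⟨X, hX⟩ : ∃ X, X = e + g 1 + Cs * (h + s' + 1) + 1 := ⟨_, rfl⟩
  have hv2 : ∀ ω, B₂ ω → |v (ptr F J ω) (c 2)| ≤ 2 ^ X := by
    intro ω hω
    have hself := hT.self (hB₂ ω hω) (show 2 ≤ 3 by norm_num)
    obtain ⟨h3, -, -⟩ := (d5 ω hω).2 (bt F ω) hself
    have h4 := hT.lip ω (hB₂ ω hω) 2 (by norm_num) (bt F ω) hself 1 (by norm_num)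
    have h5 : nlp g 1 2 ≤ g 1 := by
      unfold nlp
      have : (Finset.Icc 1 2).sup g ≤ g 1 + g 2 := Finset.sup_le fun x hx => by
        obtain ⟨h8, h9⟩ := Finset.mem_Icc.1 hx
        interval_cases x <;> omega
      omega
    have h6 : (2 : ℝ) ^ (Cs * (h + s' + 1) + g 1) / 2 ^ g 2 ≤ 2 ^ (Cs * (h + s' + 1) + g 1) :=
      div_le_self (by positivity) (one_le_pow₀ (by norm_num))
    have e1 : v (ptr F J ω) (c 2) = eval (bt F ω) (pderiv (some (c 1)) (T (ptr F J ω) 2)) -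
      (eval (bt F ω) (pderiv (some (c 1)) (T (ptr F J ω) 2)) - v (ptr F J ω) (c 2)) := by ring
    rw [e1]
    refine (abs_sub _ _).trans ?_
    rw [hX, pow_succ]
    have f1 : (2 : ℝ) ^ (e + nlp g 1 2) ≤ 2 ^ (e + g 1 + Cs * (h + s' + 1)) := pw (by omega)
    have f2 : (2 : ℝ) ^ (Cs * (h + s' + 1) + g 1) ≤ 2 ^ (e + g 1 + Cs * (h + s' + 1)) :=
      pw (by omega)
    have f3 := h4.trans f1
    have f4 := (h3.trans h6).trans f2
    linarith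
  -- the derivative in the direction `v`: the crude bound
  obtain ⟨NH, hNH⟩ : ∃ NH, NH = cwn w a H := ⟨_, rfl⟩
  have hLa : ChOK F c 4 (fun _ => D) a a E gN A G NH := by
    rw [hNH]
    exact chOK_win hL hwa haJ
  have hNHs : ∀ ω, NH (slam F a ω) = H (slam F w ω) := fun ω => by
    rw [hNH]
    exact cwn_slam hwa haJ H ω
  obtain ⟨Qv, hQv⟩ : ∃ Qv : LnT F → Polynomial ℝ, Qv = fun s' => gcl (c 1) (NH s' 3) s' +
    Polynomial.C (v' s' (c 2)) * gcl (c 2) (NH s' 3) s' := ⟨_, rfl⟩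
  have hQdeg : ∀ s', (Qv s').natDegree ≤ D := by
    intro s'
    rw [hQv]
    refine (Polynomial.natDegree_add_le _ _).trans (max_le (gcl_deg _ (hLa.degH _ _) _) ?_)
    exact (Polynomial.natDegree_C_mul_le _ _).trans (gcl_deg _ (hLa.degH _ _) _)
  have hQself : ∀ ω, B₂ ω → |(Qv (slam F a ω)).eval (F.t ω)| ≤ 2 ^ (Cv + E + X + S) := by
    intro ω hω
    obtain ⟨v1, v0, -⟩ := d4 (ptr F J ω)
    have h3 := hval (v := v (ptr F J ω)) (X := X) (l := 1) (i := 3) (by norm_num) (by norm_num) hc3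
      hLa (hB₀A ω (hB₂ ω hω)) hS v1 (fun j hj => by
        have : j = 0 := by omega
        rw [this, v0]) (fun j hj hlj => by
        have : j = 2 := by omega
        rw [this]
        exact hv2 ω hω)
    rw [dir_one3 hc3 (hLa.depH _ 3) v0 v1] at h3
    rw [hQv]
    simp only [Polynomial.eval_add, Polynomial.eval_mul, Polynomial.eval_C]
    rw [gcl_self, gcl_self, ← d3 ω hω]
    exact h3
  have hCN : (0 : ℝ) < N + 1 := by linarith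
  obtain ⟨B₃, e1, e2, e3⟩ := hcrd (w := a) (s := s) (A := B₂) (M := 2 ^ (Cv + E + X + S))
    (θ := θ) Qv hB₂0 haJ hQdeg (fun B' hB' h3 h4 => b3 B' hB' (fun ω h => hB₂ ω (h3 ω h)) (by
      calc Pe F.p B₀ ≤ 2 ^ (Cs + 1) * Pe F.p B₂ := hPB₂
        _ ≤ 2 ^ (Cs + 1) * (2 * Pe F.p B') := mul_le_mul_of_nonneg_left h4 (by positivity)
        _ = 2 ^ (Cs + 2) * 1 * Pe F.p B' := by rw [pow_succ 2 (Cs + 1)]; ring
        _ ≤ 2 ^ C * (N + 1) * Pe F.p B' := by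
          refine mul_le_mul_of_nonneg_right ?_ hB'.le
          exact mul_le_mul (pw (by omega)) hN1 (by norm_num) (by positivity))) hθ
    ((hm2.trans hθJ).trans hJa) (hm2.trans hθs) (by positivity) hQself
  -- the classes of the derivative in the direction `v`
  obtain ⟨lam₂, hlam₂⟩ : ∃ lam₂, lam₂ = Q + k * s - a := ⟨_, rfl⟩
  have hks : a + lam₂ = Q + k * s := by
    rw [hlam₂]
    omega
  have hks1 : s ≤ k * s := Nat.le_mul_of_pos_left _ hkpos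
  obtain ⟨lam₀, hlam₀⟩ : ∃ lam₀, lam₀ = lam₂ - (g₄ 2 + Cb * (s + 1)) + g 1 := ⟨_, rfl⟩
  obtain ⟨q, hq, B₄, f1, f2, f3, f4⟩ := dyc F.isLaw (A := B₃) (Q := a + lam₀) (s := s) (N := N)
    (G := gN 3) (f := fun ω => wmx a (slam F a ω).2.2 (Polynomial.derivative (Qv (slam F a ω))))
    (fun ω hω => by
      refine (e3 ω hω).trans ?_
      rw [le_div_iff₀ (by positivity), ← pow_add, ← pow_add]
      refine pw ?_
      have q1 : Cs * (s' + 1) * 2 + 6 * (s' + 1) ≤ s := by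
        have : C * (s' + 1) ≤ s := hss
        have q2 : 2 * (Cs * (s' + 1)) = Cs * (s' + 1) * 2 := by ring
        omega
      omega)
  have hB₄3 : Sub B₄ B₂ := fun ω hω => e1 ω (f1 ω hω)
  have hPB₄ : Pe F.p B₀ ≤ 2 ^ (Cs + 3) * (N + 1) * Pe F.p B₄ := by
    calc Pe F.p B₀ ≤ 2 ^ (Cs + 1) * Pe F.p B₂ := hPB₂
      _ ≤ 2 ^ (Cs + 1) * (4 * Pe F.p B₃) := mul_le_mul_of_nonneg_left (by linarith) (by positivity)
      _ ≤ 2 ^ (Cs + 1) * (4 * ((N + 1) * Pe F.p B₄)) := by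
        refine mul_le_mul_of_nonneg_left (mul_le_mul_of_nonneg_left f2 (by norm_num)) (by positivity)
      _ = _ := by
        rw [show Cs + 3 = Cs + 1 + 2 by omega, pow_add 2 (Cs + 1) 2]
        ring
  have hB₄0 : 0 < Pe F.p B₄ := by
    by_contra hcon
    push Not at hcon
    have h3 : (2 : ℝ) ^ (Cs + 3) * (N + 1) * Pe F.p B₄ ≤ 0 :=
      mul_nonpos_of_nonneg_of_nonpos (by positivity) hcon
    linarith
  have hB₄₀ : Sub B₄ B₀ := fun ω hω => hB₂ ω (hB₄3 ω hω)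
  have hB₄A : Sub B₄ A := fun ω hω => hB₀A ω (hB₄₀ ω hω)
  -- the polynomial of the direction
  have hQder : ∀ ω, B₄ ω → ∀ t : ℝ, (Polynomial.derivative (Qv (slam F a ω))).eval t =
      (hcl (c 1) (H (slam F w ω) 3) (slam F w ω)).eval t +
        v (ptr F J ω) (c 2) * (hcl (c 2) (H (slam F w ω) 3) (slam F w ω)).eval t := by
    intro ω hω t
    rw [hQv]
    simp only [Polynomial.derivative_add, Polynomial.derivative_mul, Polynomial.derivative_C,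
      zero_mul, zero_add, Polynomial.eval_add, Polynomial.eval_mul, Polynomial.eval_C]
    rw [gcl_der, gcl_der, hNHs, hcl_eval, hcl_eval, hcl_eval, hcl_eval, d3 ω (hB₄3 ω hω)]
  refine hnv (J := J) (F := F) (c := c) (a := a) (w := w) (w₂ := w₂) (a₂ := a₂) (a₃ := a₃) (e := e)
    (E := E) (h := h) (s := s) (lam₁ := lam₀ + q * s) (lam₂ := lam₂) (D₂ := D₂) (gN := gN) (g := g)
    (g₂ := g₂) (g₃ := g₃) (g₄ := g₄) (Y := Y) (κ := κ) (θ := θ) (B₀ := B₀) (B := B₄) (N := G)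
    (T := T) (T₂ := T₂) (T₃ := T₃) (T₄ := T₄) (NH := H) (TH := TH) (T₂H := T₂H) (T₃H := T₃H)
    (T₄H := T₄H) (v := v) (v' := v') hc hw hw2 ha2 ha3 ha3J hB₄0 hB₄₀ (hL.sub hB₄A) hT hRH hT2 hR2
    hT3 hT4 hR4 hDD hκ0 ?_ ?_ ?_ hθ (hm1.trans hθJ) (hm1.trans hθs) (by
      have : 6 * (s' + 1) ≤ C * (s' + 1) := Nat.mul_le_mul_right _ (by omega)
      omega) hgx hYJ (fun l hl => by
      have := hrN l hl
      omega) (fun l hl => by
      have := hrg l hl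
      omega) (fun l hl => by
      have := hr2 l hl
      omega) (fun l hl => by
      have := hr3 l hl
      omega) (fun l hl => by
      have := hr4 l hl
      omega) (by omega) (fun ω hω => d3 ω (hB₄3 ω hω)) (fun ω _ => ⟨(d4 _).2.1, (d4 _).1⟩) ?_ ?_ ?_
    ?_ ?_ (by omega) (by omega) (by omega) (by omega) (by omega) (by omega) n7 n8 n9
  · -- the share
    have h3 : κ * 2 ^ Cb * (2 ^ (Cs + 3) * (N + 1)) ≤ 1 := by
      refine le_trans ?_ hκ1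
      have h4 : (2 : ℝ) ^ Cb * 2 ^ (Cs + 3) ≤ 2 ^ C := by
        rw [← pow_add]
        exact pw (by omega)
      calc κ * 2 ^ Cb * (2 ^ (Cs + 3) * (N + 1)) = κ * (2 ^ Cb * 2 ^ (Cs + 3)) * (N + 1) := by ring
        _ ≤ κ * 2 ^ C * (N + 1) := by
          refine mul_le_mul_of_nonneg_right (mul_le_mul_of_nonneg_left h4 hκ0) hCN.le
    calc κ * 2 ^ Cb * Pe F.p B₀ ≤ κ * 2 ^ Cb * (2 ^ (Cs + 3) * (N + 1) * Pe F.p B₄) :=
          mul_le_mul_of_nonneg_left hPB₄ (by positivity)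
      _ = κ * 2 ^ Cb * (2 ^ (Cs + 3) * (N + 1)) * Pe F.p B₄ := by ring
      _ ≤ 1 * Pe F.p B₄ := mul_le_mul_of_nonneg_right h3 hB₄0.le
      _ = _ := one_mul _
  · refine le_trans ?_ hκ1
    calc κ * 2 ^ Cb ≤ κ * 2 ^ C := mul_le_mul_of_nonneg_left (pw (by omega)) hκ0
      _ ≤ _ := le_mul_of_one_le_right (by positivity) hN1
  · intro B' hB' h3 h4
    refine b3 B' hB' (fun ω h => hB₄₀ ω (h3 ω h)) ?_
    have h5 : (2 : ℝ) ^ (Cs + 3) * 2 ^ Cb ≤ 2 ^ C := by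
      rw [← pow_add]
      exact pw (by omega)
    calc Pe F.p B₀ ≤ 2 ^ (Cs + 3) * (N + 1) * Pe F.p B₄ := hPB₄
      _ ≤ 2 ^ (Cs + 3) * (N + 1) * (2 ^ Cb * Pe F.p B') :=
        mul_le_mul_of_nonneg_left h4 (by positivity)
      _ = 2 ^ (Cs + 3) * 2 ^ Cb * (N + 1) * Pe F.p B' := by ring
      _ ≤ 2 ^ C * (N + 1) * Pe F.p B' := by
        refine mul_le_mul_of_nonneg_right (mul_le_mul_of_nonneg_right h5 hCN.le) hB'.le
  · intro ω hω
    have h3 := shrY_iff.2 (d5 ω (hB₄3 ω hω)).1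
    exact h3.mono le_rfl (by omega)
  · intro ω hω t ht1 ht2
    rw [hks]
    exact (le_wmx ((win_iff hwJ ω t).1 ⟨ht1, ht2⟩)).trans (k6 ω (b1 ω (hB₄₀ ω hω)))
  · intro ω hω
    obtain ⟨t, ht, h3⟩ := wmx_mem w (slam F w ω).2.2 (hcl (c 2) (H (slam F w ω) 3) (slam F w ω))
    obtain ⟨h4, h5⟩ := (win_iff hwJ ω t).2 ht
    refine ⟨t, h4, h5, ?_⟩
    rw [← h3, hks]
    exact k7 hkpos ω (b1 ω (hB₄₀ ω hω))
  · intro ω hω t ht1 ht2
    rw [← hQder ω hω t]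
    have h3 := f3 ω hω
    have e4 : a + (lam₀ + q * s) = a + lam₀ + q * s := by ring
    rw [e4]
    exact (le_wmx ((win_iff haJ ω t).1 ⟨ht1, ht2⟩)).trans h3
  · intro hlt ω hω
    have hq0 : 0 < q := by
      by_contra hcon
      have hq0 : q = 0 := by omega
      rw [hq0] at hlt
      omega
    obtain ⟨t, ht, h3⟩ := wmx_mem a (slam F a ω).2.2 (Polynomial.derivative (Qv (slam F a ω)))
    obtain ⟨h4, h5⟩ := (win_iff haJ ω t).2 ht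
    refine ⟨t, h4, h5, ?_⟩
    rw [← hQder ω hω t, ← h3]
    have e4 : a + (lam₀ + q * s) = a + lam₀ + q * s := by ring
    rw [e4]
    exact f4 hq0 ω hω

end Pool.NVX
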