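import Pool.Agent.H80.NV.Bal

/-!
# The plane of a ball, three coordinates and the target

`bal_three`: for the chain `c 0, c 1, c 2` and the target `c 3`.
-/

set_option autoImplicit false

namespace Pool.NVX

open Finset Real MvPolynomial
open Pool.Agent.H49.Ent Pool.Agent.H32.Dense Pool.STK Pool.KA Pool.KSAT Pool.K2S Pool.PB Pool.S6C
open Pool.GEN Pool.CHT
open Pool.D2R (dd hs dd_add dd_smul dd_congr)
open Pool.SHR (dir mvp dvc meanv mvp_none mvp_some mvp_zero dir_deg dir_dep)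
open Pool.PB.Trl (rt rt_mem t_rt)

/-- The exponents. -/
theorem bal3_num (c₀ c₁ c₂ D₁ N n h y z n' u n'' T : ℕ) (hT : T = n + h + y + 1)
    (hz : z = n + h + c₂ + 7) (hn' : n' = n + z + 1) (hu : u = c₀ + n' * D₁ + y + z)
    (hn'' : n'' = n + u + z + 2) :
    c₁ + (c₂ + 5) * N * T + (2 * c₂ + 2 * n + h + 6) + n + u + 2 + (c₀ + n'' * D₁ + z) ≤
      (c₁ + (c₂ + 5) * N + (2 * c₂ + 20) + (c₀ + (c₂ + 9) * D₁ + 1 + (c₂ + 8)) + 2 +
        (c₀ + (1 + (c₀ + (c₂ + 9) * D₁ + 1 + (c₂ + 8)) + (c₂ + 8) + 2) * D₁ + (c₂ + 8))) * T := by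
  have hT1 : 1 ≤ T := by omega
  have a1 : c₂ ≤ c₂ * T := Nat.le_mul_of_pos_right _ hT1
  have a2 : c₁ ≤ c₁ * T := Nat.le_mul_of_pos_right _ hT1
  have a3 : c₀ ≤ c₀ * T := Nat.le_mul_of_pos_right _ hT1
  have bz : z ≤ (c₂ + 8) * T := by
    have : (c₂ + 8) * T = c₂ * T + 8 * T := by ring
    omega
  have bn : n' ≤ (c₂ + 9) * T := by
    have : (c₂ + 9) * T = c₂ * T + 9 * T := by ring
    omega
  have bu : u ≤ (c₀ + (c₂ + 9) * D₁ + 1 + (c₂ + 8)) * T := by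
    have b1 : n' * D₁ ≤ (c₂ + 9) * T * D₁ := Nat.mul_le_mul_right _ bn
    have b2 : (c₀ + (c₂ + 9) * D₁ + 1 + (c₂ + 8)) * T =
        c₀ * T + (c₂ + 9) * T * D₁ + T + (c₂ + 8) * T := by ring
    omega
  have bn'' : n'' ≤ (1 + (c₀ + (c₂ + 9) * D₁ + 1 + (c₂ + 8)) + (c₂ + 8) + 2) * T := by
    have b2 : (1 + (c₀ + (c₂ + 9) * D₁ + 1 + (c₂ + 8)) + (c₂ + 8) + 2) * T =
        T + (c₀ + (c₂ + 9) * D₁ + 1 + (c₂ + 8)) * T + (c₂ + 8) * T + 2 * T := by ring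
    omega
  have b1 : n'' * D₁ ≤ (1 + (c₀ + (c₂ + 9) * D₁ + 1 + (c₂ + 8)) + (c₂ + 8) + 2) * T * D₁ :=
    Nat.mul_le_mul_right _ bn''
  have b2 : (c₁ + (c₂ + 5) * N + (2 * c₂ + 20) + (c₀ + (c₂ + 9) * D₁ + 1 + (c₂ + 8)) + 2 +
        (c₀ + (1 + (c₀ + (c₂ + 9) * D₁ + 1 + (c₂ + 8)) + (c₂ + 8) + 2) * D₁ + (c₂ + 8))) * T =
      c₁ * T + (c₂ + 5) * N * T + 2 * (c₂ * T) + 20 * T +
        (c₀ + (c₂ + 9) * D₁ + 1 + (c₂ + 8)) * T + 2 * T + c₀ * T +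
        (1 + (c₀ + (c₂ + 9) * D₁ + 1 + (c₂ + 8)) + (c₂ + 8) + 2) * T * D₁ + (c₂ + 8) * T := by
    ring
  rw [b2]
  omega

/-- **The plane of a ball**, for the chain `c 0, c 1, c 2` and the target `c 3`. -/
theorem bal_three (D : ℕ) (hD : 1 ≤ D) : ∃ C : ℕ, ∀ {m J : ℕ} {F : Fam m J} {c : ℕ → Fin m}
    {a n h y : ℕ} {g : ℕ → ℕ} {B : F.Ω → Prop}
    {G : PtT F → ℕ → MvPolynomial (Option (Fin m)) ℝ} {v : PtT F → Fin m → ℝ}
    {al₁ al₂ : PtT F → ℝ} {ζ₁ ζ₂ E₁ E₂ : ℝ},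
    Set.InjOn c (Set.Iio 4) → a ≤ J → (∀ y l, (G y l).totalDegree ≤ D) →
    (∀ y l, DepC c l (G y l)) → Pth F c 4 a n g B G →
    (∀ ω, B ω → v (ptr F J ω) (c 0) = 0 ∧ v (ptr F J ω) (c 1) = 1) →
    (∀ ω, B ω → ∃ p q : ℝ, ∀ ν, B ν → ptr F J ν = ptr F J ω →
      |bd F ν (some (c 1)) - (p + q * bd F ν (some (c 0)))| ≤ ζ₁) → ζ₁ ≤ 2 ^ a / 2 ^ g 1 →
    (∀ ω, B ω → ∃ p q : ℝ, ∀ ν, B ν → ptr F J ν = ptr F J ω →
      |(bd F ν (some (c 2)) - v (ptr F J ω) (c 2) * bd F ν (some (c 1))) -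
        (p + q * bd F ν (some (c 0)))| ≤ ζ₂) → ζ₂ ≤ 2 ^ a / 2 ^ g 2 →
    (∀ ω, B ω → ∀ b, NBx c (G (ptr F J ω)) g a (F.t ω) 2 b →
      |eval b (dir (v (ptr F J ω)) (G (ptr F J ω) 2)) - v (ptr F J ω) (c 2)| ≤
        2 ^ y * 2 ^ g 1 / 2 ^ g 2) →
    (∀ ω, B ω → ∀ b, NBx c (G (ptr F J ω)) g a (F.t ω) 3 b →
      |eval b (dir (v (ptr F J ω)) (G (ptr F J ω) 3)) - al₁ (ptr F J ω)| ≤ E₁) →
    (∀ ω, B ω → ∀ b, NBx c (G (ptr F J ω)) g a (F.t ω) 3 b →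
      |eval b (dir (ek (c 2)) (G (ptr F J ω) 3)) - al₂ (ptr F J ω)| ≤ E₂) →
    ∃ (X : PtT F → Option (Fin m) → ℝ) (ν₀ : PtT F → F.Ω → F.Ω), ∀ ω, B ω →
      Sep F c B (2 ^ a / 2 ^ (g 0 + h + 3)) (D + 1) ω →
      X (ptr F J ω) none = 0 ∧ X (ptr F J ω) (some (c 0)) = 1 ∧
      (∀ k, |X (ptr F J ω) (some k)| ≤ 2 ^ (g 0 + h + 4) / 2 ^ a) ∧
      (∃ ν₁, B ν₁ ∧ ptr F J ν₁ = ptr F J ω ∧ (∀ ω₀, ν₀ (ptr F J ω) ω₀ = ν₁) ∧
        (∃ (ν₂ : F.Ω) (δ : ℝ), B ν₂ ∧ ptr F J ν₂ = ptr F J ω ∧ |δ| ≤ 2 ^ (h + 3) ∧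
          (1 / 2 ^ g 0 : ℝ) • X (ptr F J ω) = δ • (vl F a ν₁ - vl F a ν₂)) ∧
        |(bd F ω (some (c 1)) - bd F ν₁ (some (c 1))) - X (ptr F J ω) (some (c 1)) *
          (bd F ω (some (c 0)) - bd F ν₁ (some (c 0)))| ≤ 2 ^ (C * (n + h + y + 1)) * ζ₁ ∧
        |(bd F ω (some (c 2)) - bd F ν₁ (some (c 2))) - v (ptr F J ω) (c 2) *
            (bd F ω (some (c 1)) - bd F ν₁ (some (c 1))) -
          (X (ptr F J ω) (some (c 2)) - v (ptr F J ω) (c 2) * X (ptr F J ω) (some (c 1))) *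
          (bd F ω (some (c 0)) - bd F ν₁ (some (c 0)))| ≤ 2 ^ (C * (n + h + y + 1)) * ζ₂) ∧
      (∀ l < 4, |((1 / 2 ^ g 0 : ℝ) • X (ptr F J ω)) (some (c l)) -
        dd (G (ptr F J ω) l) (bt F ω) ((1 / 2 ^ g 0 : ℝ) • X (ptr F J ω))| ≤
          2 ^ (C * (n + h + y + 1)) / 2 ^ g l) ∧
      ∀ α β : ℝ, |α| ≤ 2 → |β| ≤ 2 →
        (∀ l < 3, |(bt F ω + α • vl F a ω + β • ((1 / 2 ^ g 0 : ℝ) • X (ptr F J ω)))
            (some (c l)) -
          eval (bt F ω + α • vl F a ω + β • ((1 / 2 ^ g 0 : ℝ) • X (ptr F J ω)))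
            (G (ptr F J ω) l)| ≤ 2 ^ (C * (n + h + y + 1)) / 2 ^ g l) ∧
        |(bt F ω + α • vl F a ω + β • ((1 / 2 ^ g 0 : ℝ) • X (ptr F J ω))) (some (c 3)) -
          eval (bt F ω + α • vl F a ω + β • ((1 / 2 ^ g 0 : ℝ) • X (ptr F J ω)))
            (G (ptr F J ω) 3)| ≤ 2 ^ (C * (n + h + y + 1)) *
              (1 / 2 ^ g 3 + ζ₁ / 2 ^ a * E₁ + ζ₂ / 2 ^ a * E₂) := by
  obtain ⟨C₁, hC₁, N, hpb⟩ := pb_one D hD
  obtain ⟨C₂, hC₂, hvel⟩ := vel_one D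
  obtain ⟨c₀, D₁, hD₁, hdil⟩ := nbx_dil 4 (fun _ => D)
  obtain ⟨c₁, hc₁⟩ := pow_unbounded_of_one_lt C₁ (one_lt_two (α := ℝ))
  obtain ⟨c₂, hc₂⟩ := pow_unbounded_of_one_lt C₂ (one_lt_two (α := ℝ))
  have pw : ∀ {x y : ℕ}, x ≤ y → (2 : ℝ) ^ x ≤ 2 ^ y := fun h => pow_le_pow_right₀ (by norm_num) h
  refine ⟨c₁ + (c₂ + 5) * N + (2 * c₂ + 20) + (c₀ + (c₂ + 9) * D₁ + 1 + (c₂ + 8)) + 2 +
        (c₀ + (1 + (c₀ + (c₂ + 9) * D₁ + 1 + (c₂ + 8)) + (c₂ + 8) + 2) * D₁ + (c₂ + 8)), ?_⟩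
  intro m J F c a n h y g B G v al₁ al₂ ζ₁ ζ₂ E₁ E₂ hc haJ hdG hdep hpth hv01 hdp1 hζ₁ hdp2 hζ₂
    hshr hal1 hal2
  obtain ⟨T, hT⟩ : ∃ T, T = n + h + y + 1 := ⟨_, rfl⟩
  obtain ⟨z, hz⟩ : ∃ z, z = n + h + c₂ + 7 := ⟨_, rfl⟩
  obtain ⟨n', hn'⟩ : ∃ n', n' = n + z + 1 := ⟨_, rfl⟩
  obtain ⟨u, hu⟩ : ∃ u, u = c₀ + n' * D₁ + y + z := ⟨_, rfl⟩
  obtain ⟨n'', hn''⟩ : ∃ n'', n'' = n + u + z + 2 := ⟨_, rfl⟩
  have hnum := bal3_num c₀ c₁ c₂ D₁ N n h y z n' u n'' T hT hz hn' hu hn''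
  obtain ⟨Ct, hCt⟩ : ∃ Ct, Ct = c₁ + (c₂ + 5) * N + (2 * c₂ + 20) +
    (c₀ + (c₂ + 9) * D₁ + 1 + (c₂ + 8)) + 2 +
        (c₀ + (1 + (c₀ + (c₂ + 9) * D₁ + 1 + (c₂ + 8)) + (c₂ + 8) + 2) * D₁ + (c₂ + 8)) := ⟨_, rfl⟩
  rw [← hCt] at hnum ⊢
  rw [← hT]
  have hT1 : 1 ≤ T := by omega
  have hzT : z ≤ Ct * T := by omega
  have hσ : (0 : ℝ) < 2 ^ a / 2 ^ (g 0 + h + 3) := by positivity
  obtain ⟨X, ν₀, hX⟩ := x_ex F c a g B hσ
  refine ⟨X, ν₀, fun ω hω hsep => ?_⟩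
  obtain ⟨ν, hν1, hν2, hν3⟩ := hsep
  obtain ⟨hX0, hX1, ν₁, ν₂, hB₁, hp₁, hB₂, hp₂, hν₀, δ, hδ, hXd⟩ := hX ω hω
    ⟨ν 0, (hν1 0).1, (hν1 0).2, hν2 0⟩
  have hδ' : |δ| ≤ 2 ^ (h + 3) := by
    refine hδ.trans (le_of_eq ?_)
    rw [show g 0 + h + 3 = g 0 + (h + 3) by omega, pow_add]
    field_simp
  obtain ⟨x, hx⟩ : ∃ x, x = bt F ω := ⟨_, rfl⟩
  obtain ⟨U₀, hU₀⟩ : ∃ U, U = vl F a ω := ⟨_, rfl⟩
  obtain ⟨U₁, hU₁⟩ : ∃ U, U = (1 / 2 ^ g 0 : ℝ) • X (ptr F J ω) := ⟨_, rfl⟩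
  obtain ⟨Gw, hGw⟩ : ∃ Gw, Gw = G (ptr F J ω) := ⟨_, rfl⟩
  obtain ⟨vv, hvv⟩ : ∃ vv, vv = v (ptr F J ω) := ⟨_, rfl⟩
  obtain ⟨hv0, hv1⟩ := hv01 ω hω
  rw [← hvv] at hv0 hv1
  have hGd : ∀ l, (Gw l).totalDegree ≤ D := fun l => by rw [hGw]; exact hdG _ l
  have hGp : ∀ l, DepC c l (Gw l) := fun l => by rw [hGw]; exact hdep _ l
  have hU0n : U₀ none = 1 / 2 ^ a := by rw [hU₀]; exact vl_none F a ω
  have hU1n : U₁ none = 0 := by rw [hU₁, Pi.smul_apply, hX0, smul_zero]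
  have hU1c : U₁ (some (c 0)) = 1 / 2 ^ g 0 := by
    rw [hU₁, Pi.smul_apply, hX1, smul_eq_mul, mul_one]
  -- the lines
  have hpath : ∀ μ, B μ → ptr F J μ = ptr F J ω → ∀ s : ℝ, -rt F a μ ≤ s → s ≤ 1 - rt F a μ →
      ∀ l < 4, |(x + s • vl F a μ) (some (c l)) - eval (x + s • vl F a μ) (Gw l)| ≤
        2 ^ n / 2 ^ g l := by
    intro μ hμ hpt s h0 h1 l hl
    rw [hx, hGw]
    exact hpth ω μ hω hμ hpt.symm s h0 h1 l hl
  have hvl : ∀ μ, B μ → ptr F J μ = ptr F J ω → ∀ l < 4,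
      |vl F a μ (some (c l)) - dd (Gw l) x (vl F a μ)| ≤ 2 ^ (c₂ + n) / 2 ^ g l := by
    intro μ hμ hpt l hl
    have hrt := rt_mem F a μ
    refine (hvel (Gw l) x (vl F a μ) (some (c l)) (rt F a μ) (2 ^ n / 2 ^ g l) (hGd l) hrt.1 hrt.2
      fun s h0 h1 => hpath μ hμ hpt s h0 h1 l hl).trans ?_
    rw [pow_add, mul_div_assoc]
    exact mul_le_mul_of_nonneg_right hc₂.le (by positivity)
  have hcne : ∀ i j : ℕ, i < 4 → j < 4 → i ≠ j → (c i : Fin m) ≠ c j := fun i j hi hj hij h =>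
    hij (hc (Set.mem_Iio.2 hi) (Set.mem_Iio.2 hj) h)
  have hc01 := hcne 0 1 (by norm_num) (by norm_num) (by norm_num)
  have hc02 := hcne 0 2 (by norm_num) (by norm_num) (by norm_num)
  have hc12 := hcne 1 2 (by norm_num) (by norm_num) (by norm_num)
  -- the natural size of the velocities
  have hη : ∀ μ, B μ → ptr F J μ = ptr F J ω →
      |2 ^ g 0 * (vl F a μ (some (c 0)) - vl F a ω (some (c 0)))| ≤ 2 ^ (c₂ + n + 1) := by
    intro μ hμ hpt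
    have h1 := hvl μ hμ hpt 0 (by norm_num)
    have h2 := hvl ω hω rfl 0 (by norm_num)
    have h3 : dd (Gw 0) x (vl F a μ) = dd (Gw 0) x (vl F a ω) :=
      dd_congr (hGp 0) x (by rw [vl_none, vl_none]) fun l hl => absurd hl (Nat.not_lt_zero l)
    rw [abs_mul, abs_of_pos (show (0 : ℝ) < 2 ^ g 0 by positivity)]
    have h4 : |vl F a μ (some (c 0)) - vl F a ω (some (c 0))| ≤
        2 ^ (c₂ + n) / 2 ^ g 0 + 2 ^ (c₂ + n) / 2 ^ g 0 := by
      have e1 : vl F a μ (some (c 0)) - vl F a ω (some (c 0)) =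
          (vl F a μ (some (c 0)) - dd (Gw 0) x (vl F a μ)) -
          (vl F a ω (some (c 0)) - dd (Gw 0) x (vl F a ω)) := by rw [h3]; ring
      rw [e1]
      exact (abs_sub _ _).trans (add_le_add h1 h2)
    calc 2 ^ g 0 * |vl F a μ (some (c 0)) - vl F a ω (some (c 0))| ≤
        2 ^ g 0 * (2 ^ (c₂ + n) / 2 ^ g 0 + 2 ^ (c₂ + n) / 2 ^ g 0) :=
          mul_le_mul_of_nonneg_left h4 (by positivity)
      _ = 2 ^ (c₂ + n + 1) := by rw [pow_succ]; field_simp; ring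
  obtain ⟨R, hR⟩ : ∃ R : ℝ, R = 2 ^ (c₂ + n + 2) := ⟨_, rfl⟩
  have hR4 : 4 ≤ R := by
    rw [hR]
    calc (4 : ℝ) = 2 ^ 2 := by norm_num
      _ ≤ _ := pw (by omega)
  have hηR : ∀ μ, B μ → ptr F J μ = ptr F J ω →
      |2 ^ g 0 * (vl F a μ (some (c 0)) - vl F a ω (some (c 0)))| ≤ R := fun μ h1 h2 =>
    (hη μ h1 h2).trans (by rw [hR]; exact pw (by omega))
  have hzR : 2 + R * 2 ^ (h + 4) ≤ 2 ^ z := by
    rw [hR, ← pow_add, hz]
    have e1 : (2 : ℝ) ^ (n + h + c₂ + 7) = 2 * 2 ^ (c₂ + n + 2 + (h + 4)) := by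
      rw [← pow_succ']
      congr 1
      omega
    have e2 : (2 : ℝ) ≤ 2 ^ (c₂ + n + 2 + (h + 4)) := by
      calc (2 : ℝ) = 2 ^ 1 := (pow_one 2).symm
        _ ≤ _ := pw (by omega)
    rw [e1]
    linarith
  -- the deviations of a line from the plane
  have hdev : ∀ (o : Option (Fin m)) (A p q ζ : ℝ), (∀ μ, B μ → ptr F J μ = ptr F J ω →
      |(bd F μ o - A * bd F μ (some (c 1))) - (p + q * bd F μ (some (c 0)))| ≤ ζ) →
      ∀ μ, B μ → ptr F J μ = ptr F J ω → |(vl F a μ o - U₀ o -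
        2 ^ g 0 * (vl F a μ (some (c 0)) - vl F a ω (some (c 0))) * U₁ o) -
        A * (vl F a μ (some (c 1)) - U₀ (some (c 1)) -
          2 ^ g 0 * (vl F a μ (some (c 0)) - vl F a ω (some (c 0))) * U₁ (some (c 1)))| ≤
          2 ^ z * (ζ / 2 ^ a) := by
    intro o A p q ζ hpq μ hμ hpt
    obtain ⟨f, hf⟩ : ∃ f : F.Ω → ℝ, f = fun μ => bd F μ o - A * bd F μ (some (c 1)) -
      q * bd F μ (some (c 0)) := ⟨_, rfl⟩
    have hff : ∀ μ μ', B μ → ptr F J μ = ptr F J ω → B μ' → ptr F J μ' = ptr F J ω →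
        |f μ - f μ'| ≤ 2 * ζ := by
      intro μ μ' h1 h2 h3 h4
      have e1 : f μ - f μ' = ((bd F μ o - A * bd F μ (some (c 1))) -
          (p + q * bd F μ (some (c 0)))) -
          ((bd F μ' o - A * bd F μ' (some (c 1))) - (p + q * bd F μ' (some (c 0)))) := by
        rw [hf]
        ring
      rw [e1]
      refine (abs_sub _ _).trans ?_
      linarith [hpq μ h1 h2, hpq μ' h3 h4]
    have hζ0 : 0 ≤ ζ := (abs_nonneg _).trans (hpq ω hω rfl)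
    have hU1f : |U₁ o - A * U₁ (some (c 1)) - q * U₁ (some (c 0))| ≤
        2 ^ (h + 4) * (ζ / 2 ^ a) := by
      have e1 : U₁ o - A * U₁ (some (c 1)) - q * U₁ (some (c 0)) =
          δ * (1 / 2 ^ a * (f ν₁ - f ν₂)) := by
        rw [hU₁, hXd, hf]
        simp only [Pi.smul_apply, Pi.sub_apply, smul_eq_mul, vl]
        ring
      rw [e1, abs_mul, abs_mul, abs_of_pos (show (0 : ℝ) < 1 / 2 ^ a by positivity)]
      have h1 := hff ν₁ ν₂ hB₁ hp₁ hB₂ hp₂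
      calc |δ| * (1 / 2 ^ a * |f ν₁ - f ν₂|) ≤ 2 ^ (h + 3) * (1 / 2 ^ a * (2 * ζ)) :=
            mul_le_mul hδ' (mul_le_mul_of_nonneg_left h1 (by positivity)) (by positivity)
              (by positivity)
        _ = _ := by rw [pow_succ 2 (h + 3)]; ring
    obtain ⟨yy, hy⟩ : ∃ yy, yy = 2 ^ g 0 * (vl F a μ (some (c 0)) - vl F a ω (some (c 0))) :=
      ⟨_, rfl⟩
    have hyR := hηR μ hμ hpt
    rw [← hy] at hyR ⊢
    have e0 : vl F a μ (some (c 0)) - U₀ (some (c 0)) - yy * U₁ (some (c 0)) = 0 := by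
      rw [hU1c, hy, hU₀]
      field_simp
      ring
    have e1 : (vl F a μ o - U₀ o - yy * U₁ o) -
        A * (vl F a μ (some (c 1)) - U₀ (some (c 1)) - yy * U₁ (some (c 1))) =
        1 / 2 ^ a * (f μ - f ω) - yy * (U₁ o - A * U₁ (some (c 1)) - q * U₁ (some (c 0))) +
        q * (vl F a μ (some (c 0)) - U₀ (some (c 0)) - yy * U₁ (some (c 0))) := by
      rw [hU₀, hf]
      simp only [vl, Pi.smul_apply, smul_eq_mul]
      ring
    rw [e1, e0, mul_zero, add_zero]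
    refine (abs_sub _ _).trans ?_
    rw [abs_mul, abs_mul, abs_of_pos (show (0 : ℝ) < 1 / 2 ^ a by positivity)]
    have h1 := hff μ ω hμ hpt hω rfl
    have h2 : |yy| * |U₁ o - A * U₁ (some (c 1)) - q * U₁ (some (c 0))| ≤
        R * (2 ^ (h + 4) * (ζ / 2 ^ a)) :=
      mul_le_mul hyR hU1f (abs_nonneg _) (by linarith)
    have h3 : 1 / 2 ^ a * |f μ - f ω| ≤ 1 / 2 ^ a * (2 * ζ) :=
      mul_le_mul_of_nonneg_left h1 (by positivity)
    have h4 : (2 + R * 2 ^ (h + 4)) * (ζ / 2 ^ a) ≤ 2 ^ z * (ζ / 2 ^ a) :=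
      mul_le_mul_of_nonneg_right hzR (by positivity)
    have h5 : 1 / 2 ^ a * (2 * ζ) + R * (2 ^ (h + 4) * (ζ / 2 ^ a)) =
        (2 + R * 2 ^ (h + 4)) * (ζ / 2 ^ a) := by ring
    linarith
  obtain ⟨p₁, q₁, hpq1⟩ := hdp1 ω hω
  obtain ⟨p₂, q₂, hpq2⟩ := hdp2 ω hω
  rw [← hvv] at hpq2
  have hζ10 : 0 ≤ ζ₁ := (abs_nonneg _).trans (hpq1 ω hω rfl)
  have hζ20 : 0 ≤ ζ₂ := (abs_nonneg _).trans (hpq2 ω hω rfl)
  have hz1 : ∀ μ, B μ → ptr F J μ = ptr F J ω → |vl F a μ (some (c 1)) - U₀ (some (c 1)) -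
      2 ^ g 0 * (vl F a μ (some (c 0)) - vl F a ω (some (c 0))) * U₁ (some (c 1))| ≤
        2 ^ z * (ζ₁ / 2 ^ a) := by
    intro μ hμ hpt
    have h1 := hdev (some (c 1)) 0 p₁ q₁ ζ₁ (fun μ h1 h2 => by
      rw [zero_mul, sub_zero]
      exact hpq1 μ h1 h2) μ hμ hpt
    rwa [zero_mul, sub_zero] at h1
  have hz2 := hdev (some (c 2)) (vv (c 2)) p₂ q₂ ζ₂ hpq2
  have hU1d : ∀ l < 4, |U₁ (some (c l)) - dd (Gw l) x U₁| ≤ 2 ^ (h + 4 + c₂ + n) / 2 ^ g l := by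
    intro l hl
    have e1 : U₁ (some (c l)) - dd (Gw l) x U₁ =
        δ * ((vl F a ν₁ (some (c l)) - dd (Gw l) x (vl F a ν₁)) -
          (vl F a ν₂ (some (c l)) - dd (Gw l) x (vl F a ν₂))) := by
      rw [hU₁, hXd, dd_smul, dd_sub_right, Pi.smul_apply, Pi.sub_apply, smul_eq_mul]
      ring
    rw [e1, abs_mul]
    have h1 := hvl ν₁ hB₁ hp₁ l hl
    have h2 := hvl ν₂ hB₂ hp₂ l hl
    have h3 := (abs_sub (vl F a ν₁ (some (c l)) - dd (Gw l) x (vl F a ν₁))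
      (vl F a ν₂ (some (c l)) - dd (Gw l) x (vl F a ν₂))).trans (add_le_add h1 h2)
    calc |δ| * _ ≤ 2 ^ (h + 3) * (2 ^ (c₂ + n) / 2 ^ g l + 2 ^ (c₂ + n) / 2 ^ g l) :=
          mul_le_mul hδ' h3 (abs_nonneg _) (by positivity)
      _ = _ := by
          rw [show h + 4 + c₂ + n = (h + 3) + (c₂ + n) + 1 by omega, pow_succ, pow_add]
          ring
  have hXk : ∀ k, |X (ptr F J ω) (some k)| ≤ 2 ^ (g 0 + h + 4) / 2 ^ a := by
    intro k
    have h1 := congrFun hXd (some k)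
    simp only [Pi.smul_apply, Pi.sub_apply, smul_eq_mul, vl] at h1
    have h2 : |bd F ν₁ (some k) - bd F ν₂ (some k)| ≤ 2 := by
      refine (abs_sub _ _).trans ?_
      have g1 : |bd F ν₁ (some k)| ≤ 1 := F.dir ν₁ k
      have g2 : |bd F ν₂ (some k)| ≤ 1 := F.dir ν₂ k
      linarith
    have e1 : X (ptr F J ω) (some k) = 2 ^ g 0 / 2 ^ a *
        (δ * (bd F ν₁ (some k) - bd F ν₂ (some k))) := by
      have h3 : X (ptr F J ω) (some k) = 2 ^ g 0 * (1 / 2 ^ g 0 * X (ptr F J ω) (some k)) := by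
        field_simp
      rw [h3, h1]
      ring
    rw [e1, abs_mul, abs_mul, abs_of_pos (show (0 : ℝ) < 2 ^ g 0 / 2 ^ a by positivity)]
    calc (2 : ℝ) ^ g 0 / 2 ^ a * (|δ| * |bd F ν₁ (some k) - bd F ν₂ (some k)|) ≤
        2 ^ g 0 / 2 ^ a * (2 ^ (h + 3) * 2) :=
          mul_le_mul_of_nonneg_left (mul_le_mul hδ' h2 (abs_nonneg _) (by positivity))
            (by positivity)
      _ = _ := by
          rw [show g 0 + h + 4 = g 0 + ((h + 3) + 1) by omega, pow_add 2 (g 0), pow_succ 2 (h + 3)]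
          ring
  refine ⟨hX0, hX1, hXk, ⟨ν₁, hB₁, hp₁, hν₀, ⟨ν₂, δ, hB₂, hp₂, hδ', hXd⟩, ?_, ?_⟩,
    fun l hl => ?_, fun α β hα hβ => ?_⟩
  · have e1 : (bd F ω (some (c 1)) - bd F ν₁ (some (c 1))) - X (ptr F J ω) (some (c 1)) *
          (bd F ω (some (c 0)) - bd F ν₁ (some (c 0))) =
        -(2 ^ a * (vl F a ν₁ (some (c 1)) - U₀ (some (c 1)) -
      2 ^ g 0 * (vl F a ν₁ (some (c 0)) - vl F a ω (some (c 0))) * U₁ (some (c 1)))) := by
      rw [hU₀, hU₁]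
      simp only [vl, Pi.smul_apply, smul_eq_mul]
      field_simp
      ring
    rw [e1, abs_neg, abs_mul, abs_of_pos (show (0 : ℝ) < 2 ^ a by positivity)]
    calc 2 ^ a * _ ≤ 2 ^ a * (2 ^ z * (ζ₁ / 2 ^ a)) :=
          mul_le_mul_of_nonneg_left (hz1 ν₁ hB₁ hp₁) (by positivity)
      _ = 2 ^ z * ζ₁ := by field_simp
      _ ≤ _ := mul_le_mul_of_nonneg_right (pw hzT) hζ10
  · rw [← hvv]
    have e1 : (bd F ω (some (c 2)) - bd F ν₁ (some (c 2))) - vv (c 2) *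
            (bd F ω (some (c 1)) - bd F ν₁ (some (c 1))) -
          (X (ptr F J ω) (some (c 2)) - vv (c 2) * X (ptr F J ω) (some (c 1))) *
          (bd F ω (some (c 0)) - bd F ν₁ (some (c 0))) =
        -(2 ^ a * ((vl F a ν₁ (some (c 2)) - U₀ (some (c 2)) -
        2 ^ g 0 * (vl F a ν₁ (some (c 0)) - vl F a ω (some (c 0))) * U₁ (some (c 2))) -
        vv (c 2) * (vl F a ν₁ (some (c 1)) - U₀ (some (c 1)) -
          2 ^ g 0 * (vl F a ν₁ (some (c 0)) - vl F a ω (some (c 0))) * U₁ (some (c 1))))) := by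
      rw [hU₀, hU₁]
      simp only [vl, Pi.smul_apply, smul_eq_mul]
      field_simp
      ring
    rw [e1, abs_neg, abs_mul, abs_of_pos (show (0 : ℝ) < 2 ^ a by positivity)]
    calc 2 ^ a * _ ≤ 2 ^ a * (2 ^ z * (ζ₂ / 2 ^ a)) :=
          mul_le_mul_of_nonneg_left (hz2 ν₁ hB₁ hp₁) (by positivity)
      _ = 2 ^ z * ζ₂ := by field_simp
      _ ≤ _ := mul_le_mul_of_nonneg_right (pw hzT) hζ20
  · rw [← hU₁, ← hx, ← hGw]
    exact (hU1d l hl).trans (div_le_div_of_nonneg_right (pw (by omega)) (by positivity))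
  -- the plane
  rw [← hx, ← hU₀, ← hU₁, ← hGw]
  have hmu : (0 : ℝ) < 1 / 2 ^ (h + 3) := by positivity
  have hmu1 : (1 : ℝ) / 2 ^ (h + 3) ≤ 1 := by
    rw [div_le_one (by positivity)]
    exact one_le_pow₀ (by norm_num)
  have hRmu : R / (1 / 2 ^ (h + 3)) = 2 ^ (c₂ + n + h + 5) := by
    rw [hR, div_div_eq_mul_div, div_one, ← pow_add]
    congr 1
    omega
  obtain ⟨V, hV⟩ : ∃ V : Fin (D + 1) → Option (Fin m) → ℝ, V = fun j => vl F a (ν j) := ⟨_, rfl⟩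
  obtain ⟨η, hη'⟩ : ∃ η : Fin (D + 1) → ℝ, η = fun j =>
      2 ^ g 0 * (vl F a (ν j) (some (c 0)) - vl F a ω (some (c 0))) := ⟨_, rfl⟩
  have hsepη : ∀ j j', j ≠ j' → 1 / 2 ^ (h + 3) ≤ |η j - η j'| := by
    intro j j' hjj
    have h1 := hν3 j j' hjj
    have e1 : η j - η j' = 2 ^ g 0 / 2 ^ a * (bd F (ν j) (some (c 0)) - bd F (ν j') (some (c 0))) := by
      rw [hη']
      simp only [vl, Pi.smul_apply, smul_eq_mul]
      ring
    rw [e1, abs_mul, abs_of_pos (show (0 : ℝ) < 2 ^ g 0 / 2 ^ a by positivity)]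
    calc (1 : ℝ) / 2 ^ (h + 3) = 2 ^ g 0 / 2 ^ a * (2 ^ a / 2 ^ (g 0 + h + 3)) := by
          rw [show g 0 + h + 3 = g 0 + (h + 3) by omega, pow_add 2 (g 0) (h + 3)]
          field_simp
      _ ≤ _ := mul_le_mul_of_nonneg_left h1 (by positivity)
  -- the points on the plane and on the lines
  have hpt0 : ∀ (j : Fin (D + 1)) (t : ℝ), (x + t • (U₀ + η j • U₁)) none = (x + t • V j) none := by
    intro j t
    simp only [Pi.add_apply, Pi.smul_apply, smul_eq_mul]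
    rw [hU1n, hU0n, hV]
    show x none + t * (1 / 2 ^ a + η j * 0) = x none + t * vl F a (ν j) none
    rw [vl_none]
    ring
  have hpt1 : ∀ (j : Fin (D + 1)) (t : ℝ),
      (x + t • (U₀ + η j • U₁)) (some (c 0)) = (x + t • V j) (some (c 0)) := by
    intro j t
    simp only [Pi.add_apply, Pi.smul_apply, smul_eq_mul]
    rw [hU1c, hU₀, hV, hη']
    field_simp
    ring
  have hdepl : ∀ l < 2, ∀ (j : Fin (D + 1)) (t : ℝ), eval (x + t • (U₀ + η j • U₁)) (Gw l) =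
      eval (x + t • V j) (Gw l) := by
    intro l hl j t
    refine hGp l _ _ (hpt0 j t) fun k hk => ?_
    have : k = 0 := by omega
    subst this
    exact hpt1 j t
  have hrtw := rt_mem F a ω
  have key : ∀ l < 4, ∀ (L : Fin (D + 1) → ℝ) (e₂ : ℝ), (∀ j, ∀ t : ℝ, -rt F a (ν j) ≤ t →
      t ≤ 1 - rt F a (ν j) →
      |eval (x + t • (U₀ + η j • U₁)) (Gw l) - eval (x + t • V j) (Gw l) - t * L j| ≤ e₂) →
      |(x + α • U₀ + β • U₁) (some (c l)) - eval (x + α • U₀ + β • U₁) (Gw l)| ≤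
        2 ^ (c₁ + (c₂ + 5) * N * T) * (2 ^ n / 2 ^ g l + e₂) +
          2 ^ (2 * c₂ + 2 * n + h + 6) / 2 ^ g l := by
    intro l hl L e₂ hL
    have h1 := hpb (Gw l) x U₀ U₁ V (some (c l)) η (fun j => rt F a (ν j)) L (rt F a ω) R
      (1 / 2 ^ (h + 3)) (2 ^ n / 2 ^ g l) e₂ (2 ^ (h + 4 + c₂ + n) / 2 ^ g l) (hGd l)
      (by linarith) hmu hmu1 (fun j => by
        rw [hη']
        exact hηR (ν j) (hν1 j).1 (hν1 j).2) hsepη (fun j => rt_mem F a (ν j)) hrtw.1 hrtw.2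
      (fun t h0 h1 => by
        rw [hU₀]
        exact hpath ω hω rfl t h0 h1 l hl)
      (fun j t h0 h1 => by
        rw [hV]
        exact hpath (ν j) (hν1 j).1 (hν1 j).2 t h0 h1 l hl) hL (hU1d l hl) α β
      (hα.trans (by linarith)) (hβ.trans (by linarith))
    have he₂ : 0 ≤ e₂ := (abs_nonneg _).trans (hL 0 0 (by
      have := (rt_mem F a (ν 0)).1
      linarith) (by
      have := (rt_mem F a (ν 0)).2
      linarith))
    refine h1.trans (add_le_add ?_ ?_)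
    · refine mul_le_mul_of_nonneg_right ?_ (by positivity)
      rw [hRmu, ← pow_mul, pow_add]
      refine mul_le_mul hc₁.le (pw ?_) (by positivity) (by positivity)
      calc (c₂ + n + h + 5) * N ≤ ((c₂ + 5) * T) * N := by
            refine Nat.mul_le_mul_right _ ?_
            have e1 : (c₂ + 5) * T = c₂ * T + 5 * T := by ring
            have e2 : c₂ ≤ c₂ * T := Nat.le_mul_of_pos_right _ hT1
            omega
        _ = _ := by ring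
    · rw [hR, ← mul_div_assoc, ← pow_add]
      refine div_le_div_of_nonneg_right (pw ?_) (by positivity)
      omega
  obtain ⟨P, hP⟩ : ∃ P, P = c₁ + (c₂ + 5) * N * T := ⟨_, rfl⟩
  rw [← hP] at key hnum
  -- a bound of the natural terms
  have hnat : ∀ (l w : ℕ), P + n + (2 * c₂ + 2 * n + h + 6) + w + 1 ≤ Ct * T →
      (2 : ℝ) ^ P * (2 ^ n / 2 ^ g l + (2 ^ w - 1) / 2 ^ g l) +
        2 ^ (2 * c₂ + 2 * n + h + 6) / 2 ^ g l ≤ 2 ^ (Ct * T) / 2 ^ g l := by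
    intro l w hw
    have e1 : (2 : ℝ) ^ P * (2 ^ n / 2 ^ g l + (2 ^ w - 1) / 2 ^ g l) +
        2 ^ (2 * c₂ + 2 * n + h + 6) / 2 ^ g l =
        (2 ^ P * (2 ^ n + (2 ^ w - 1)) + 2 ^ (2 * c₂ + 2 * n + h + 6)) / 2 ^ g l := by ring
    rw [e1]
    refine div_le_div_of_nonneg_right ?_ (by positivity)
    have a1 : (1 : ℝ) ≤ 2 ^ n := one_le_pow₀ (by norm_num)
    have a2 : (1 : ℝ) ≤ 2 ^ w := one_le_pow₀ (by norm_num)
    have a3 : (1 : ℝ) ≤ 2 ^ (2 * c₂ + 2 * n + h + 6) := one_le_pow₀ (by norm_num)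
    have a4 : (1 : ℝ) ≤ 2 ^ P := one_le_pow₀ (by norm_num)
    have a5 : (2 : ℝ) ^ n + (2 ^ w - 1) ≤ 2 ^ n * 2 ^ w := by nlinarith
    have a6 : (2 : ℝ) ^ P * (2 ^ n + (2 ^ w - 1)) ≤ 2 ^ (P + n + (2 * c₂ + 2 * n + h + 6) + w) := by
      calc (2 : ℝ) ^ P * (2 ^ n + (2 ^ w - 1)) ≤ 2 ^ P * (2 ^ n * 2 ^ w) :=
            mul_le_mul_of_nonneg_left a5 (by positivity)
        _ = 2 ^ (P + n + w) := by rw [pow_add, pow_add]; ring
        _ ≤ _ := pw (by omega)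
    have a7 : (2 : ℝ) ^ (2 * c₂ + 2 * n + h + 6) ≤
        2 ^ (P + n + (2 * c₂ + 2 * n + h + 6) + w) := pw (by omega)
    have a8 : (2 : ℝ) ^ (P + n + (2 * c₂ + 2 * n + h + 6) + w + 1) ≤ 2 ^ (Ct * T) := pw hw
    rw [pow_succ] at a8
    linarith
  -- the boxes
  obtain ⟨s₁, hs₁⟩ : ∃ s₁ : ℝ, s₁ = 2 ^ z * (ζ₁ / 2 ^ a) := ⟨_, rfl⟩
  obtain ⟨s₂, hs₂⟩ : ∃ s₂ : ℝ, s₂ = 2 ^ z * (ζ₂ / 2 ^ a) := ⟨_, rfl⟩
  have hs10 : 0 ≤ s₁ := by rw [hs₁]; positivity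
  have hs20 : 0 ≤ s₂ := by rw [hs₂]; positivity
  have hs1g : s₁ ≤ 2 ^ z / 2 ^ g 1 := by
    rw [hs₁, div_eq_mul_one_div ((2 : ℝ) ^ z)]
    refine mul_le_mul_of_nonneg_left ?_ (by positivity)
    rw [div_le_div_iff₀ (by positivity) (by positivity), one_mul]
    rw [le_div_iff₀ (by positivity)] at hζ₁
    exact hζ₁
  have hs2g : s₂ ≤ 2 ^ z / 2 ^ g 2 := by
    rw [hs₂, div_eq_mul_one_div ((2 : ℝ) ^ z)]
    refine mul_le_mul_of_nonneg_left ?_ (by positivity)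
    rw [div_le_div_iff₀ (by positivity) (by positivity), one_mul]
    rw [le_div_iff₀ (by positivity)] at hζ₂
    exact hζ₂
  obtain ⟨Bx, hBx⟩ : ∃ Bx : (Option (Fin m) → ℝ) → Prop, Bx = fun b =>
    |b none - F.t ω| ≤ 1 / 2 ^ a ∧ ∀ l < 4, |b (some (c l)) - eval b (Gw l)| ≤ 2 ^ n / 2 ^ g l :=
    ⟨_, rfl⟩
  have d0 : ∀ b s', eval (mvp vv s' b) (Gw 0) = eval b (Gw 0) := fun b s' =>
    hGp 0 _ _ (mvp_none _ _ _) fun k hk => absurd hk (Nat.not_lt_zero k)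
  have d1 : ∀ b s', eval (mvp vv s' b) (Gw 1) = eval b (Gw 1) := fun b s' =>
    hGp 1 _ _ (mvp_none _ _ _) fun k hk => by
      have : k = 0 := by omega
      subst this
      rw [mvp_some, hv0, mul_zero, add_zero]
  have box2 : ∀ b, Bx b → ∀ s', |s'| ≤ s₁ → ∀ l < 2,
      |mvp vv s' b (some (c l)) - eval (mvp vv s' b) (Gw l)| ≤ 2 ^ n' / 2 ^ g l := by
    intro b hb s' hs' l hl
    rw [hBx] at hb
    obtain ⟨hb0, hbl⟩ := hb
    have hs'1 := hs'.trans hs1g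
    rcases Nat.lt_or_ge l 1 with h4 | h4
    · have : l = 0 := by omega
      subst this
      rw [d0, mvp_some, hv0, mul_zero, add_zero]
      exact (hbl 0 (by norm_num)).trans (div_le_div_of_nonneg_right (pw (by omega))
        (by positivity))
    · have : l = 1 := by omega
      subst this
      rw [d1, mvp_some, hv1, mul_one]
      have e4 : b (some (c 1)) + s' - eval b (Gw 1) = (b (some (c 1)) - eval b (Gw 1)) + s' := by
        ring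
      rw [e4]
      refine (abs_add_le _ _).trans ((add_le_add (hbl 1 (by norm_num)) hs'1).trans ?_)
      rw [← add_div]
      refine div_le_div_of_nonneg_right ?_ (by positivity)
      have g1 : (2 : ℝ) ^ n ≤ 2 ^ (n + z) := pw (by omega)
      have g2 : (2 : ℝ) ^ z ≤ 2 ^ (n + z) := pw (by omega)
      rw [hn', pow_succ]
      linarith
  have hinj : ∀ i ≤ 4, Set.InjOn c (Set.Iio i) := fun i hi => hc.mono (by
    intro y hy
    rw [Set.mem_Iio] at hy ⊢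
    omega)
  obtain ⟨K₂, hK₂⟩ : ∃ K₂ : ℝ, K₂ = 2 ^ (c₀ + n' * D₁) * (2 ^ y * 2 ^ g 1 / 2 ^ g 2) := ⟨_, rfl⟩
  have hK20 : 0 ≤ K₂ := by rw [hK₂]; positivity
  have mv2 : ∀ b, Bx b → ∀ s', |s'| ≤ s₁ →
      |eval (mvp vv s' b) (Gw 2) - eval b (Gw 2) - vv (c 2) * s'| ≤ K₂ * |s'| := by
    intro b hb s' hs'
    refine meanv vv b (Gw 2) (x := vv (c 2)) (Y := K₂) (s := s') fun s'' hs'' => ?_
    have h3 := hdil (c := c) (i := 2) (G := Gw)
      (Q := dir vv (Gw 2) - C (vv (c 2))) (g := g) (a := a) (t := F.t ω)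
      (M := 2 ^ y * 2 ^ g 1 / 2 ^ g 2) n'
      (by norm_num) (hinj 2 (by norm_num)) hGd hGp (fun b b' hn hb => by
        rw [map_sub, map_sub, eval_C, eval_C, dir_dep _ (hGp 2) b b' hn hb])
      ((totalDegree_sub _ _).trans (max_le (dir_deg _ (hGd 2)) (by
        rw [totalDegree_C]; exact Nat.zero_le _))) (by positivity) (fun b hb => by
        rw [map_sub, eval_C, hvv, hGw]
        rw [hGw] at hb
        exact hshr ω hω b hb) (mvp vv s'' b) (by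
        rw [mvp_none]
        rw [hBx] at hb
        exact hb.1) (box2 b hb s'' (hs''.trans hs'))
    rw [map_sub, eval_C, ← hK₂] at h3
    exact h3
  have hKs : K₂ * s₁ ≤ 2 ^ u / 2 ^ g 2 := by
    calc K₂ * s₁ ≤ K₂ * (2 ^ z / 2 ^ g 1) := mul_le_mul_of_nonneg_left hs1g hK20
      _ = 2 ^ u / 2 ^ g 2 := by
          rw [hK₂, hu, show c₀ + n' * D₁ + y + z = (c₀ + n' * D₁) + (y + z) by omega,
            pow_add _ (c₀ + n' * D₁) (y + z), pow_add _ y z]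
          field_simp
  have box3 : ∀ b, Bx b → ∀ s' s'', |s'| ≤ s₁ → |s''| ≤ s₂ → ∀ l < 3,
      |mvp (ek (c 2)) s'' (mvp vv s' b) (some (c l)) -
        eval (mvp (ek (c 2)) s'' (mvp vv s' b)) (Gw l)| ≤ 2 ^ n'' / 2 ^ g l := by
    intro b hb s' s'' hs' hs'' l hl
    have hb' := hb
    rw [hBx] at hb'
    obtain ⟨hb0, hbl⟩ := hb'
    have hn12 : n' ≤ n'' := by omega
    rcases Nat.lt_or_ge l 2 with h4 | h4
    · have e3 : eval (mvp (ek (c 2)) s'' (mvp vv s' b)) (Gw l) = eval (mvp vv s' b) (Gw l) :=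
        hGp l _ _ (mvp_none _ _ _) fun k hk => by
          rw [mvp_some, ek_ne (hcne k 2 (by omega) (by norm_num) (by omega)), mul_zero, add_zero]
      rw [e3, mvp_some, ek_ne (hcne l 2 (by omega) (by norm_num) (by omega)), mul_zero, add_zero]
      exact (box2 b hb s' hs' l h4).trans (div_le_div_of_nonneg_right (pw hn12) (by positivity))
    · have : l = 2 := by omega
      subst this
      have e3 : eval (mvp (ek (c 2)) s'' (mvp vv s' b)) (Gw 2) = eval (mvp vv s' b) (Gw 2) :=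
        hGp 2 _ _ (mvp_none _ _ _) fun k hk => by
          rw [mvp_some, ek_ne (hcne k 2 (by omega) (by norm_num) (by omega)), mul_zero, add_zero]
      rw [e3, mvp_some, ek_self, mul_one, mvp_some]
      have e4 : b (some (c 2)) + s' * vv (c 2) + s'' - eval (mvp vv s' b) (Gw 2) =
          (b (some (c 2)) - eval b (Gw 2)) -
            (eval (mvp vv s' b) (Gw 2) - eval b (Gw 2) - vv (c 2) * s') + s'' := by ring
      rw [e4]
      have h5 := (mv2 b hb s' hs').trans (mul_le_mul_of_nonneg_left hs' hK20)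
      refine (abs_add_le _ _).trans ((add_le_add ((abs_sub _ _).trans
        (add_le_add (hbl 2 (by norm_num)) (h5.trans hKs))) (hs''.trans hs2g)).trans ?_)
      rw [← add_div, ← add_div]
      refine div_le_div_of_nonneg_right ?_ (by positivity)
      have g1 : (2 : ℝ) ^ n ≤ 2 ^ (n + u + z) := pw (by omega)
      have g2 : (2 : ℝ) ^ z ≤ 2 ^ (n + u + z) := pw (by omega)
      have g3 : (2 : ℝ) ^ u ≤ 2 ^ (n + u + z) := pw (by omega)
      have g4 : (0 : ℝ) < 2 ^ (n + u + z) := by positivity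
      rw [hn'', pow_add _ (n + u + z) 2]
      norm_num
      linarith
  -- the lines are in the box
  have hline : ∀ (j : Fin (D + 1)) (t : ℝ), -rt F a (ν j) ≤ t → t ≤ 1 - rt F a (ν j) →
      |t| ≤ 1 ∧ Bx (x + t • V j) := by
    intro j t h0 h1
    have ht1 : |t| ≤ 1 := by
      have := rt_mem F a (ν j)
      exact abs_le.2 ⟨by linarith [this.2], by linarith [this.1]⟩
    refine ⟨ht1, ?_⟩
    rw [hBx]
    refine ⟨?_, fun l hl => ?_⟩
    · have hbn : (x + t • V j) none - F.t ω = t * (1 / 2 ^ a) := by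
        rw [Pi.add_apply, Pi.smul_apply, hV, smul_eq_mul]
        show x none + t * vl F a (ν j) none - F.t ω = _
        rw [vl_none, hx]
        show F.t ω + t * (1 / 2 ^ a) - F.t ω = _
        ring
      rw [hbn, abs_mul, abs_of_pos (show (0 : ℝ) < 1 / 2 ^ a by positivity)]
      calc |t| * (1 / 2 ^ a) ≤ 1 * (1 / 2 ^ a) := mul_le_mul_of_nonneg_right ht1 (by positivity)
        _ = _ := one_mul _
    · rw [hV]
      exact hpath (ν j) (hν1 j).1 (hν1 j).2 t h0 h1 l hl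
  obtain ⟨z₁, hz₁⟩ : ∃ z₁ : Fin (D + 1) → ℝ, z₁ = fun j => V j (some (c 1)) -
      U₀ (some (c 1)) - η j * U₁ (some (c 1)) := ⟨_, rfl⟩
  obtain ⟨z₂, hz₂⟩ : ∃ z₂ : Fin (D + 1) → ℝ, z₂ = fun j => (V j (some (c 2)) -
      U₀ (some (c 2)) - η j * U₁ (some (c 2))) - vv (c 2) * z₁ j := ⟨_, rfl⟩
  have hz1b : ∀ j, |z₁ j| ≤ s₁ := by
    intro j
    rw [hz₁, hV, hη', hs₁]
    exact hz1 (ν j) (hν1 j).1 (hν1 j).2
  have hz2b : ∀ j, |z₂ j| ≤ s₂ := by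
    intro j
    rw [hz₂, hz₁, hV, hη', hs₂]
    exact hz2 (ν j) (hν1 j).1 (hν1 j).2
  have hmulb : ∀ {t w s : ℝ}, |t| ≤ 1 → |w| ≤ s → 0 ≤ s → |-(t * w)| ≤ s := by
    intro t w s ht hw hs
    rw [abs_neg, abs_mul]
    calc |t| * |w| ≤ 1 * s := mul_le_mul ht hw (abs_nonneg _) (by norm_num)
      _ = s := one_mul s
  have heq2 : ∀ (j : Fin (D + 1)) (t : ℝ), eval (x + t • (U₀ + η j • U₁)) (Gw 2) =
      eval (mvp vv (-(t * z₁ j)) (x + t • V j)) (Gw 2) := by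
    intro j t
    refine hGp 2 _ _ ?_ fun k hk => ?_
    · rw [hpt0, mvp_none]
    · rcases Nat.lt_or_ge k 1 with h2 | h2
      · have : k = 0 := by omega
        subst this
        rw [hpt1, mvp_some, hv0, mul_zero, add_zero]
      · have : k = 1 := by omega
        subst this
        rw [mvp_some, hv1, mul_one, hz₁]
        simp only [Pi.add_apply, Pi.smul_apply, smul_eq_mul]
        ring
  have heq3 : ∀ (j : Fin (D + 1)) (t : ℝ), eval (x + t • (U₀ + η j • U₁)) (Gw 3) =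
      eval (mvp (ek (c 2)) (-(t * z₂ j)) (mvp vv (-(t * z₁ j)) (x + t • V j))) (Gw 3) := by
    intro j t
    refine hGp 3 _ _ ?_ fun k hk => ?_
    · rw [hpt0, mvp_none, mvp_none]
    · rcases Nat.lt_or_ge k 1 with h2 | h2
      · have : k = 0 := by omega
        subst this
        rw [hpt1, mvp_some, ek_ne hc02, mul_zero, add_zero, mvp_some, hv0, mul_zero, add_zero]
      · rcases Nat.lt_or_ge k 2 with h3 | h3
        · have : k = 1 := by omega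
          subst this
          rw [mvp_some, ek_ne hc12, mul_zero, add_zero, mvp_some, hv1, mul_one, hz₁]
          simp only [Pi.add_apply, Pi.smul_apply, smul_eq_mul]
          ring
        · have : k = 2 := by omega
          subst this
          rw [mvp_some, ek_self, mul_one, mvp_some, hz₂]
          simp only [Pi.add_apply, Pi.smul_apply, smul_eq_mul]
          ring
  constructor
  · intro l hl
    rcases Nat.lt_or_ge l 2 with h4 | h4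
    · refine (key l (by omega) (fun _ => 0) 0 (fun j t _ _ => by
        rw [hdepl l h4, mul_zero, sub_self, sub_zero, abs_zero])).trans ?_
      have h5 := hnat l 0 (by omega)
      simpa using h5
    · have : l = 2 := by omega
      subst this
      refine (key 2 (by norm_num) (fun j => -(z₁ j) * vv (c 2)) (2 ^ u / 2 ^ g 2)
        (fun j t h0 h1 => by
          obtain ⟨ht1, hbx⟩ := hline j t h0 h1
          rw [heq2]
          have h5 := mv2 _ hbx (-(t * z₁ j)) (hmulb ht1 (hz1b j) hs10)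
          have e5 : eval (mvp vv (-(t * z₁ j)) (x + t • V j)) (Gw 2) - eval (x + t • V j) (Gw 2) -
              t * (-(z₁ j) * vv (c 2)) = eval (mvp vv (-(t * z₁ j)) (x + t • V j)) (Gw 2) -
              eval (x + t • V j) (Gw 2) - vv (c 2) * (-(t * z₁ j)) := by ring
          rw [e5]
          exact (h5.trans (mul_le_mul_of_nonneg_left (hmulb ht1 (hz1b j) hs10) hK20)).trans
            hKs)).trans ?_
      refine le_trans ?_ (hnat 2 (u + 1) (by omega))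
      refine add_le_add ?_ le_rfl
      refine mul_le_mul_of_nonneg_left ?_ (by positivity)
      refine add_le_add le_rfl (div_le_div_of_nonneg_right ?_ (by positivity))
      have a2 : (1 : ℝ) ≤ 2 ^ u := one_le_pow₀ (by norm_num)
      rw [pow_succ]
      linarith
  · -- the target
    have hEpt : ∃ b : Option (Fin m) → ℝ, NBx c (G (ptr F J ω)) g a (F.t ω) 3 b := by
      obtain ⟨b, h2, h3⟩ := pt_adapt (hinj 3 (by norm_num)) hGp (F.t ω) (fun _ => 0) 3 le_rfl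
      refine ⟨b, by rw [h2, sub_self, abs_zero]; positivity, fun l hl => ?_⟩
      rw [← hGw, h3 l hl, add_zero, sub_self, abs_zero]
      positivity
    obtain ⟨b₀, hb₀⟩ := hEpt
    have hE10 : 0 ≤ E₁ := (abs_nonneg _).trans (hal1 ω hω b₀ hb₀)
    have hE20 : 0 ≤ E₂ := (abs_nonneg _).trans (hal2 ω hω b₀ hb₀)
    obtain ⟨W, hW⟩ : ∃ W : ℝ, W = 2 ^ (c₀ + n'' * D₁) := ⟨_, rfl⟩
    have hW0 : 0 ≤ W := by rw [hW]; positivity
    have hdir : ∀ (w : Fin m → ℝ) (al E : ℝ), 0 ≤ E →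
        (∀ b, NBx c (G (ptr F J ω)) g a (F.t ω) 3 b → |eval b (dir w (Gw 3)) - al| ≤ E) →
        ∀ b, Bx b → ∀ s' s'', |s'| ≤ s₁ → |s''| ≤ s₂ →
          |eval (mvp (ek (c 2)) s'' (mvp vv s' b)) (dir w (Gw 3)) - al| ≤ W * E := by
      intro w al E hE hwE b hb s' s'' hs' hs''
      have h3 := hdil (c := c) (i := 3) (G := Gw)
        (Q := dir w (Gw 3) - C al) (g := g) (a := a) (t := F.t ω) (M := E) n''
        (by norm_num) (hinj 3 (by norm_num)) hGd hGp (fun b b' hn hb => by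
          rw [map_sub, map_sub, eval_C, eval_C, dir_dep _ (hGp 3) b b' hn hb])
        ((totalDegree_sub _ _).trans (max_le (dir_deg _ (hGd 3)) (by
          rw [totalDegree_C]; exact Nat.zero_le _))) hE (fun b hb => by
          rw [map_sub, eval_C]
          rw [hGw] at hb
          exact hwE b hb) (mvp (ek (c 2)) s'' (mvp vv s' b)) (by
          rw [mvp_none, mvp_none]
          rw [hBx] at hb
          exact hb.1) (box3 b hb s' s'' hs' hs'')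
      rw [map_sub, eval_C, ← hW] at h3
      exact h3
    have hdir1 := hdir vv (al₁ (ptr F J ω)) E₁ hE10 (fun b hb => by
      rw [hvv, hGw]
      exact hal1 ω hω b hb)
    have hdir2 := hdir (ek (c 2)) (al₂ (ptr F J ω)) E₂ hE20 (fun b hb => by
      rw [hGw]
      exact hal2 ω hω b hb)
    have hmain := key 3 (by norm_num)
      (fun j => -(z₁ j) * al₁ (ptr F J ω) + -(z₂ j) * al₂ (ptr F J ω))
      (W * E₁ * s₁ + W * E₂ * s₂)
      (fun j t h0 h1 => by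
        obtain ⟨ht1, hbx⟩ := hline j t h0 h1
        obtain ⟨b, hb⟩ : ∃ b, b = x + t • V j := ⟨_, rfl⟩
        obtain ⟨r₁, hr₁⟩ : ∃ r, r = -(t * z₁ j) := ⟨_, rfl⟩
        obtain ⟨r₂, hr₂⟩ : ∃ r, r = -(t * z₂ j) := ⟨_, rfl⟩
        have hr1 : |r₁| ≤ s₁ := by rw [hr₁]; exact hmulb ht1 (hz1b j) hs10
        have hr2 : |r₂| ≤ s₂ := by rw [hr₂]; exact hmulb ht1 (hz2b j) hs20
        rw [heq3, ← hr₁, ← hr₂]
        rw [← hb] at hbx ⊢
        have m1 := meanv vv b (Gw 3) (x := al₁ (ptr F J ω)) (Y := W * E₁) (s := r₁)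
          (fun s' hs' => by
            have h5 := hdir1 b hbx s' 0 (hs'.trans hr1) (by rw [abs_zero]; exact hs20)
            rwa [mvp_zero] at h5)
        have m2 := meanv (ek (c 2)) (mvp vv r₁ b) (Gw 3) (x := al₂ (ptr F J ω)) (Y := W * E₂)
          (s := r₂) (fun s' hs' => hdir2 b hbx r₁ s' hr1 (hs'.trans hr2))
        have e5 : eval (mvp (ek (c 2)) r₂ (mvp vv r₁ b)) (Gw 3) - eval b (Gw 3) -
            t * (-(z₁ j) * al₁ (ptr F J ω) + -(z₂ j) * al₂ (ptr F J ω)) =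
            (eval (mvp vv r₁ b) (Gw 3) - eval b (Gw 3) - al₁ (ptr F J ω) * r₁) +
            (eval (mvp (ek (c 2)) r₂ (mvp vv r₁ b)) (Gw 3) - eval (mvp vv r₁ b) (Gw 3) -
              al₂ (ptr F J ω) * r₂) := by
          rw [hr₁, hr₂]
          ring
        rw [e5]
        exact (abs_add_le _ _).trans (add_le_add
          (m1.trans (mul_le_mul_of_nonneg_left hr1 (by positivity)))
          (m2.trans (mul_le_mul_of_nonneg_left hr2 (by positivity)))))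
    refine hmain.trans ?_
    have e6 : W * E₁ * s₁ + W * E₂ * s₂ =
        2 ^ (c₀ + n'' * D₁ + z) * (ζ₁ / 2 ^ a * E₁ + ζ₂ / 2 ^ a * E₂) := by
      rw [hW, hs₁, hs₂, pow_add _ (c₀ + n'' * D₁) z]
      ring
    have e7 : (2 : ℝ) ^ P * (2 ^ n / 2 ^ g 3 + (W * E₁ * s₁ + W * E₂ * s₂)) +
        2 ^ (2 * c₂ + 2 * n + h + 6) / 2 ^ g 3 =
        (2 ^ P * (2 ^ n / 2 ^ g 3) + 2 ^ (2 * c₂ + 2 * n + h + 6) / 2 ^ g 3) +
        2 ^ (P + (c₀ + n'' * D₁ + z)) * (ζ₁ / 2 ^ a * E₁ + ζ₂ / 2 ^ a * E₂) := by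
      rw [e6, pow_add _ P]
      ring
    rw [e7]
    have e8 : (2 : ℝ) ^ (Ct * T) * (1 / 2 ^ g 3 + ζ₁ / 2 ^ a * E₁ + ζ₂ / 2 ^ a * E₂) =
        2 ^ (Ct * T) / 2 ^ g 3 +
        2 ^ (Ct * T) * (ζ₁ / 2 ^ a * E₁ + ζ₂ / 2 ^ a * E₂) := by ring
    rw [e8]
    refine add_le_add ?_ ?_
    · have h5 := hnat 3 0 (by omega)
      simpa using h5
    · exact mul_le_mul_of_nonneg_right (pw (by omega)) (by positivity)

end Pool.NVX
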