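import Pool.Agent.H23.D2.Fam
import Pool.Agent.H87.GEN.Cbr
import Pool.Agent.H87.GEN.Vld
import Pool.Agent.H31.F5.Plane
import Pool.Agent.H46.D2.Tri3

/-!
# The derivative in a closed direction on the natural box

`box_dir`: at a node without relations the derivative of the label in a closed direction is almost
constant on the natural box of the sample, if it varies by at most `V` along the line in one window;
the variation enters linearly, and the constant is visible.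
-/

set_option autoImplicit false

namespace Pool.NVX

open Finset Real MvPolynomial
open Pool.Agent.H49.Ent Pool.Agent.H32.Dense Pool.STK Pool.KA Pool.KSAT Pool.K2S Pool.PB Pool.S6C
open Pool.GEN Pool.CHT
open Pool.D2R (dd hs)
open Pool.SHR (dir mvp RelvH Shr)

variable {m J : ℕ}

/-- [B1] **The derivative in a closed direction is almost constant on the natural box**, if it
varies by at most `V` along the line: the variation enters linearly. -/
theorem box_dir (D r : ℕ) : ∃ C : ℕ, ∀ {m J : ℕ} {F : Fam m J} {c : ℕ → Fin m}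
    {l i a w e h σ y : ℕ} {g Y : ℕ → ℕ} {κ V : ℝ} {B₀ B' : F.Ω → Prop}
    {G : PtT F → ℕ → MvPolynomial (Option (Fin m)) ℝ}
    {H : LnT F → ℕ → MvPolynomial (Option (Fin m)) ℝ}
    {v : PtT F → Fin m → ℝ} {v' : LnT F → Fin m → ℝ}, i < r → l < i →
    Set.InjOn c (Set.Iio (i + 1)) → RelvH F c i a w g Y D h κ B₀ G → Sub B' B₀ → 0 ≤ κ →
    κ * Pe F.p B₀ ≤ Pe F.p B' → ChOK F c (i + 1) (fun _ => D) a w e g B' G H → 0 ≤ V →
    (∀ ω ω', B' ω → B' ω' → slam F w ω = slam F w ω' →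
      |eval (bt F ω) (dir (v (ptr F J ω)) (H (slam F w ω) i)) -
        eval (bt F ω') (dir (v (ptr F J ω)) (H (slam F w ω) i))| ≤ V) →
    (∀ j < i, Y j ≤ J) → (∀ j < i + 1, e + g j + σ + C ≤ J) → h + C ≤ σ →
    (∀ ω, B' ω → v (ptr F J ω) = v' (slam F w ω)) →
    (∀ ω, B' ω → v (ptr F J ω) (c l) = 1 ∧ ∀ j < l, v (ptr F J ω) (c j) = 0) →
    (∀ ω, B' ω → ∀ j < i, l < j → Shr F c l a g G v y j ω) →
    ∃ (B : F.Ω → Prop) (x : PtT F → ℝ), Sub B B' ∧ Pe F.p B' / 2 ≤ Pe F.p B ∧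
      ∀ ω, B ω → ∀ b, NBx c (G (ptr F J ω)) g a (F.t ω) i b →
        |eval b (dir (v (ptr F J ω)) (G (ptr F J ω) i)) - x (ptr F J ω)| ≤
          2 ^ (C * (h + y + 1)) * (2 ^ g l / 2 ^ g i + V) := by
  classical
  obtain ⟨C₂, hcmp⟩ := Pool.SHR.slp_cmp D r
  obtain ⟨c₃, hscl⟩ := Pool.ISO.scl r D (fun _ => D)
  obtain hcell := fun r' : ℕ => near_cell r' (fun _ => D)
  choose c₄ hcell using hcell
  obtain ⟨c₅, hc₅⟩ : ∃ c₅, c₅ = ∑ x ∈ range (r + 1), c₄ x := ⟨_, rfl⟩
  have hc45 : ∀ x ≤ r, c₄ x ≤ c₅ := by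
    intro x hx
    rw [hc₅]
    exact Finset.single_le_sum (f := fun x => c₄ x) (fun x _ => Nat.zero_le _)
      (mem_range.2 (Nat.lt_succ_of_le hx))
  refine ⟨c₅ + c₃ + C₂ + 4, ?_⟩
  intro m J F c l i a w e h σ y g Y κ V B₀ B' G H v v' hi hli hc hR hB' hκ0 hP hL hV0 hV hY hJ hσ
    hv hv1 hy
  have hci : Set.InjOn c (Set.Iio i) := hc.mono (Set.Iio_subset_Iio (Nat.le_succ i))
  obtain ⟨nat, hnat⟩ : ∃ nat : ℝ, nat = 2 ^ g l / 2 ^ g i := ⟨_, rfl⟩
  have hnat0 : 0 < nat := by rw [hnat]; positivity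
  -- the two sides
  obtain ⟨P, hPd⟩ : ∃ P : PtT F → MvPolynomial (Option (Fin m)) ℝ,
      P = fun p => dir (v p) (G p i) := ⟨_, rfl⟩
  obtain ⟨al, hal⟩ : ∃ al : PtT F → ℝ, al = fun p => eval (bho J J p) (P p) := ⟨_, rfl⟩
  obtain ⟨be, hbe⟩ : ∃ be : LnT F → ℝ, be = fun s =>
      if h : ∃ ω, B' ω ∧ slam F w ω = s then eval (bt F h.choose) (dir (v' s) (H s i))
      else 0 := ⟨_, rfl⟩
  have hbeta : ∀ ω, B' ω → |eval (bt F ω) (dir (v (ptr F J ω)) (H (slam F w ω) i)) -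
      be (slam F w ω)| ≤ V := by
    intro ω hω
    have hex : ∃ ω', B' ω' ∧ slam F w ω' = slam F w ω := ⟨ω, hω, rfl⟩
    have h1 := hex.choose_spec
    have h2 := hV ω hex.choose hω h1.1 h1.2.symm
    rw [hbe]
    show |_ - (if h : ∃ ω', B' ω' ∧ slam F w ω' = slam F w ω then
      eval (bt F h.choose) (dir (v' (slam F w ω)) (H (slam F w ω) i)) else 0)| ≤ _
    rw [dif_pos hex, ← hv ω hω]
    exact h2
  -- the agreement of the two sides
  have hagr : ∀ ω, B' ω → ∀ b, NBx c (G (ptr F J ω)) g a (F.t ω) i b →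
      |eval b (P (ptr F J ω)) - eval b (dir (v (ptr F J ω)) (H (slam F w ω) i))| ≤
        2 ^ (C₂ * (y + 1)) * nat := by
    intro ω hω b hb
    have h1 := hcmp (c := c) (l := l) (i := i) (a := a) (k := 0) (y := y) (p := g i) (g := g)
      (G := G) (v := v) (P := G (ptr F J ω) i - H (slam F w ω) i) (ω := ω) (b := b) hi hci
      hL.degG hL.depG (fun b b' hn hb => by
        rw [map_sub, map_sub, hL.depG _ i b b' hn hb, hL.depH _ i b b' hn hb])
      ((totalDegree_sub _ _).trans (max_le (hL.degG _ i) (hL.degH _ i))) (hv1 ω hω).1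
      (hv1 ω hω).2 (fun j hj hlj => hy ω hω j hj hlj) hb (fun b hb => by
        rw [map_sub, pow_zero]
        exact hL.agr ω hω i (Nat.lt_succ_self i) b hb)
    rw [Pool.SHR.dir_sub, map_sub, zero_add, mul_div_assoc, ← hnat] at h1
    rw [hPd]
    exact h1
  obtain ⟨A, hA⟩ : ∃ A : ℝ, A = 2 * (2 ^ (C₂ * (y + 1)) * nat) + V := ⟨_, rfl⟩
  have hag0 : 0 < 2 ^ (C₂ * (y + 1)) * nat := by positivity
  have hA0 : 0 < A := by rw [hA]; linarith
  have hsum : 2 * (2 ^ (C₂ * (y + 1)) * nat) + V ≤ A := hA.ge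
  obtain ⟨ρ, hρ⟩ : ∃ ρ : F.Ω → ℝ, ρ = fun ω =>
      |eval (bt F ω) (P (ptr F J ω)) - al (ptr F J ω)| := ⟨_, rfl⟩
  have hρ0 : ∀ ω, 0 ≤ ρ ω := fun ω => by rw [hρ]; exact abs_nonneg _
  have hab : ∀ ω, B' ω → |al (ptr F J ω) - be (slam F w ω)| ≤
      ρ ω + 2 ^ (C₂ * (y + 1)) * nat + V := by
    intro ω hω
    have h1 := hbeta ω hω
    have h2 := hagr ω hω _ (hL.self hω (Nat.le_succ i))
    have h3 : ρ ω = |al (ptr F J ω) - eval (bt F ω) (P (ptr F J ω))| := by
      rw [hρ]; exact abs_sub_comm _ _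
    have h4 := abs_sub_le (al (ptr F J ω)) (eval (bt F ω) (P (ptr F J ω)))
      (be (slam F w ω))
    have h5 := abs_sub_le (eval (bt F ω) (P (ptr F J ω)))
      (eval (bt F ω) (dir (v (ptr F J ω)) (H (slam F w ω) i))) (be (slam F w ω))
    linarith
  have hnear : ∀ ω k, |((F.X J ω k : ℤ) : ℝ) / 2 ^ J - F.x ω k| ≤ 1 / 2 ^ J := fun ω k =>
    Pool.PB.Trl.x_near F J ω k
  have hPdeg : ∀ p, (P p).totalDegree ≤ D := fun p => by
    rw [hPd]; exact Pool.SHR.dir_deg _ (hL.degG p i)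
  have hPdep : ∀ p, DepC c i (P p) := fun p => by
    rw [hPd]; exact Pool.SHR.dir_dep _ (hL.depG p i)
  obtain ⟨B₂, l1, l2, l3⟩ := hR B' hB' hP
    (fun p => P p - C (al p)) (fun s => dir (v' s) (H s i) - C (be s)) (fun ω => A + ρ ω)
    (fun ω => bho J J (ptr F J ω))
    (fun p => (totalDegree_sub _ _).trans (max_le (hPdeg p) (by
      rw [totalDegree_C]; exact Nat.zero_le _)))
    (fun s => (totalDegree_sub _ _).trans (max_le (Pool.SHR.dir_deg _ (hL.degH s i)) (by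
      rw [totalDegree_C]; exact Nat.zero_le _)))
    (fun p b b' hn hb => by
      rw [map_sub, map_sub, eval_C, eval_C, hPdep p b b' hn hb])
    (fun s b b' hn hb => by
      rw [map_sub, map_sub, eval_C, eval_C, Pool.SHR.dir_dep (v' s) (hL.depH s i) b b' hn hb])
    (fun ω _ => by linarith [hρ0 ω]) (fun ω _ => ⟨rfl, fun j hj => by
      refine (hnear ω (c j)).trans (inv_mono (hY j hj))⟩)
    (fun ω _ => by
      have e1 : eval (bho J J (ptr F J ω)) (P (ptr F J ω) - C (al (ptr F J ω))) = 0 := by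
        rw [map_sub, eval_C, hal, sub_self]
      rw [e1, abs_zero]
      linarith [hρ0 ω])
    (fun ω hω b hb => by
      have h1 := hagr ω hω b hb
      have h2 := hab ω hω
      rw [map_sub, map_sub, eval_C, eval_C, ← hv ω hω]
      have e1 : eval b (P (ptr F J ω)) - al (ptr F J ω) -
          (eval b (dir (v (ptr F J ω)) (H (slam F w ω) i)) - be (slam F w ω)) =
          (eval b (P (ptr F J ω)) - eval b (dir (v (ptr F J ω)) (H (slam F w ω) i))) -
            (al (ptr F J ω) - be (slam F w ω)) := by ring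
      rw [e1]
      have h3 := abs_sub (eval b (P (ptr F J ω)) -
        eval b (dir (v (ptr F J ω)) (H (slam F w ω) i))) (al (ptr F J ω) - be (slam F w ω))
      linarith)
  -- the value at the sample is near the value at the rounded point
  have hρA : ∀ ω, B₂ ω → ρ ω ≤ A := by
    intro ω hω
    have hω' := l1 ω hω
    have hself := hL.self hω' (Nat.le_succ i)
    obtain ⟨hc1, -⟩ : (∀ j < i, |bho J J (ptr F J ω) (some (c j)) -
        eval (bho J J (ptr F J ω)) (G (ptr F J ω) j)| ≤ 4 / 2 ^ g j) ∧ True := ⟨fun j hj =>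
      (hcell (i + 1) (x := bt F ω) (v := σ) (e := e) (J := J) (g := g) (a := a)
        (G := G (ptr F J ω)) hc (hL.degG _) (hL.depG _) (fun j hj => hL.pos ω hω' j hj)
        (fun j hj b hb => hL.lip ω hω' j hj b hb) (fun j hj => by
          have h1 := hJ j hj
          have h2 := hc45 (i + 1) (by omega)
          omega) i (by omega) (bho J J (ptr F J ω)) rfl (fun j _ => hnear ω (c j))).1 j hj,
      trivial⟩
    have h2 : ∀ j < i, |(bho J J (ptr F J ω) (some (c j)) -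
        eval (bho J J (ptr F J ω)) (G (ptr F J ω) j)) -
        (bt F ω (some (c j)) - eval (bt F ω) (G (ptr F J ω) j))| ≤ 2 ^ 0 / 2 ^ (g j + σ) := by
      intro j hj
      have h3 := (hcell (i + 1) (x := bt F ω) (v := σ) (e := e) (J := J) (g := g) (a := a)
        (G := G (ptr F J ω)) hc (hL.degG _) (hL.depG _) (fun j hj => hL.pos ω hω' j hj)
        (fun j hj b hb => hL.lip ω hω' j hj b hb) (fun j hj => by
          have h1 := hJ j hj
          have h2 := hc45 (i + 1) (by omega)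
          omega) j (by omega) (bho J J (ptr F J ω)) rfl (fun j _ => hnear ω (c j))).2 (by omega)
      have h4 := hnear ω (c j)
      have h5 : (1 : ℝ) / 2 ^ J ≤ 1 / 4 / 2 ^ (g j + σ) := by
        have h6 := hJ j (by omega)
        have h7 : (2 : ℝ) ^ (g j + σ + 2) ≤ 2 ^ J := pow_le_pow_right₀ (by norm_num) (by omega)
        rw [div_div, div_le_div_iff₀ (by positivity) (by positivity)]
        rw [pow_add] at h7
        linarith
      have e1 : (bho J J (ptr F J ω) (some (c j)) -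
          eval (bho J J (ptr F J ω)) (G (ptr F J ω) j)) -
          (bt F ω (some (c j)) - eval (bt F ω) (G (ptr F J ω) j)) =
          (((F.X J ω (c j) : ℤ) : ℝ) / 2 ^ J - F.x ω (c j)) -
            (eval (bho J J (ptr F J ω)) (G (ptr F J ω) j) -
              eval (bt F ω) (G (ptr F J ω) j)) := by
        have e2 : bho J J (ptr F J ω) (some (c j)) = ((F.X J ω (c j) : ℤ) : ℝ) / 2 ^ J := rfl
        have e3 : bt F ω (some (c j)) = F.x ω (c j) := rfl
        rw [e2, e3]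
        ring
      rw [e1, pow_zero]
      have h6 := abs_sub (((F.X J ω (c j) : ℤ) : ℝ) / 2 ^ J - F.x ω (c j))
        (eval (bho J J (ptr F J ω)) (G (ptr F J ω) j) - eval (bt F ω) (G (ptr F J ω) j))
      have h7 : (1 : ℝ) / 4 / 2 ^ (g j + σ) + 1 / 4 / 2 ^ (g j + σ) ≤ 1 / 2 ^ (g j + σ) := by
        have h8 : (0 : ℝ) < 1 / 2 ^ (g j + σ) := by positivity
        have h9 : (1 : ℝ) / 4 / 2 ^ (g j + σ) = 1 / 2 ^ (g j + σ) / 4 := by ring
        rw [h9]
        linarith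
      linarith
    have h3 := hscl (c := c) (i := i) (G := G (ptr F J ω))
      (Q := P (ptr F J ω) - C (al (ptr F J ω))) (g := g) (a := a) (n := 0) (v := σ)
      (M := 2 ^ h * (A + ρ ω)) (x := bt F ω) (b := bho J J (ptr F J ω)) hi hci (hL.degG _)
      (hL.depG _) (fun b b' hn hb => by
        rw [map_sub, map_sub, eval_C, eval_C, hPdep _ b b' hn hb])
      ((totalDegree_sub _ _).trans (max_le (hPdeg _) (by
        rw [totalDegree_C]; exact Nat.zero_le _)))
      (mul_nonneg (by positivity) (by linarith [hρ0 ω])) (fun b hb => l3 ω hω b hb)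
      (fun j hj => hL.pos ω hω' j (by omega)) (Nat.zero_le _) (by
        show |F.t ω - F.t ω| ≤ _
        rw [sub_self, abs_zero]
        positivity) h2
    have e1 : eval (bho J J (ptr F J ω)) (P (ptr F J ω) - C (al (ptr F J ω))) = 0 := by
      rw [map_sub, eval_C, hal, sub_self]
    have e2 : |eval (bho J J (ptr F J ω)) (P (ptr F J ω) - C (al (ptr F J ω))) -
        eval (bt F ω) (P (ptr F J ω) - C (al (ptr F J ω)))| = ρ ω := by
      rw [e1, zero_sub, abs_neg, map_sub, eval_C, hρ]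
    rw [e2] at h3
    have h4 : (2 : ℝ) ^ (c₃ + 0) / 2 ^ σ * (2 ^ h * (A + ρ ω)) ≤ 1 / 2 * (A + ρ ω) := by
      have h5 : (2 : ℝ) ^ (c₃ + 0) / 2 ^ σ * 2 ^ h ≤ 1 / 2 := by
        rw [div_mul_eq_mul_div, ← pow_add, div_le_div_iff₀ (by positivity) (by norm_num), one_mul,
          ← pow_succ]
        exact pow_le_pow_right₀ (by norm_num) (by omega)
      rw [← mul_assoc]
      exact mul_le_mul_of_nonneg_right h5 (by linarith [hρ0 ω])
    linarith
  refine ⟨B₂, al, l1, l2, fun ω hω b hb => ?_⟩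
  have h1 := l3 ω hω b hb
  rw [map_sub, eval_C] at h1
  have h2 := hρA ω hω
  have hexp : (2 : ℝ) ^ h * (2 * (2 ^ (C₂ * (y + 1)) * 2)) ≤
      2 ^ ((c₅ + c₃ + C₂ + 4) * (h + y + 1)) := by
    have e1 : (2 : ℝ) ^ h * (2 * (2 ^ (C₂ * (y + 1)) * 2)) = 2 ^ (h + C₂ * (y + 1) + 2) := by
      rw [pow_add, pow_add]; ring
    rw [e1]
    refine pow_le_pow_right₀ (by norm_num) ?_
    have h3 : C₂ * (y + 1) ≤ C₂ * (h + y + 1) := Nat.mul_le_mul_left _ (by omega)
    have h4 : (c₅ + c₃ + C₂ + 4) * (h + y + 1) = (c₅ + c₃) * (h + y + 1) + C₂ * (h + y + 1) +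
        4 * (h + y + 1) := by ring
    rw [h4]
    have h5 : 0 ≤ (c₅ + c₃) * (h + y + 1) := Nat.zero_le _
    omega
  have hone : (1 : ℝ) ≤ 2 ^ (C₂ * (y + 1)) := one_le_pow₀ (by norm_num)
  have h6 : A + ρ ω ≤ (2 * (2 ^ (C₂ * (y + 1)) * 2)) * (nat + V) := by
    have h7 : V ≤ 2 ^ (C₂ * (y + 1)) * V := le_mul_of_one_le_left hV0 hone
    have h8 : 0 ≤ 2 ^ (C₂ * (y + 1)) * V := by positivity
    rw [hA] at h2 ⊢
    nlinarith
  have h9 : (fun p => dir (v p) (G p i)) = P := hPd.symm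
  have h10 : eval b (dir (v (ptr F J ω)) (G (ptr F J ω) i)) = eval b (P (ptr F J ω)) := by
    rw [hPd]
  rw [h10, ← hnat]
  calc |eval b (P (ptr F J ω)) - al (ptr F J ω)| ≤ 2 ^ h * (A + ρ ω) := h1
    _ ≤ 2 ^ h * ((2 * (2 ^ (C₂ * (y + 1)) * 2)) * (nat + V)) :=
        mul_le_mul_of_nonneg_left h6 (by positivity)
    _ = (2 ^ h * (2 * (2 ^ (C₂ * (y + 1)) * 2))) * (nat + V) := by ring
    _ ≤ _ := mul_le_mul_of_nonneg_right hexp (by linarith)

end Pool.NVX
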