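import Pool.Agent.H39.NV.BoxDir
import Pool.Agent.H80.NV.Hcl
import Pool.Agent.H77.NV.NoAff

/-!
# A visible and closed function on the natural box

`box_gen`: a visible function which is near a closed function on the natural box, and the closed
function is almost constant along the line in one window; then the function is almost constant on
the natural box.
-/

set_option autoImplicit false

namespace Pool.NVX

open Finset Real MvPolynomial
open Pool.Agent.H49.Ent Pool.Agent.H32.Dense Pool.STK Pool.KA Pool.KSAT Pool.K2S Pool.PB Pool.S6C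
open Pool.GEN Pool.CHT
open Pool.F5 (lp deg_lp eval_lp bdS bdS_slam)
open Pool.SHR (RelvH)

variable {m J : ℕ}

/-- **A visible and closed function is almost constant on the natural box**, if the closed function
varies by at most `V` along the line in the window of the radius. The window of the node is `w`, the
radius is `a`. -/
theorem box_gen (D Dc r : ℕ) : ∃ C : ℕ, ∀ {m J : ℕ} {F : Fam m J} {c : ℕ → Fin m}
    {i a w e h σ : ℕ} {g Y : ℕ → ℕ} {κ V : ℝ} {B₀ B' : F.Ω → Prop}
    {G : PtT F → ℕ → MvPolynomial (Option (Fin m)) ℝ}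
    {H : LnT F → ℕ → MvPolynomial (Option (Fin m)) ℝ}
    {P : PtT F → MvPolynomial (Option (Fin m)) ℝ} {R : LnT F → MvPolynomial (Option (Fin m)) ℝ},
    i < r → Set.InjOn c (Set.Iio i) → RelvH F c i a w g Y D h κ B₀ G → Sub B' B₀ →
    κ * Pe F.p B₀ ≤ Pe F.p B' → ChOK F c i (fun _ => Dc) a w e g B' G H → 0 < V →
    (∀ y, (P y).totalDegree ≤ D) → (∀ s, (R s).totalDegree ≤ D) → (∀ y, DepC c i (P y)) →
    (∀ s, DepC c i (R s)) →
    (∀ ω, B' ω → ∀ b, NBx c (G (ptr F J ω)) g a (F.t ω) i b →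
      |eval b (P (ptr F J ω)) - eval b (R (slam F w ω))| ≤ V) →
    (∀ ω, B' ω → ∀ t : ℝ, |t - F.t ω| ≤ 1 / 2 ^ a →
      |eval (bt F ω + (t - F.t ω) • bd F ω) (R (slam F w ω)) - eval (bt F ω) (R (slam F w ω))| ≤
        V) →
    (∀ j < i, Y j ≤ J) → (∀ j < i, e + g j + σ + C ≤ J) → h + C ≤ σ →
    ∃ (B : F.Ω → Prop) (x : PtT F → ℝ), Sub B B' ∧ Pe F.p B' / 2 ≤ Pe F.p B ∧
      (x = fun y => eval (bho J J y) (P y)) ∧
      ∀ ω, B ω → ∀ b, NBx c (G (ptr F J ω)) g a (F.t ω) i b →
        |eval b (P (ptr F J ω)) - x (ptr F J ω)| ≤ 2 ^ (h + C) * V := by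
  classical
  obtain ⟨c₃, hscl⟩ := Pool.ISO.scl r D (fun _ => Dc)
  obtain hcell := fun r' : ℕ => near_cell r' (fun _ => Dc)
  choose c₄ hcell using hcell
  obtain ⟨c₅, hc₅⟩ : ∃ c₅, c₅ = ∑ x ∈ range (r + 1), c₄ x := ⟨_, rfl⟩
  have hc45 : ∀ x ≤ r, c₄ x ≤ c₅ := by
    intro x hx
    rw [hc₅]
    exact Finset.single_le_sum (f := fun x => c₄ x) (fun x _ => Nat.zero_le _)
      (mem_range.2 (Nat.lt_succ_of_le hx))
  refine ⟨c₅ + c₃ + 6, ?_⟩
  intro m J F c i a w e h σ g Y κ V B₀ B' G H P R hi hci hR hB' hP hL hV hPdeg hRdeg hPdep hRdep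
    hagr hvar hY hJ hσ
  have hself : ∀ ω, B' ω → NBx c (G (ptr F J ω)) g a (F.t ω) i (bt F ω) := fun ω hω =>
    hL.self hω le_rfl
  obtain ⟨al, hal⟩ : ∃ al : PtT F → ℝ, al = fun p => eval (bho J J p) (P p) := ⟨_, rfl⟩
  obtain ⟨q, hq⟩ : ∃ q : LnT F → Polynomial ℝ, q = fun s => lp (R s) (x0S s) (bdS s) := ⟨_, rfl⟩
  have hqe : ∀ ω t, (q (slam F w ω)).eval t =
      eval (bt F ω + (t - F.t ω) • bd F ω) (R (slam F w ω)) := fun ω t => by
    rw [hq]
    simp only
    rw [eval_lp, pt_slam]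
  obtain ⟨ρ, hρ⟩ : ∃ ρ : F.Ω → ℝ, ρ = fun ω =>
      |eval (bt F ω) (P (ptr F J ω)) - al (ptr F J ω)| := ⟨_, rfl⟩
  have hρ0 : ∀ ω, 0 ≤ ρ ω := fun ω => by rw [hρ]; exact abs_nonneg _
  have hnear : ∀ ω k, |((F.X J ω k : ℤ) : ℝ) / 2 ^ J - F.x ω k| ≤ 1 / 2 ^ J := fun ω k =>
    Pool.PB.Trl.x_near F J ω k
  obtain ⟨B₂, l1, l2, l3⟩ := hR B' hB' hP
    (fun p => P p - C (al p)) (fun s => R s - tpo (q s)) (fun ω => 3 * V + ρ ω)
    (fun ω => bho J J (ptr F J ω))
    (fun p => (totalDegree_sub _ _).trans (max_le (hPdeg p) (by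
      rw [totalDegree_C]; exact Nat.zero_le _)))
    (fun s => (totalDegree_sub _ _).trans (max_le (hRdeg s) ((tpo_deg _).trans (by
      rw [hq]; exact deg_lp (hRdeg s) _ _))))
    (fun p b b' hn hb => by
      rw [map_sub, map_sub, eval_C, eval_C, hPdep p b b' hn hb])
    (fun s b b' hn hb => by
      rw [map_sub, map_sub, tpo_eval, tpo_eval, hRdep s b b' hn hb, hn])
    (fun ω _ => by linarith [hρ0 ω]) (fun ω _ => ⟨rfl, fun j hj => by
      refine (hnear ω (c j)).trans (inv_mono (hY j hj))⟩)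
    (fun ω _ => by
      have e1 : eval (bho J J (ptr F J ω)) (P (ptr F J ω) - C (al (ptr F J ω))) = 0 := by
        rw [map_sub, eval_C, hal, sub_self]
      rw [e1, abs_zero]
      linarith [hρ0 ω])
    (fun ω hω b hb => by
      have h1 := hagr ω hω b hb
      have h2 := hagr ω hω _ (hself ω hω)
      have h3 := hvar ω hω (b none) hb.1
      have h4 : ρ ω = |eval (bt F ω) (P (ptr F J ω)) - al (ptr F J ω)| := by rw [hρ]
      rw [map_sub, map_sub, eval_C, tpo_eval, hqe]
      have e1 : eval b (P (ptr F J ω)) - al (ptr F J ω) -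
          (eval b (R (slam F w ω)) -
            eval (bt F ω + (b none - F.t ω) • bd F ω) (R (slam F w ω))) =
          (eval b (P (ptr F J ω)) - eval b (R (slam F w ω))) +
          (eval (bt F ω + (b none - F.t ω) • bd F ω) (R (slam F w ω)) -
            eval (bt F ω) (R (slam F w ω))) -
          (eval (bt F ω) (P (ptr F J ω)) - eval (bt F ω) (R (slam F w ω))) +
          (eval (bt F ω) (P (ptr F J ω)) - al (ptr F J ω)) := by ring
      rw [e1, h4]
      refine (abs_add_le _ _).trans (add_le_add ?_ le_rfl)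
      refine (abs_sub _ _).trans ?_
      have h5 := abs_add_le (eval b (P (ptr F J ω)) - eval b (R (slam F w ω)))
        (eval (bt F ω + (b none - F.t ω) • bd F ω) (R (slam F w ω)) -
            eval (bt F ω) (R (slam F w ω)))
      linarith)
  -- the value at the sample is near the value at the rounded point
  have hρA : ∀ ω, B₂ ω → ρ ω ≤ 3 * V := by
    intro ω hω
    have hω' := l1 ω hω
    have hcj := hcell i (x := bt F ω) (v := σ) (e := e) (J := J) (g := g) (a := a)
        (G := G (ptr F J ω)) hci (hL.degG _) (hL.depG _) (fun j hj => hL.pos ω hω' j hj)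
        (fun j hj b hb => hL.lip ω hω' j hj b hb) (fun j hj => by
          have h1 := hJ j hj
          have h2 := hc45 i (by omega)
          omega)
    have h2 : ∀ j < i, |(bho J J (ptr F J ω) (some (c j)) -
        eval (bho J J (ptr F J ω)) (G (ptr F J ω) j)) -
        (bt F ω (some (c j)) - eval (bt F ω) (G (ptr F J ω) j))| ≤ 2 ^ 0 / 2 ^ (g j + σ) := by
      intro j hj
      have h3 := (hcj j (by omega) (bho J J (ptr F J ω)) rfl (fun j _ => hnear ω (c j))).2 hj
      have h4 := hnear ω (c j)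
      have h5 : (1 : ℝ) / 2 ^ J ≤ 1 / 4 / 2 ^ (g j + σ) := by
        have h6 := hJ j (by omega)
        have h7 : (2 : ℝ) ^ (g j + σ + 2) ≤ 2 ^ J := pow_le_pow_right₀ (by norm_num) (by omega)
        rw [div_div, div_le_div_iff₀ (by positivity) (by positivity)]
        rw [pow_add] at h7
        linarith
      have e1 : (bho J J (ptr F J ω) (some (c j)) -
          eval (bho J J (ptr F J ω)) (G (ptr F J ω) j)) -
          (bt F ω (some (c j)) - eval (bt F ω) (G (ptr F J ω) j)) =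
          (((F.X J ω (c j) : ℤ) : ℝ) / 2 ^ J - F.x ω (c j)) -
            (eval (bho J J (ptr F J ω)) (G (ptr F J ω) j) -
              eval (bt F ω) (G (ptr F J ω) j)) := by
        have e2 : bho J J (ptr F J ω) (some (c j)) = ((F.X J ω (c j) : ℤ) : ℝ) / 2 ^ J := rfl
        have e3 : bt F ω (some (c j)) = F.x ω (c j) := rfl
        rw [e2, e3]
        ring
      rw [e1, pow_zero]
      have h6 := abs_sub (((F.X J ω (c j) : ℤ) : ℝ) / 2 ^ J - F.x ω (c j))
        (eval (bho J J (ptr F J ω)) (G (ptr F J ω) j) - eval (bt F ω) (G (ptr F J ω) j))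
      have h7 : (1 : ℝ) / 4 / 2 ^ (g j + σ) + 1 / 4 / 2 ^ (g j + σ) ≤ 1 / 2 ^ (g j + σ) := by
        have h8 : (0 : ℝ) < 1 / 2 ^ (g j + σ) := by positivity
        have h9 : (1 : ℝ) / 4 / 2 ^ (g j + σ) = 1 / 2 ^ (g j + σ) / 4 := by ring
        rw [h9]
        linarith
      linarith
    have h3 := hscl (c := c) (i := i) (G := G (ptr F J ω))
      (Q := P (ptr F J ω) - C (al (ptr F J ω))) (g := g) (a := a) (n := 0) (v := σ)
      (M := 2 ^ h * (3 * V + ρ ω)) (x := bt F ω) (b := bho J J (ptr F J ω)) hi hci (hL.degG _)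
      (hL.depG _) (fun b b' hn hb => by
        rw [map_sub, map_sub, eval_C, eval_C, hPdep _ b b' hn hb])
      ((totalDegree_sub _ _).trans (max_le (hPdeg _) (by
        rw [totalDegree_C]; exact Nat.zero_le _)))
      (mul_nonneg (by positivity) (by linarith [hρ0 ω])) (fun b hb => l3 ω hω b hb)
      (fun j hj => hL.pos ω hω' j hj) (Nat.zero_le _) (by
        show |F.t ω - F.t ω| ≤ _
        rw [sub_self, abs_zero]
        positivity) h2
    have e1 : eval (bho J J (ptr F J ω)) (P (ptr F J ω) - C (al (ptr F J ω))) = 0 := by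
      rw [map_sub, eval_C, hal, sub_self]
    have e2 : |eval (bho J J (ptr F J ω)) (P (ptr F J ω) - C (al (ptr F J ω))) -
        eval (bt F ω) (P (ptr F J ω) - C (al (ptr F J ω)))| = ρ ω := by
      rw [e1, zero_sub, abs_neg, map_sub, eval_C, hρ]
    rw [e2] at h3
    have h4 : (2 : ℝ) ^ (c₃ + 0) / 2 ^ σ * (2 ^ h * (3 * V + ρ ω)) ≤ 1 / 2 * (3 * V + ρ ω) := by
      have h5 : (2 : ℝ) ^ (c₃ + 0) / 2 ^ σ * 2 ^ h ≤ 1 / 2 := by
        rw [div_mul_eq_mul_div, ← pow_add, div_le_div_iff₀ (by positivity) (by norm_num), one_mul,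
          ← pow_succ]
        exact pow_le_pow_right₀ (by norm_num) (by omega)
      rw [← mul_assoc]
      exact mul_le_mul_of_nonneg_right h5 (by linarith [hρ0 ω])
    linarith
  refine ⟨B₂, al, l1, l2, hal, fun ω hω b hb => ?_⟩
  have h1 := l3 ω hω b hb
  rw [map_sub, eval_C] at h1
  have h2 := hρA ω hω
  calc |eval b (P (ptr F J ω)) - al (ptr F J ω)| ≤ 2 ^ h * (3 * V + ρ ω) := h1
    _ ≤ 2 ^ h * (2 ^ 3 * V) := mul_le_mul_of_nonneg_left (by linarith) (by positivity)
    _ = 2 ^ (h + 3) * V := by rw [pow_add]; ring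
    _ ≤ _ := mul_le_mul_of_nonneg_right (pow_le_pow_right₀ (by norm_num) (by omega)) hV.le

end Pool.NVX
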