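import Pool.Agent.H39.NV.BadB
import Pool.Agent.H87.NV.Cls

/-!
# The variation of the closed derivative in a class, for `c 2; c 3`, `c 1` static

`nvd_b`: from the family theorem. The nodes for `c 0, c 1, c 2` at the pairs `(a, a)`, `(a, w₂)`,
`(a₂, a₂)`, `(a₃, a₃)` near the pair `(a₀, w)`, and the variation for `c 1; c 2` at the pair
`(a, a)`; the constant depends only on the dimension and the degree, `s` is a small number.
-/

set_option autoImplicit false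

namespace Pool.NVX

open Finset Real MvPolynomial
open Pool.Agent.H49.Ent Pool.Agent.H32.Dense Pool.STK Pool.KA Pool.KSAT Pool.K2S Pool.PB Pool.S6C
open Pool.GEN Pool.CHT
open Pool.SHR (dir mvp RelvH Shr NodD NVD NVG relvF_low relvH_of)
open Pool.PB.Trl (rt rt_mem t_rt)
open Pool.FLF (Fam.sub)
open Pool.Z3 (Nod NodS NodS.sub nods_all share_ex)

variable {m J : ℕ}

/-- **The nodes near a pair, and the time**, for any number of nodes. -/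
theorem own_basB {D Dr r k : ℕ} {S : PCl m} {c : ℕ → Fin m} {β : ℕ → ℝ → ℝ → ℝ}
    {e E ϱ σ η θ M : ℝ} {A W : ℕ → ℝ} (hM : 0 < M) (hS : TmH S) (hσ : 0 < σ)
    (hσϱ : σ ≤ ϱ) (hη : 0 < η) (hθ : 0 < θ)
    (hn : ∀ i < k, NodD S c r D β e E ϱ (A i) (W i)) :
    ∃ (K₂ : ℝ) (d : ℕ → ℕ → ℝ) (ψ : ℝ), 0 < K₂ ∧ 0 < ψ ∧
      (∀ i < k, ∀ l ≤ r, 0 < d i l ∧ d i l ≤ σ) ∧ Bas S (fun J F A' =>
        (∃ B : F.Ω → Prop, Sub B A' ∧ Pe F.p A' ≤ K₂ * Pe F.p B ∧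
          (∀ (B' : F.Ω → Prop) (hB' : 0 < Pe F.p B'), Sub B' B →
            Pe F.p B ≤ M * Pe F.p B' → (Fam.sub F B' hB').Tm (θ * J)) ∧
          ∀ i < k, NodS c r D Dr (fun l => β l (A i) (W i)) (d i) (A i) (W i) e (E + σ) η
            ϱ (E + ϱ) ψ J F B) ∧
        ∀ h : 0 < Pe F.p A', (Fam.sub F A' h).Tm (θ * J)) := by
  classical
  have hch : ∀ i : ℕ, ∃ (K₁ : ℝ) (d : ℕ → ℝ) (ψ : ℝ), 0 < ψ ∧ (i < k → 0 < K₁ ∧
      (∀ l ≤ r, 0 < d l ∧ d l ≤ σ ∧ d l < A i) ∧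
      Bas S (fun J F A' => ∃ B : F.Ω → Prop, Sub B A' ∧ Pe F.p A' ≤ K₁ * Pe F.p B ∧
        NodS c r D Dr (fun l => β l (A i) (W i)) d (A i) (W i) e (E + σ) η ϱ (E + ϱ) ψ J F
          B)) := by
    intro i
    by_cases hi : i < k
    · obtain ⟨K₁, d, ψ, h1, h2, h3⟩ := (hn i hi).2 Dr η σ hη hσ hσϱ
      exact ⟨K₁, d, ψ, h2, fun _ => ⟨h1, h3⟩⟩
    · exact ⟨1, 0, 1, one_pos, fun h => absurd h hi⟩
  choose K₁ d ψ hψ hch using hch
  obtain ⟨ψm, hψm, hψi⟩ := Pool.CHT.fin_pos k (f := ψ) fun i _ => hψ i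
  obtain ⟨K₂, hK₂, hB⟩ := nods_all (S := S) (c := c) (r := r) (D := fun _ => D)
    (Dr := fun _ => Dr) (β := fun i l => β l (A i) (W i)) (d := d) (a := A) (w := W)
    (e := fun _ => e) (E := fun _ => E + σ) (η := fun _ => η) (μ := fun _ => ϱ)
    (μT := fun _ => E + ϱ) (ψ := ψ) (ψ' := fun _ => ψm / 2) k
    (fun i hi => (half_lt_self hψm).trans_le (hψi i hi))
    (fun i hi => ⟨K₁ i, (hch i hi).1, (hch i hi).2.2⟩)
  have hT := hS.2 θ hθ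
  have hT' := bas_ev hT (κ := 1 / (K₂ * M)) (by positivity)
  refine ⟨K₂, d, ψm / 2, hK₂, by positivity, fun i hi l hl => ⟨((hch i hi).2.1 l hl).1,
    ((hch i hi).2.1 l hl).2.1⟩, Bas.mono 0 ((hB.and hT').and hT) ?_⟩
  rintro J - F A' ⟨⟨⟨B, k1, k2, k3⟩, k4⟩, k5⟩
  refine ⟨⟨B, k1, k2, fun B' hB' hs hP => k4 B' (fun ω h => k1 ω (hs ω h)) ?_ hB', k3⟩, k5⟩
  rw [one_div, inv_mul_le_iff₀ (by positivity)]
  calc Pe F.p A' ≤ K₂ * Pe F.p B := k2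
    _ ≤ K₂ * (M * Pe F.p B') := mul_le_mul_of_nonneg_left hP hK₂.le
    _ = _ := by ring

/-- **The variation of the closed derivative in a class**, for `c 2; c 3`, `c 1` static. -/
theorem nvd_b {m D : ℕ} (h2 : NvB m D) : ∃ K : ℝ, 1 ≤ K ∧ ∀ {S : PCl m} {c : ℕ → Fin m}
    {r : ℕ} {β : ℕ → ℝ → ℝ → ℝ} {e e' E E' ϱ ϱ' a₀ a w w₂ w' a₂ a₃ Li Lo Li₁ Lo₁ s : ℝ},
    3 ≤ r → TmH S →
    Set.InjOn c (Set.Iio (r + 1)) → 0 < s → 0 ≤ e' → 0 ≤ E → 0 < ϱ → 0 ≤ E' → 0 < ϱ' →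
    (∀ i ≤ r, ∀ a w, 0 ≤ w → w ≤ a → a ≤ 1 → a ≤ β i a w) →
    0 ≤ w → w ≤ w' → w' ≤ a₀ → a₀ ≤ a → w + K * s ≤ w₂ → w₂ ≤ a → a ≤ a₂ → a₂ ≤ a₃ → a₃ < 1 →
    K * s ≤ a₀ → NodD S c r D β e' E' ϱ' a a → NodD S c r D β e' E' ϱ' a w₂ →
    NodD S c r D β e' E' ϱ' a₂ a₂ → NodD S c r D β e' E' ϱ' a₃ a₃ →
    NVD S c r 1 2 D β e' E' ϱ' a a a Li₁ Lo₁ → Lo₁ ≤ s →
    (∀ l < 3, β l a₀ w ≤ β l a a + s) →
    β 0 a a ≤ β 0 a w₂ + s → β 1 a a ≤ β 1 a w₂ + s → β 1 a w₂ ≤ β 1 a a + s →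
    (∀ l < 4, e' + (E + ϱ) + β l a₀ w + K * s ≤ 1) →
    (∀ l < 3, e' + (E + ϱ) + β l a a + K * s ≤ 1) →
    (∀ l < 3, e' + β l a₂ a₂ + K * s ≤ 1) → (∀ l < 2, e' + β l a₃ a₃ + K * s ≤ 1) →
    (∀ l < 3, e' + β l a w₂ + K * s ≤ 1) →
    β 2 a w₂ + (a - w') + K * s ≤ β 2 a₀ w + Lo → β 2 a w₂ + K * s ≤ β 2 a a →
    β 1 a a + (a₃ - a) + K * s ≤ β 1 a₃ a₃ → β 1 a₂ a₂ + (a₃ - a) + K * s ≤ β 1 a₃ a₃ →
    β 2 a a + (a₂ - a) + K * s ≤ β 2 a₂ a₂ → NVD S c r 2 3 D β e E ϱ a₀ w w' Li Lo := by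
  classical
  by_cases hD1 : 1 ≤ D
  swap
  · exact ⟨1, le_rfl, fun {S c r β e e' E E' ϱ ϱ' a₀ a w w₂ w' a₂ a₃ Li Lo Li₁ Lo₁ s} _ _ _ _ _ _ _
      _ _ _ _ _ _ _ _ _ _ _ _ _ h => absurd h.1 hD1⟩
  obtain ⟨C, C₁, hC₁, hnb⟩ := no_bad_b hD1 h2
  have hCr : (0 : ℝ) ≤ C := Nat.cast_nonneg C
  refine ⟨C * (3 * C + 3) + 20, by nlinarith, ?_⟩
  intro S c r β e e' E E' ϱ ϱ' a₀ a w w₂ w' a₂ a₃ Li Lo Li₁ Lo₁ s hr hS hc hs he' hE hϱ hE' hϱ' hLow
    hw0 hww hwa₀ haa₀ hww₂ hw₂a haa₂ ha₂₃ ha₃ hKa hN₀ hN₁ hN₂ hN₃ hV1 hLo₁ hb1 hb2 hb3 hb4 hr1 hr2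
    hr3 hr4 hr5 hl1 hl2 hl3 hl4 hl5
  obtain ⟨Kc, hKc⟩ : ∃ Kc : ℝ, Kc = C * (3 * C + 3) := ⟨_, rfl⟩
  rw [← hKc] at hww₂ hKa hr1 hr2 hr3 hr4 hr5 hl1 hl2 hl3 hl4 hl5
  have hKc0 : 0 ≤ Kc := by rw [hKc]; positivity
  have hKs0 : 0 ≤ Kc * s := mul_nonneg hKc0 hs.le
  have hc3 : Set.InjOn c (Set.Iio 3) := hc.mono (Set.Iio_subset_Iio (by omega))
  have hc4 : Set.InjOn c (Set.Iio 4) := hc.mono (Set.Iio_subset_Iio (by omega))
  have hCs : 0 ≤ C * s := mul_nonneg hCr hs.le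
  have ha₀1 : a₀ ≤ 1 := by linarith
  have ha0 : 0 ≤ a := by linarith
  have haa₃ : a ≤ a₃ := haa₂.trans ha₂₃
  -- the nodes
  obtain ⟨Dr₁, δ₁, hδ₁, hV1⟩ := hV1
  obtain ⟨σ, hσ⟩ : ∃ σ, σ = min (min (s / 8) ϱ') δ₁ := ⟨_, rfl⟩
  have hσ0 : 0 < σ := by rw [hσ]; exact lt_min (lt_min (by positivity) hϱ') hδ₁
  have hσ1 : σ ≤ s / 8 := by rw [hσ]; exact (min_le_left _ _).trans (min_le_left _ _)
  have hσ2 : σ ≤ ϱ' := by rw [hσ]; exact (min_le_left _ _).trans (min_le_right _ _)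
  have hσ3 : σ ≤ δ₁ := by rw [hσ]; exact min_le_right _ _
  obtain ⟨η, hη⟩ : ∃ η, η = min (s / 8) δ₁ := ⟨_, rfl⟩
  have hη0 : 0 < η := by rw [hη]; exact lt_min (by positivity) hδ₁
  have hη1 : η ≤ s / 8 := by rw [hη]; exact min_le_left _ _
  have hη2 : η ≤ δ₁ := by rw [hη]; exact min_le_right _ _
  obtain ⟨A, hA⟩ : ∃ A : ℕ → ℝ, A = fun i => if i = 3 then a₃ else if i = 2 then a₂ else a :=
    ⟨_, rfl⟩
  obtain ⟨W, hW⟩ : ∃ W : ℕ → ℝ, W = fun i => if i = 0 then a else if i = 1 then w₂ else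
    if i = 2 then a₂ else a₃ := ⟨_, rfl⟩
  have hA0 : A 0 = a := by rw [hA]; simp
  have hA1 : A 1 = a := by rw [hA]; simp
  have hA2 : A 2 = a₂ := by rw [hA]; simp
  have hA3 : A 3 = a₃ := by rw [hA]; simp
  have hW0 : W 0 = a := by rw [hW]; simp
  have hW1 : W 1 = w₂ := by rw [hW]; simp
  have hW2 : W 2 = a₂ := by rw [hW]; simp
  have hW3 : W 3 = a₃ := by rw [hW]; simp
  have hnod : ∀ i < 4, NodD S c r D β e' E' ϱ' (A i) (W i) := by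
    intro i hi
    interval_cases i
    · rw [hA0, hW0]; exact hN₀
    · rw [hA1, hW1]; exact hN₁
    · rw [hA2, hW2]; exact hN₂
    · rw [hA3, hW3]; exact hN₃
  have hln : 0 < Real.log 2 := Real.log_pos (by norm_num)
  have hln1 : Real.log 2 ≤ 1 := by
    have := Real.log_two_lt_d9
    linarith
  have hC₁0 : 0 < C₁ := by linarith
  have h1a₃ : 0 < (1 - a₃) * Real.log 2 := mul_pos (by linarith) hln
  obtain ⟨θ, hθ⟩ : ∃ θ, θ = min ((1 - a₃) * Real.log 2 / (2 * C₁)) (s / C₁) := ⟨_, rfl⟩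
  have hθ0 : 0 < θ := by rw [hθ]; exact lt_min (by positivity) (by positivity)
  have hθ1 : C₁ * θ ≤ (1 - a₃) * Real.log 2 / 2 := by
    have h3 : θ ≤ (1 - a₃) * Real.log 2 / (2 * C₁) := by rw [hθ]; exact min_le_left _ _
    rw [le_div_iff₀ (by positivity)] at h3
    linarith
  have hθ2 : C₁ * θ ≤ s := by
    have h3 : θ ≤ s / C₁ := by rw [hθ]; exact min_le_right _ _
    rw [le_div_iff₀ hC₁0] at h3
    linarith
  obtain ⟨N, hN⟩ := exists_nat_ge (((C : ℝ) + 10) / s)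
  have hN1 : (C : ℝ) + 10 ≤ N * s := by
    rw [div_le_iff₀ hs] at hN
    exact hN
  have hNr : (0 : ℝ) ≤ N := Nat.cast_nonneg N
  obtain ⟨K₂, d, ψn, hK₂, hψn, hd, hbas⟩ := own_basB (k := 4) (Dr := max (D + 2) Dr₁)
    (M := 2 ^ C * (N + 1)) (by positivity) hS hσ0 hσ2 hη0 hθ0 hnod
  obtain ⟨ψ₁, hψ₁, hV2⟩ := hV1 (d 0) (fun j hj => ⟨(hd 0 (by norm_num) j hj).1,
    (hd 0 (by norm_num) j hj).2.trans hσ3⟩) ψn hψn
  have hV3 := hV2 (1 / K₂) (by positivity)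
  obtain ⟨ψm, hψm⟩ : ∃ ψm, ψm = min ψn ψ₁ := ⟨_, rfl⟩
  have hψm0 : 0 < ψm := by rw [hψm]; exact lt_min hψn hψ₁
  have hψm1 : ψm ≤ ψn := by rw [hψm]; exact min_le_left _ _
  have hψm2 : ψm ≤ ψ₁ := by rw [hψm]; exact min_le_right _ _
  obtain ⟨τ, hτ, J₀, hcls⟩ := hbas.and hV3
  refine ⟨0, s / 8, by positivity, ?_⟩
  intro dN hdN ψ₀ hψ₀
  refine ⟨τ / 4, by positivity, ?_⟩
  intro κ₁ hκ₁
  obtain ⟨J₁, hJ₁⟩ := share_ex (ψ := τ / 4) (κ := κ₁ / (8 * (N + 1))) (by positivity)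
    (by positivity)
  obtain ⟨J₂, hJ₂⟩ := share_ex (ψ := ψm) (κ := 1 / (2 ^ C * (N + 1))) hψm0 (by positivity)
  obtain ⟨J₃, hJ₃⟩ := exists_nat_gt ((C + C₁ + 10) / s)
  obtain ⟨J₄, hJ₄⟩ := exists_nat_gt (2 * C₁ / ((1 - a₃) * Real.log 2))
  refine ⟨τ / 4, by positivity, max (max J₀ J₁) (max J₂ (max J₃ (max J₄ (C + 1)))), ?_⟩
  intro J hJ F A' hA' B₀ G H hB₀ hP₀ hNod B' hB' hP' v v' hv hv1 _
  have hj0 : J₀ ≤ J := ((le_max_left _ _).trans (le_max_left _ _)).trans hJ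
  have hj1 : J₁ ≤ J := ((le_max_right _ _).trans (le_max_left _ _)).trans hJ
  have hj2 : J₂ ≤ J := ((le_max_left _ _).trans (le_max_right _ _)).trans hJ
  have hj3 : J₃ ≤ J := ((le_max_left _ _).trans ((le_max_right _ _).trans (le_max_right _ _))).trans
    hJ
  have hj4 : J₄ ≤ J := ((le_max_left _ _).trans ((le_max_right _ _).trans
    ((le_max_right _ _).trans (le_max_right _ _)))).trans hJ
  have hj5 : C + 1 ≤ J := ((le_max_right _ _).trans ((le_max_right _ _).trans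
    ((le_max_right _ _).trans (le_max_right _ _)))).trans hJ
  have hJC : (C : ℝ) + 1 ≤ J := by exact_mod_cast hj5
  have hJr : (1 : ℝ) ≤ J := by linarith
  have hJ0 : (0 : ℝ) ≤ J := by linarith
  have hsJ : C + C₁ + 10 < s * J := by
    have h3 : ((C : ℝ) + C₁ + 10) / s < J := hJ₃.trans_le (by exact_mod_cast hj3)
    rw [div_lt_iff₀ hs] at h3
    linarith
  have haJ : 2 * C₁ < (1 - a₃) * Real.log 2 * J := by
    have h3 : 2 * C₁ / ((1 - a₃) * Real.log 2) < J := hJ₄.trans_le (by exact_mod_cast hj4)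
    rw [div_lt_iff₀ h1a₃] at h3
    linarith
  obtain ⟨gN, hgN⟩ : ∃ gN : ℕ → ℕ, gN = fun j => ⌊(β j a₀ w - dN j) * (J : ℝ)⌋₊ := ⟨_, rfl⟩
  rw [← hgN] at hNod ⊢
  obtain ⟨V, hV⟩ : ∃ V, V = ⌊(β 2 a₀ w + Lo) * (J : ℝ)⌋₊ := ⟨_, rfl⟩
  rw [← hV]
  obtain ⟨Q, hQ⟩ : ∃ Q, Q = V + ⌊w' * (J : ℝ)⌋₊ := ⟨_, rfl⟩
  have hfl : ∀ x y : ℝ, x ≤ y → ⌊x * (J : ℝ)⌋₊ ≤ ⌊y * (J : ℝ)⌋₊ := fun x y h =>
    Nat.floor_le_floor (mul_le_mul_of_nonneg_right h hJ0)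
  have hfJ : ∀ x : ℝ, x ≤ 1 → ⌊x * (J : ℝ)⌋₊ ≤ J := fun x h => by
    have h3 := hfl x 1 h
    rwa [one_mul, Nat.floor_natCast] at h3
  have hfu : ∀ x : ℝ, 0 ≤ x → ((⌊x * (J : ℝ)⌋₊ : ℕ) : ℝ) ≤ x * J := fun x h =>
    Nat.floor_le (mul_nonneg h hJ0)
  have hfd : ∀ x : ℝ, x * (J : ℝ) < (⌊x * (J : ℝ)⌋₊ : ℕ) + 1 := fun x => Nat.lt_floor_add_one _
  have hww'J : ⌊w * (J : ℝ)⌋₊ ≤ ⌊w' * (J : ℝ)⌋₊ := hfl _ _ hww
  have hw'J : ⌊w' * (J : ℝ)⌋₊ ≤ J := hfJ _ (by linarith)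
  -- the bad event
  obtain ⟨Bd, hBd⟩ : ∃ Bd : F.Ω → Prop, Bd = fun ω => 2 ^ Q / 2 ^ gN 3 <
    wmx ⌊w * (J : ℝ)⌋₊ (slam F ⌊w * (J : ℝ)⌋₊ ω).2.2
      (hcl (c 2) (H (slam F ⌊w * (J : ℝ)⌋₊ ω) 3) (slam F ⌊w * (J : ℝ)⌋₊ ω)) := ⟨_, rfl⟩
  have hsplit := pe_spl F.p B' Bd
  by_cases hbig : Pe F.p (fun ω => B' ω ∧ Bd ω) ≤ Pe F.p B' / 2
  · refine ⟨fun ω => B' ω ∧ ¬ Bd ω, fun ω h => h.1, by linarith, ?_⟩
    intro ω ω' hω hω' hsl
    have hωB := hB' ω hω.1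
    obtain ⟨e1, e0⟩ := hv1 ω hω.1
    have hdep := hNod.top.depH (slam F ⌊w * (J : ℝ)⌋₊ ω) 3
    rw [dir_two3 hc3 hdep e1 e0, dir_two3 hc3 hdep e1 e0]
    have h3 : wmx ⌊w * (J : ℝ)⌋₊ (slam F ⌊w * (J : ℝ)⌋₊ ω).2.2
        (hcl (c 2) (H (slam F ⌊w * (J : ℝ)⌋₊ ω) 3) (slam F ⌊w * (J : ℝ)⌋₊ ω)) ≤
        2 ^ Q / 2 ^ gN 3 := by
      have h4 := hω.2
      rw [hBd] at h4
      exact not_lt.1 h4
    refine (gcl_var hww'J hw'J hsl h3).trans (le_of_eq ?_)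
    rw [hQ, pow_add]
    field_simp
  · exfalso
    push Not at hbig
    have hPB' : 0 ≤ Pe F.p B' := Pe_nonneg F.isLaw _
    have hbd0 : 0 < Pe F.p (fun ω => B' ω ∧ Bd ω) := by linarith
    -- the parts of the bad event are in the class
    have hin : ∀ A'' : F.Ω → Prop, Sub A'' (fun ω => B' ω ∧ Bd ω) →
        Pe F.p (fun ω => B' ω ∧ Bd ω) ≤ 4 * (N + 1) * Pe F.p A'' → S.St τ J F A'' := by
      intro A'' h3 h4
      have hS' := S.res (τ' := τ / 2) (by positivity) hA'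
        (fun ω h => hB₀ ω (hB' ω (h3 ω h).1)) (by
          have q1 := hJ₁ J hj1
          have q2 : Real.exp (-(τ / 2 * J)) = Real.exp (-(τ / 4 * J)) * Real.exp (-(τ / 4 * J)) := by
            rw [← Real.exp_add]
            congr 1
            ring
          rw [q2]
          have q3 : 0 ≤ Pe F.p A' := Pe_nonneg F.isLaw _
          have q4 := (Real.exp_pos (-(τ / 4 * (J : ℝ)))).le
          calc Real.exp (-(τ / 4 * J)) * Real.exp (-(τ / 4 * J)) * Pe F.p A'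
              ≤ Real.exp (-(τ / 4 * J)) * (κ₁ / (8 * (N + 1))) * Pe F.p A' :=
                mul_le_mul_of_nonneg_right (mul_le_mul_of_nonneg_left q1 q4) q3
            _ = Real.exp (-(τ / 4 * J)) * (κ₁ * Pe F.p A') / (8 * (N + 1)) := by ring
            _ ≤ Real.exp (-(τ / 4 * J)) * Pe F.p B₀ / (8 * (N + 1)) :=
                div_le_div_of_nonneg_right (mul_le_mul_of_nonneg_left hP₀ q4) (by positivity)
            _ ≤ Pe F.p B' / (8 * (N + 1)) := div_le_div_of_nonneg_right hP' (by positivity)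
            _ ≤ _ := by
              rw [div_le_iff₀ (by positivity)]
              linarith)
      exact S.mono (by linarith) hS'
    -- the numbers
    obtain ⟨e₁, he₁⟩ : ∃ e₁, e₁ = ⌊e' * (J : ℝ)⌋₊ := ⟨_, rfl⟩
    obtain ⟨E₁, hE₁⟩ : ∃ E₁, E₁ = ⌊(E + ϱ) * (J : ℝ)⌋₊ := ⟨_, rfl⟩
    obtain ⟨s₁, hs₁⟩ : ∃ s₁, s₁ = ⌊((3 * C + 3) * s) * (J : ℝ)⌋₊ := ⟨_, rfl⟩
    obtain ⟨s₂, hs₂⟩ : ∃ s₂, s₂ = ⌊(2 * s) * (J : ℝ)⌋₊ := ⟨_, rfl⟩
    obtain ⟨a₁, ha₁⟩ : ∃ a₁, a₁ = ⌊a * (J : ℝ)⌋₊ := ⟨_, rfl⟩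
    obtain ⟨a₂', ha₂'⟩ : ∃ a₂', a₂' = ⌊a₂ * (J : ℝ)⌋₊ := ⟨_, rfl⟩
    obtain ⟨a₃', ha₃'⟩ : ∃ a₃', a₃' = ⌊a₃ * (J : ℝ)⌋₊ := ⟨_, rfl⟩
    obtain ⟨w₁, hw₁⟩ : ∃ w₁, w₁ = ⌊w * (J : ℝ)⌋₊ := ⟨_, rfl⟩
    obtain ⟨w₂', hw₂'⟩ : ∃ w₂', w₂' = ⌊w₂ * (J : ℝ)⌋₊ := ⟨_, rfl⟩
    obtain ⟨g, hg⟩ : ∃ g : ℕ → ℕ → ℕ, g = fun i l => ⌊(β l (A i) (W i) - d i l) * (J : ℝ)⌋₊ :=
      ⟨_, rfl⟩
    have sJ1 : 0 ≤ s * J := by positivity
    have CsJ : 0 ≤ C * (s * J) := mul_nonneg hCr sJ1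
    have s1u : (s₁ : ℝ) ≤ 3 * (C * (s * J)) + 3 * (s * J) := by
      rw [hs₁]
      have := hfu ((3 * C + 3) * s) (by positivity)
      linarith
    have s1d : 3 * (C * (s * J)) + 3 * (s * J) < s₁ + 1 := by
      rw [hs₁]
      have := hfd ((3 * C + 3) * s)
      linarith
    have s2u : (s₂ : ℝ) ≤ 2 * (s * J) := by
      rw [hs₂]
      have := hfu (2 * s) (by positivity)
      linarith
    have s2d : 2 * (s * J) < s₂ + 1 := by
      rw [hs₂]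
      have := hfd (2 * s)
      linarith
    have e1u : (e₁ : ℝ) ≤ e' * J := by rw [he₁]; exact hfu _ he'
    have E1u : (E₁ : ℝ) ≤ (E + ϱ) * J := by rw [hE₁]; exact hfu _ (by linarith)
    have a1u : (a₁ : ℝ) ≤ a * J := by rw [ha₁]; exact hfu _ ha0
    have a1d : a * J < a₁ + 1 := by rw [ha₁]; exact hfd _
    have a2u : (a₂' : ℝ) ≤ a₂ * J := by rw [ha₂']; exact hfu _ (by linarith)
    have a3u : (a₃' : ℝ) ≤ a₃ * J := by rw [ha₃']; exact hfu _ (by linarith)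
    have w1u : (w₁ : ℝ) ≤ w * J := by rw [hw₁]; exact hfu _ hw0
    have w2d : w₂ * J < w₂' + 1 := by rw [hw₂']; exact hfd _
    have w'd : w' * J < (⌊w' * (J : ℝ)⌋₊ : ℕ) + 1 := hfd _
    have Vd : (β 2 a₀ w + Lo) * J < V + 1 := by rw [hV]; exact hfd _
    have Qd : (Q : ℝ) = V + (⌊w' * (J : ℝ)⌋₊ : ℕ) := by rw [hQ]; push_cast; ring
    -- the precisions of the given node
    have hβN : ∀ l < 4, a₀ ≤ β l a₀ w := fun l hl =>
      hLow l (by omega) a₀ w hw0 (by linarith) ha₀1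
    have gNu : ∀ l < 4, (gN l : ℝ) ≤ β l a₀ w * J := fun l hl => by
      have h3 := hdN l (by omega)
      have h4 := hβN l hl
      rw [hgN]
      refine (hfu _ (by linarith)).trans ?_
      exact mul_le_mul_of_nonneg_right (by linarith) hJ0
    have gNd : ∀ l < 4, β l a₀ w * J - s / 8 * J < gN l + 1 := fun l hl => by
      have h3 := hdN l (by omega)
      have h4 := hfd (β l a₀ w - dN l)
      rw [hgN]
      have h5 : dN l * J ≤ s / 8 * J := mul_le_mul_of_nonneg_right h3.2 hJ0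
      simp only
      linarith
    -- the precisions of the own nodes
    have hAW : ∀ i < 4, 0 ≤ W i ∧ W i ≤ A i ∧ A i ≤ 1 ∧ a ≤ A i := by
      intro i hi
      interval_cases i
      · rw [hA0, hW0]; exact ⟨ha0, le_rfl, by linarith, le_rfl⟩
      · rw [hA1, hW1]; exact ⟨by linarith, hw₂a, by linarith, le_rfl⟩
      · rw [hA2, hW2]; exact ⟨by linarith, le_rfl, by linarith, haa₂⟩
      · rw [hA3, hW3]; exact ⟨by linarith, le_rfl, ha₃.le, haa₃⟩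
    have gu : ∀ i < 4, ∀ l < 3, (g i l : ℝ) ≤ β l (A i) (W i) * J := fun i hi l hl => by
      have h3 := hd i hi l (by omega)
      obtain ⟨p1, p2, p3, p4⟩ := hAW i hi
      have h4 := hLow l (by omega) (A i) (W i) p1 p2 p3
      have h5 : s / 8 ≤ a := by linarith
      rw [hg]
      refine (hfu _ (by linarith)).trans ?_
      exact mul_le_mul_of_nonneg_right (by linarith) hJ0
    have gd : ∀ i < 4, ∀ l < 3, β l (A i) (W i) * J - s / 8 * J < g i l + 1 := fun i hi l hl => by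
      have h3 := hd i hi l (by omega)
      have h4 := hfd (β l (A i) (W i) - d i l)
      rw [hg]
      have h5 : d i l * J ≤ s / 8 * J := mul_le_mul_of_nonneg_right (by linarith) hJ0
      simp only
      linarith
    have gu0 : ∀ l < 3, (g 0 l : ℝ) ≤ β l a a * J := fun l hl => by
      have := gu 0 (by norm_num) l hl
      rwa [hA0, hW0] at this
    have gu1 : ∀ l < 3, (g 1 l : ℝ) ≤ β l a w₂ * J := fun l hl => by
      have := gu 1 (by norm_num) l hl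
      rwa [hA1, hW1] at this
    have gu2 : ∀ l < 3, (g 2 l : ℝ) ≤ β l a₂ a₂ * J := fun l hl => by
      have := gu 2 (by norm_num) l hl
      rwa [hA2, hW2] at this
    have gu3 : ∀ l < 3, (g 3 l : ℝ) ≤ β l a₃ a₃ * J := fun l hl => by
      have := gu 3 (by norm_num) l hl
      rwa [hA3, hW3] at this
    have gd0 : ∀ l < 3, β l a a * J - s / 8 * J < g 0 l + 1 := fun l hl => by
      have := gd 0 (by norm_num) l hl
      rwa [hA0, hW0] at this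
    have gd1 : ∀ l < 3, β l a w₂ * J - s / 8 * J < g 1 l + 1 := fun l hl => by
      have := gd 1 (by norm_num) l hl
      rwa [hA1, hW1] at this
    have gd2 : ∀ l < 3, β l a₂ a₂ * J - s / 8 * J < g 2 l + 1 := fun l hl => by
      have := gd 2 (by norm_num) l hl
      rwa [hA2, hW2] at this
    have gd3 : ∀ l < 3, β l a₃ a₃ * J - s / 8 * J < g 3 l + 1 := fun l hl => by
      have := gd 3 (by norm_num) l hl
      rwa [hA3, hW3] at this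
    have mJ : ∀ {x y : ℝ}, x ≤ y → x * J ≤ y * J := fun h => mul_le_mul_of_nonneg_right h hJ0
    have Cs1 : (C : ℝ) * (s₁ + 1) ≤ Kc * (s * J) + C := by
      have h3 := mul_le_mul_of_nonneg_left s1u hCr
      have h4 : Kc * (s * J) = C * (3 * (C * (s * J)) + 3 * (s * J)) := by rw [hKc]; ring
      linarith only [h3, h4]
    have Cs2 : (C : ℝ) * (s₂ + 1) ≤ 2 * (C * (s * J)) + C := by
      have h3 := mul_le_mul_of_nonneg_left s2u hCr
      linarith only [h3]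
    have KsJ : 0 ≤ Kc * (s * J) := mul_nonneg hKc0 sJ1
    -- the numbers as real numbers
    have hβa : 0 ≤ β 1 a a := by
      have := hLow 1 (by omega) a a ha0 le_rfl (by linarith)
      linarith
    refine hnb (F := F) (c := c) (a := a₁) (w := w₁) (w₂ := w₂') (a₂ := a₂') (a₃ := a₃')
      (e := e₁) (E := E₁) (h := ⌊s / 8 * (J : ℝ)⌋₊) (s := s₁) (s' := s₂) (S := J) (Q := Q) (N := N)
      (D₂ := max (D + 2) Dr₁) (Y₁ := ⌊(β 1 a a + Li₁) * (J : ℝ)⌋₊) (y₁ := ⌊δ₁ * (J : ℝ)⌋₊)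
      (V₁ := ⌊(β 1 a a + Lo₁) * (J : ℝ)⌋₊) (gN := gN) (g := g 0) (g₂ := g 2) (g₃ := g 3)
      (g₄ := g 1)
      (Y := fun l => if l < r then ⌊(1 - ϱ') * (J : ℝ)⌋₊ else ⌊(1 - (E' + ϱ')) * (J : ℝ)⌋₊)
      (κ := Real.exp (-(ψm * J))) (θ := θ * J) (A := fun ω => B' ω ∧ Bd ω) (G := G) (H := H)
      hbd0 hc4 ?_ ?_ ?_ ?_ ?_ ?_ ?_ ?_ ?_ (le_max_left _ _) (Real.exp_pos _).le ?_ (by positivity)
      ?_ ?_ ?_ ?_ ?_ ?_ ?_ ?_ ?_ ?_ ?_ ?_ ?_ ?_ ?_ ?_ ?_ ?_ ?_ ?_ ?_ ?_ ?_ ?_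
    · rw [hw₁, hw₂']
      exact hfl _ _ (by linarith)
    · rw [hw₂', ha₁]; exact hfl _ _ hw₂a
    · rw [ha₁, ha₂']; exact hfl _ _ haa₂
    · rw [ha₂', ha₃']; exact hfl _ _ ha₂₃
    · -- the room
      have h3 : (1 : ℝ) ≤ (1 - a₃) * J := by
        have h4 : (1 - a₃) * Real.log 2 * J ≤ (1 - a₃) * J := by
          have h5 : (1 - a₃) * Real.log 2 ≤ (1 - a₃) * 1 :=
            mul_le_mul_of_nonneg_left hln1 (by linarith)
          have h6 := mul_le_mul_of_nonneg_right h5 hJ0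
          linarith
        linarith
      have h4 : (a₃' : ℝ) + 1 ≤ J := by linarith
      exact_mod_cast h4
    · rw [ha₁, hw₁, hE₁]
      exact (hNod.top.mono (by omega) (fun _ => le_rfl) (hfl _ _ haa₀) le_rfl).sub
        fun ω h => hB' ω h.1
    · intro ω hω
      have h3 := hω.2
      rw [hBd] at h3
      rw [hw₁]
      exact h3
    · intro B'' hB'' h3 h4
      exact (hcls J hj0 F B'' (hin B'' h3 (h4.trans (mul_le_mul_of_nonneg_right (by linarith)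
        hB''.le)))).1.2 hB''
    · intro A'' h3 h4
      obtain ⟨⟨⟨B, l1, l2, l3, l4⟩, -⟩, l5⟩ := hcls J hj0 F A'' (hin A'' h3 h4)
      have hBpos : 0 < Pe F.p B := by
        have h5 : 0 < Pe F.p A'' := by
          by_contra h6
          push Not at h6
          have h7 : (0 : ℝ) ≤ 4 * (N + 1) := by positivity
          have h8 := mul_nonpos_of_nonneg_of_nonpos h7 h6
          linarith
        by_contra h6
        push Not at h6
        have h8 := mul_nonpos_of_nonneg_of_nonpos hK₂.le h6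
        linarith
      refine ⟨B, l1, hBpos, l3, ?_⟩
      obtain ⟨T, TH, n0⟩ := l4 0 (by norm_num)
      obtain ⟨T₄, T₄H, n1⟩ := l4 1 (by norm_num)
      obtain ⟨T₂, T₂H, n2⟩ := l4 2 (by norm_num)
      obtain ⟨T₃, T₃H, n3⟩ := l4 3 (by norm_num)
      have hKB : 1 / K₂ * Pe F.p A'' ≤ Pe F.p B := by
        rw [one_div, inv_mul_le_iff₀ hK₂]
        exact l2
      have hex : Real.exp (-(ψn * J)) ≤ Real.exp (-(ψm * J)) * 1 := by
        rw [mul_one]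
        refine Real.exp_le_exp.2 ?_
        have := mul_le_mul_of_nonneg_right hψm1 hJ0
        linarith
      have hone : 1 * Pe F.p B ≤ Pe F.p B := by rw [one_mul]
      rw [hA0, hW0] at n0
      have hnv := (l5 B T TH l1 hKB ⟨n0.lst, n0.top.mono le_rfl (fun _ => le_rfl) le_rfl
        (hfl _ _ (by linarith)), n0.rlY.mono (le_max_right _ _) (hfl _ _ hη2) le_rfl⟩).mono
        le_rfl le_rfl le_rfl (κ' := Real.exp (-(ψm * J))) (by
          refine Real.exp_le_exp.2 ?_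
          have := mul_le_mul_of_nonneg_right hψm2 hJ0
          linarith)
      have m0 := n0.sub (fun _ h => h) hone (Real.exp_pos _).le hex
      have m1 := n1.sub (fun _ h => h) hone (Real.exp_pos _).le hex
      have m2 := n2.sub (fun _ h => h) hone (Real.exp_pos _).le hex
      have m3 := n3.sub (fun _ h => h) hone (Real.exp_pos _).le hex
      have q1 : ⌊A 1 * (J : ℝ)⌋₊ = a₁ := by rw [hA1, ha₁]
      have q1' : ⌊W 1 * (J : ℝ)⌋₊ = w₂' := by rw [hW1, hw₂']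
      have q2 : ⌊A 2 * (J : ℝ)⌋₊ = a₂' := by rw [hA2, ha₂']
      have q2' : ⌊W 2 * (J : ℝ)⌋₊ = a₂' := by rw [hW2, ha₂']
      have q3 : ⌊A 3 * (J : ℝ)⌋₊ = a₃' := by rw [hA3, ha₃']
      have q3' : ⌊W 3 * (J : ℝ)⌋₊ = a₃' := by rw [hW3, ha₃']
      have g0 : (fun l => ⌊(β l a a - d 0 l) * (J : ℝ)⌋₊) = g 0 := by
        rw [hg]
        simp only [hA0, hW0]
      have g1 : (fun l => ⌊(β l (A 1) (W 1) - d 1 l) * (J : ℝ)⌋₊) = g 1 := by rw [hg]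
      have g2 : (fun l => ⌊(β l (A 2) (W 2) - d 2 l) * (J : ℝ)⌋₊) = g 2 := by rw [hg]
      have g3 : (fun l => ⌊(β l (A 3) (W 3) - d 3 l) * (J : ℝ)⌋₊) = g 3 := by rw [hg]
      rw [← ha₁, g0] at m0 hnv
      rw [q1, q1', g1] at m1
      rw [q2, q2', g2] at m2
      rw [q3, q3', g3] at m3
      rw [he₁]
      have hηs : ⌊η * (J : ℝ)⌋₊ ≤ ⌊s / 8 * (J : ℝ)⌋₊ := hfl _ _ hη1
      have r0 := m0.rlY.mono (D' := D) (by omega) hηs le_rfl
      have r2 := (m2.rlY.mono (D' := D) (by omega) hηs le_rfl).relvF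
      have r1 := (m1.rlY.mono le_rfl hηs le_rfl).relvF
      exact ⟨T, T₂, T₃, T₄, TH, T₂H, T₃H, T₄H, m0.lst.mono hr (fun _ => le_rfl) le_rfl le_rfl,
        (relvH_of r0).low (by omega) hc m0.lst.depG, hnv,
        m2.lst.mono hr (fun _ => le_rfl) le_rfl le_rfl,
        relvF_low r2 (by omega) hc m2.lst.depG,
        m3.lst.mono (by omega) (fun _ => le_rfl) le_rfl le_rfl,
        m1.lst.mono hr (fun _ => le_rfl) le_rfl le_rfl,
        relvF_low r1 (by omega) hc m1.lst.depG⟩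
    · have h3 := hJ₂ J hj2
      have h4 : (0 : ℝ) < 2 ^ C * (N + 1) := by positivity
      calc Real.exp (-(ψm * J)) * 2 ^ C * (N + 1) = Real.exp (-(ψm * J)) * (2 ^ C * (N + 1)) := by
            ring
        _ ≤ 1 / (2 ^ C * (N + 1)) * (2 ^ C * (N + 1)) := mul_le_mul_of_nonneg_right h3 h4.le
        _ = 1 := by field_simp
    · have h3 := mul_le_mul_of_nonneg_right hθ1 hJ0
      have h4 : ((J : ℝ) - a₃ * J) * Real.log 2 ≤ ((J : ℝ) - a₃') * Real.log 2 :=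
        mul_le_mul_of_nonneg_right (by linarith only [a3u]) hln.le
      linarith only [h3, h4, haJ]
    · have h3 := mul_le_mul_of_nonneg_right hθ2 hJ0
      linarith only [h3, s1d, hsJ, hC₁, hCr, CsJ]
    · have h3 : ((⌊s / 8 * (J : ℝ)⌋₊ : ℕ) : ℝ) ≤ s / 8 * J := hfu _ (by positivity)
      have h4 : ((⌊s / 8 * (J : ℝ)⌋₊ : ℕ) : ℝ) ≤ s₂ := by linarith
      exact_mod_cast h4
    · have h4 : (C : ℝ) * (s₂ + 1) ≤ s₁ := by linarith only [Cs2, s1d, hsJ, hC₁, hCr, CsJ, sJ1]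
      exact_mod_cast h4
    · have h3 : ⌊(β 1 a a + Lo₁) * (J : ℝ)⌋₊ ≤ ⌊(β 1 a a + s) * (J : ℝ)⌋₊ :=
        hfl _ _ (by linarith)
      have h4 := hfu (β 1 a a + s) (by linarith)
      have h5 := gd0 1 (by norm_num)
      have h6 : ((⌊(β 1 a a + Lo₁) * (J : ℝ)⌋₊ : ℕ) : ℝ) ≤ ((⌊(β 1 a a + s) * (J : ℝ)⌋₊ : ℕ) : ℝ) :=
        by exact_mod_cast h3
      have h7 : ((⌊(β 1 a a + Lo₁) * (J : ℝ)⌋₊ : ℕ) : ℝ) ≤ g 0 1 + s₂ := by linarith
      exact_mod_cast h7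
    · intro l hl
      have h3 := gNu l (by omega)
      have h4 := gd0 l hl
      have h5 := mJ (hb1 l hl)
      have h6 : (gN l : ℝ) ≤ g 0 l + s₁ := by linarith
      exact_mod_cast h6
    · intro j _
      split_ifs
      · exact hfJ _ (by linarith)
      · exact hfJ _ (by linarith)
    · intro l hl
      have h3 := gNu l hl
      have h5 := mJ (hr1 l hl)
      have h6 : ((e₁ : ℝ) + E₁ + gN l + C * (s₁ + 1)) ≤ J := by linarith
      exact_mod_cast h6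
    · intro l hl
      have h3 := gu0 l hl
      have h5 := mJ (hr2 l hl)
      have h6 : ((e₁ : ℝ) + E₁ + g 0 l + C * (s₁ + 1)) ≤ J := by linarith
      exact_mod_cast h6
    · intro l hl
      have h3 := gu2 l hl
      have h5 := mJ (hr3 l hl)
      have h6 : ((e₁ : ℝ) + g 2 l + C * (s₁ + 1)) ≤ J := by linarith
      exact_mod_cast h6
    · intro l hl
      have h3 := gu3 l (by omega)
      have h5 := mJ (hr4 l hl)
      have h6 : ((e₁ : ℝ) + g 3 l + C * (s₁ + 1)) ≤ J := by linarith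
      exact_mod_cast h6
    · intro l hl
      have h3 := gu1 l hl
      have h5 := mJ (hr5 l hl)
      have h6 : ((e₁ : ℝ) + g 1 l + C * (s₁ + 1)) ≤ J := by linarith
      exact_mod_cast h6
    · have h3 := gNd 3 (by norm_num)
      have h4 := mJ (hβN 3 (by norm_num))
      have h5 := mJ hKa
      have h6 : ((C : ℝ) * (s₁ + 1)) ≤ gN 3 := by linarith
      exact_mod_cast h6
    · intro l hl
      have h3 := gNu l (by omega)
      have h5 := mJ (hr1 l (by omega))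
      have h10 : 0 ≤ e' * J := mul_nonneg he' hJ0
      have h11 : 0 ≤ (E + ϱ) * J := mul_nonneg (by linarith) hJ0
      have h6 : (gN l : ℝ) ≤ J := by linarith
      exact_mod_cast h6
    · -- the number of classes
      have h3 := gNu 3 (by norm_num)
      have h4 := gu0 1 (by norm_num)
      have h5 := mJ (hr1 3 (by norm_num))
      have h6 := mJ (hr2 1 (by norm_num))
      have h7 := mul_le_mul_of_nonneg_right hN1 hJ0
      have h8 : (N : ℝ) * (s * J) ≤ N * s₁ :=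
        mul_le_mul_of_nonneg_left (by linarith) hNr
      have h9 : a * J ≤ 1 * J := mJ (by linarith)
      have h10 : 0 ≤ e' * J := mul_nonneg he' hJ0
      have h11 : 0 ≤ (E + ϱ) * J := mul_nonneg (by linarith) hJ0
      have h12 : 0 ≤ β 1 a a * J := mul_nonneg hβa hJ0
      have h13 : 0 ≤ β 3 a₀ w * J := mul_nonneg (by linarith [hβN 3 (by norm_num)]) hJ0
      have h14 : (C : ℝ) * J ≥ 0 := mul_nonneg hCr hJ0
      have h15 : (C : ℝ) * (s₁ + 1) + a₁ + e₁ + E₁ + g 0 1 + J + gN 3 ≤ N * s₁ := by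
        linarith only [h3, h4, h5, h6, h7, h8, h9, h10, h11, h12, h13, h14, a1u, e1u, E1u, Cs1,
          CsJ, sJ1, KsJ, hJC]
      exact_mod_cast h15
    · have h3 := gu1 2 (by norm_num)
      have h5 := mJ hl1
      have h6 : (a₁ : ℝ) + g 1 2 + C * (s₁ + 1) ≤ Q := by
        rw [Qd]
        linarith
      exact_mod_cast h6
    · have h3 := gu1 2 (by norm_num)
      have h4 := gd0 2 (by norm_num)
      have h5 := mJ hl2
      have h6 : (g 1 2 : ℝ) + C * (s₁ + 1) ≤ g 0 2 := by linarith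
      exact_mod_cast h6
    · have h3 := gu0 1 (by norm_num)
      have h4 := gd3 1 (by norm_num)
      have h5 := mJ hl3
      have h6 : (g 0 1 : ℝ) + a₃' + C * (s₁ + 1) ≤ g 3 1 + a₁ := by linarith
      exact_mod_cast h6
    · have h3 := gu2 1 (by norm_num)
      have h4 := gd3 1 (by norm_num)
      have h5 := mJ hl4
      have h6 : (g 2 1 : ℝ) + a₃' + C * (s₁ + 1) ≤ g 3 1 + a₁ := by linarith
      exact_mod_cast h6
    · have h3 := gu0 2 (by norm_num)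
      have h4 := gd2 2 (by norm_num)
      have h5 := mJ hl5
      have h6 : (g 0 2 : ℝ) + a₂' + C * (s₁ + 1) ≤ g 2 2 + a₁ := by linarith
      exact_mod_cast h6
    · have h5 := mJ hww₂
      have h6 : (w₁ : ℝ) + C * (s₁ + 1) ≤ w₂' := by linarith
      exact_mod_cast h6
    · have h3 := gu0 0 (by norm_num)
      have h4 := gd1 0 (by norm_num)
      have h5 := mJ hb2
      have h6 : (g 0 0 : ℝ) ≤ g 1 0 + s₁ := by linarith
      exact_mod_cast h6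
    · have h3 := gu0 1 (by norm_num)
      have h4 := gd1 1 (by norm_num)
      have h5 := mJ hb3
      have h6 : (g 0 1 : ℝ) ≤ g 1 1 + s₁ := by linarith
      exact_mod_cast h6
    · have h3 := gu1 1 (by norm_num)
      have h4 := gd0 1 (by norm_num)
      have h5 := mJ hb4
      have h6 : (g 1 1 : ℝ) ≤ g 0 1 + s₁ := by linarith
      exact_mod_cast h6

end Pool.NVX
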