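import Pool.Agent.H80.NV.Pln

/-!
# The label of `c 2` of any node on the plane of the lines through the point
-/

set_option autoImplicit false

namespace Pool.NVX

open Finset Real MvPolynomial
open Pool.Agent.H49.Ent Pool.Agent.H32.Dense Pool.STK Pool.KA Pool.KSAT Pool.K2S Pool.PB Pool.S6C
open Pool.GEN Pool.CHT
open Pool.D2R (dd hs dd_add dd_smul dd_congr)
open Pool.SHR (dir mvp dvc meanv mvp_none mvp_some mvp_zero dir_deg dir_dep)
open Pool.PB.Trl (rt rt_mem t_rt)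

/-- The exponents. -/
theorem pl2_num (c₀ c₁ c₂ D₁ N n h k y z n' u T : ℕ) (hT : T = n + h + k + y + 1)
    (hz : z = n + h + k + c₂ + 6) (hn' : n' = n + z + 1) (hu : u = c₀ + n' * D₁ + y + z) :
    c₁ + (c₂ + n + k + h + 4) * N + n + u + 2 + (c₂ + n + k + 1 + (h + 4 + c₂ + n)) + 1 ≤
      (c₁ + (c₂ + 5) * N + (c₀ + (c₂ + 8) * D₁ + 1 + (c₂ + 6)) + (2 * c₂ + 20)) * T := by
  have hT1 : 1 ≤ T := by omega
  have a1 : c₂ ≤ c₂ * T := Nat.le_mul_of_pos_right _ hT1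
  have a2 : c₁ ≤ c₁ * T := Nat.le_mul_of_pos_right _ hT1
  have a3 : c₀ ≤ c₀ * T := Nat.le_mul_of_pos_right _ hT1
  have bz : z ≤ (c₂ + 6) * T := by
    have : (c₂ + 6) * T = c₂ * T + 6 * T := by ring
    omega
  have bn : n' ≤ (c₂ + 8) * T := by
    have : (c₂ + 8) * T = c₂ * T + 8 * T := by ring
    omega
  have bu : u ≤ (c₀ + (c₂ + 8) * D₁ + 1 + (c₂ + 6)) * T := by
    have b1 : n' * D₁ ≤ (c₂ + 8) * T * D₁ := Nat.mul_le_mul_right _ bn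
    have b2 : (c₀ + (c₂ + 8) * D₁ + 1 + (c₂ + 6)) * T =
        c₀ * T + (c₂ + 8) * T * D₁ + T + (c₂ + 6) * T := by ring
    omega
  have b3 : c₂ + n + k + h + 4 ≤ (c₂ + 5) * T := by
    have : (c₂ + 5) * T = c₂ * T + 5 * T := by ring
    omega
  have b4 : (c₂ + n + k + h + 4) * N ≤ (c₂ + 5) * T * N := Nat.mul_le_mul_right _ b3
  have b2 : (c₁ + (c₂ + 5) * N + (c₀ + (c₂ + 8) * D₁ + 1 + (c₂ + 6)) + (2 * c₂ + 20)) * T =
      c₁ * T + (c₂ + 5) * T * N + (c₀ + (c₂ + 8) * D₁ + 1 + (c₂ + 6)) * T + 2 * (c₂ * T) +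
        20 * T := by ring
  rw [b2]
  omega

/-- **The label of `c 2` on the plane**, for the label of any node whose derivative in the
direction `c 1` is almost constant on the natural box. -/
theorem pln_lab2 (D : ℕ) (hD : 1 ≤ D) : ∃ C : ℕ, ∀ {m J : ℕ} {F : Fam m J} {c : ℕ → Fin m}
    {a n h k y g₀ : ℕ} {g : ℕ → ℕ} {B : F.Ω → Prop} {τ ζ : ℝ}
    {G : PtT F → ℕ → MvPolynomial (Option (Fin m)) ℝ} {ω : F.Ω} {X₀ : Option (Fin m) → ℝ},
    Set.InjOn c (Set.Iio 3) →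
    (∀ y l, (G y l).totalDegree ≤ D) → (∀ y l, DepC c l (G y l)) → Pth F c 3 a n g B G → B ω →
    (∃ p q : ℝ, ∀ ν, B ν → ptr F J ν = ptr F J ω →
      |bd F ν (some (c 1)) - (p + q * bd F ν (some (c 0)))| ≤ ζ) → ζ ≤ 2 ^ a / 2 ^ g 1 →
    (∀ b, NBx c (G (ptr F J ω)) g a (F.t ω) 2 b →
      |eval b (dir (ek (c 1)) (G (ptr F J ω) 2)) - τ| ≤ 2 ^ y * 2 ^ g 1 / 2 ^ g 2) →
    Sep F c B (2 ^ a / 2 ^ (g₀ + h + 3)) (D + 1) ω → X₀ none = 0 → X₀ (some (c 0)) = 1 →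
    (∃ (ν₁ ν₂ : F.Ω) (δ : ℝ), B ν₁ ∧ ptr F J ν₁ = ptr F J ω ∧ B ν₂ ∧ ptr F J ν₂ = ptr F J ω ∧
      |δ| ≤ 2 ^ (h + 3) ∧ (1 / 2 ^ g₀ : ℝ) • X₀ = δ • (vl F a ν₁ - vl F a ν₂)) →
    g₀ ≤ g 0 + k → ∀ α β : ℝ, |α| ≤ 2 ^ k → |β| ≤ 2 ^ k →
      |(bt F ω + α • vl F a ω + β • ((1 / 2 ^ g₀ : ℝ) • X₀)) (some (c 2)) -
        eval (bt F ω + α • vl F a ω + β • ((1 / 2 ^ g₀ : ℝ) • X₀)) (G (ptr F J ω) 2)| ≤
        2 ^ (C * (n + h + k + y + 1)) / 2 ^ g 2 := by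
  obtain ⟨C₁, hC₁, N, hpb⟩ := pb_one D hD
  obtain ⟨C₂, hC₂, hvel⟩ := vel_one D
  obtain ⟨c₀, D₁, hD₁, hdil⟩ := nbx_dil 3 (fun _ => D)
  obtain ⟨c₁, hc₁⟩ := pow_unbounded_of_one_lt C₁ (one_lt_two (α := ℝ))
  obtain ⟨c₂, hc₂⟩ := pow_unbounded_of_one_lt C₂ (one_lt_two (α := ℝ))
  have pw : ∀ {x y : ℕ}, x ≤ y → (2 : ℝ) ^ x ≤ 2 ^ y := fun h => pow_le_pow_right₀ (by norm_num) h
  refine ⟨c₁ + (c₂ + 5) * N + (c₀ + (c₂ + 8) * D₁ + 1 + (c₂ + 6)) + (2 * c₂ + 20), ?_⟩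
  intro m J F c a n h k y g₀ g B τ ζ G ω X₀ hc hdG hdep hpth hω hdp hζ hτ hsep hX0 hX1 hrep hg0
    α β hα hβ
  obtain ⟨T, hT⟩ : ∃ T, T = n + h + k + y + 1 := ⟨_, rfl⟩
  obtain ⟨z, hz⟩ : ∃ z, z = n + h + k + c₂ + 6 := ⟨_, rfl⟩
  obtain ⟨n', hn'⟩ : ∃ n', n' = n + z + 1 := ⟨_, rfl⟩
  obtain ⟨u, hu⟩ : ∃ u, u = c₀ + n' * D₁ + y + z := ⟨_, rfl⟩
  have hnum := pl2_num c₀ c₁ c₂ D₁ N n h k y z n' u T hT hz hn' hu
  rw [← hT]
  have hT1 : 1 ≤ T := by omega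
  obtain ⟨ν, hν1, -, hν3⟩ := hsep
  obtain ⟨ν₁, ν₂, δ, hB₁, hp₁, hB₂, hp₂, hδ, hXd⟩ := hrep
  obtain ⟨x, hx⟩ : ∃ x, x = bt F ω := ⟨_, rfl⟩
  obtain ⟨U₀, hU₀⟩ : ∃ U, U = vl F a ω := ⟨_, rfl⟩
  obtain ⟨U₁, hU₁⟩ : ∃ U, U = (1 / 2 ^ g₀ : ℝ) • X₀ := ⟨_, rfl⟩
  obtain ⟨Gw, hGw⟩ : ∃ Gw, Gw = G (ptr F J ω) := ⟨_, rfl⟩
  have hGd : ∀ l, (Gw l).totalDegree ≤ D := fun l => by rw [hGw]; exact hdG _ l
  have hGp : ∀ l, DepC c l (Gw l) := fun l => by rw [hGw]; exact hdep _ l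
  have hU0n : U₀ none = 1 / 2 ^ a := by rw [hU₀]; exact vl_none F a ω
  have hU1n : U₁ none = 0 := by rw [hU₁, Pi.smul_apply, hX0, smul_zero]
  have hU1c : U₁ (some (c 0)) = 1 / 2 ^ g₀ := by
    rw [hU₁, Pi.smul_apply, hX1, smul_eq_mul, mul_one]
  have hc01 : (c 0 : Fin m) ≠ c 1 := fun h => by
    have := hc (show (0 : ℕ) ∈ Set.Iio 3 by norm_num) (show (1 : ℕ) ∈ Set.Iio 3 by norm_num) h
    omega
  have hpath : ∀ μ, B μ → ptr F J μ = ptr F J ω → ∀ s : ℝ, -rt F a μ ≤ s → s ≤ 1 - rt F a μ →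
      ∀ l < 3, |(x + s • vl F a μ) (some (c l)) - eval (x + s • vl F a μ) (Gw l)| ≤
        2 ^ n / 2 ^ g l := by
    intro μ hμ hpt s h0 h1 l hl
    rw [hx, hGw]
    exact hpth ω μ hω hμ hpt.symm s h0 h1 l hl
  have hvl : ∀ μ, B μ → ptr F J μ = ptr F J ω → ∀ l < 3,
      |vl F a μ (some (c l)) - dd (Gw l) x (vl F a μ)| ≤ 2 ^ (c₂ + n) / 2 ^ g l := by
    intro μ hμ hpt l hl
    have hrt := rt_mem F a μ
    refine (hvel (Gw l) x (vl F a μ) (some (c l)) (rt F a μ) (2 ^ n / 2 ^ g l) (hGd l) hrt.1 hrt.2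
      fun s h0 h1 => hpath μ hμ hpt s h0 h1 l hl).trans ?_
    rw [pow_add, mul_div_assoc]
    exact mul_le_mul_of_nonneg_right hc₂.le (by positivity)
  have hη : ∀ μ, B μ → ptr F J μ = ptr F J ω →
      |2 ^ g₀ * (vl F a μ (some (c 0)) - vl F a ω (some (c 0)))| ≤ 2 ^ (c₂ + n + k + 1) := by
    intro μ hμ hpt
    have h1 := hvl μ hμ hpt 0 (by norm_num)
    have h2 := hvl ω hω rfl 0 (by norm_num)
    have h3 : dd (Gw 0) x (vl F a μ) = dd (Gw 0) x (vl F a ω) :=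
      dd_congr (hGp 0) x (by rw [vl_none, vl_none]) fun l hl => absurd hl (Nat.not_lt_zero l)
    rw [abs_mul, abs_of_pos (show (0 : ℝ) < 2 ^ g₀ by positivity)]
    have h4 : |vl F a μ (some (c 0)) - vl F a ω (some (c 0))| ≤
        2 ^ (c₂ + n) / 2 ^ g 0 + 2 ^ (c₂ + n) / 2 ^ g 0 := by
      have e1 : vl F a μ (some (c 0)) - vl F a ω (some (c 0)) =
          (vl F a μ (some (c 0)) - dd (Gw 0) x (vl F a μ)) -
          (vl F a ω (some (c 0)) - dd (Gw 0) x (vl F a ω)) := by rw [h3]; ring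
      rw [e1]
      exact (abs_sub _ _).trans (add_le_add h1 h2)
    have h5 : (2 : ℝ) ^ g₀ ≤ 2 ^ g 0 * 2 ^ k := by rw [← pow_add]; exact pw hg0
    calc (2 : ℝ) ^ g₀ * |vl F a μ (some (c 0)) - vl F a ω (some (c 0))| ≤
        (2 ^ g 0 * 2 ^ k) * (2 ^ (c₂ + n) / 2 ^ g 0 + 2 ^ (c₂ + n) / 2 ^ g 0) :=
          mul_le_mul h5 h4 (abs_nonneg _) (by positivity)
      _ = 2 ^ (c₂ + n + k + 1) := by
          rw [pow_succ, pow_add _ (c₂ + n) k]
          field_simp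
          ring
  obtain ⟨R, hR⟩ : ∃ R : ℝ, R = 2 ^ (c₂ + n + k + 1) := ⟨_, rfl⟩
  have hkR : (2 : ℝ) ^ k ≤ R := by rw [hR]; exact pw (by omega)
  have hR1 : 1 ≤ R := by rw [hR]; exact one_le_pow₀ (by norm_num)
  have hηR : ∀ μ, B μ → ptr F J μ = ptr F J ω →
      |2 ^ g₀ * (vl F a μ (some (c 0)) - vl F a ω (some (c 0)))| ≤ R := fun μ h1 h2 => by
    rw [hR]
    exact hη μ h1 h2
  have hzR : 2 + R * 2 ^ (h + 4) ≤ 2 ^ z := by
    rw [hR, ← pow_add, hz]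
    have e1 : (2 : ℝ) ^ (n + h + k + c₂ + 6) = 2 * 2 ^ (c₂ + n + k + 1 + (h + 4)) := by
      rw [← pow_succ']
      congr 1
      omega
    have e2 : (2 : ℝ) ≤ 2 ^ (c₂ + n + k + 1 + (h + 4)) := by
      calc (2 : ℝ) = 2 ^ 1 := (pow_one 2).symm
        _ ≤ _ := pw (by omega)
    rw [e1]
    linarith
  -- the deviation of a line from the plane
  obtain ⟨p, q, hpq⟩ := hdp
  have hζ0 : 0 ≤ ζ := (abs_nonneg _).trans (hpq ω hω rfl)
  have hz1 : ∀ μ, B μ → ptr F J μ = ptr F J ω → |vl F a μ (some (c 1)) - U₀ (some (c 1)) -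
      2 ^ g₀ * (vl F a μ (some (c 0)) - vl F a ω (some (c 0))) * U₁ (some (c 1))| ≤
        2 ^ z * (ζ / 2 ^ a) := by
    intro μ hμ hpt
    obtain ⟨f, hf⟩ : ∃ f : F.Ω → ℝ, f = fun μ => bd F μ (some (c 1)) -
      q * bd F μ (some (c 0)) := ⟨_, rfl⟩
    have hff : ∀ μ μ', B μ → ptr F J μ = ptr F J ω → B μ' → ptr F J μ' = ptr F J ω →
        |f μ - f μ'| ≤ 2 * ζ := by
      intro μ μ' h1 h2 h3 h4
      have e1 : f μ - f μ' = (bd F μ (some (c 1)) - (p + q * bd F μ (some (c 0)))) -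
          (bd F μ' (some (c 1)) - (p + q * bd F μ' (some (c 0)))) := by
        rw [hf]
        ring
      rw [e1]
      refine (abs_sub _ _).trans ?_
      linarith [hpq μ h1 h2, hpq μ' h3 h4]
    have hU1f : |U₁ (some (c 1)) - q * U₁ (some (c 0))| ≤ 2 ^ (h + 4) * (ζ / 2 ^ a) := by
      have e1 : U₁ (some (c 1)) - q * U₁ (some (c 0)) = δ * (1 / 2 ^ a * (f ν₁ - f ν₂)) := by
        rw [hU₁, hXd, hf]
        simp only [Pi.smul_apply, Pi.sub_apply, smul_eq_mul, vl]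
        ring
      rw [e1, abs_mul, abs_mul, abs_of_pos (show (0 : ℝ) < 1 / 2 ^ a by positivity)]
      have h1 := hff ν₁ ν₂ hB₁ hp₁ hB₂ hp₂
      calc |δ| * (1 / 2 ^ a * |f ν₁ - f ν₂|) ≤ 2 ^ (h + 3) * (1 / 2 ^ a * (2 * ζ)) :=
            mul_le_mul hδ (mul_le_mul_of_nonneg_left h1 (by positivity)) (by positivity)
              (by positivity)
        _ = _ := by rw [pow_succ 2 (h + 3)]; ring
    obtain ⟨yy, hy⟩ : ∃ yy, yy = 2 ^ g₀ * (vl F a μ (some (c 0)) - vl F a ω (some (c 0))) :=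
      ⟨_, rfl⟩
    have hyR := hηR μ hμ hpt
    rw [← hy] at hyR ⊢
    have e0 : vl F a μ (some (c 0)) - U₀ (some (c 0)) - yy * U₁ (some (c 0)) = 0 := by
      rw [hU1c, hy, hU₀]
      field_simp
      ring
    have e1 : vl F a μ (some (c 1)) - U₀ (some (c 1)) - yy * U₁ (some (c 1)) =
        1 / 2 ^ a * (f μ - f ω) - yy * (U₁ (some (c 1)) - q * U₁ (some (c 0))) +
        q * (vl F a μ (some (c 0)) - U₀ (some (c 0)) - yy * U₁ (some (c 0))) := by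
      rw [hU₀, hf]
      simp only [vl, Pi.smul_apply, smul_eq_mul]
      ring
    rw [e1, e0, mul_zero, add_zero]
    refine (abs_sub _ _).trans ?_
    rw [abs_mul, abs_mul, abs_of_pos (show (0 : ℝ) < 1 / 2 ^ a by positivity)]
    have h1 := hff μ ω hμ hpt hω rfl
    have h2 : |yy| * |U₁ (some (c 1)) - q * U₁ (some (c 0))| ≤
        R * (2 ^ (h + 4) * (ζ / 2 ^ a)) :=
      mul_le_mul hyR hU1f (abs_nonneg _) (by linarith)
    have h3 : 1 / 2 ^ a * |f μ - f ω| ≤ 1 / 2 ^ a * (2 * ζ) :=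
      mul_le_mul_of_nonneg_left h1 (by positivity)
    have h4 : (2 + R * 2 ^ (h + 4)) * (ζ / 2 ^ a) ≤ 2 ^ z * (ζ / 2 ^ a) :=
      mul_le_mul_of_nonneg_right hzR (by positivity)
    have h5 : 1 / 2 ^ a * (2 * ζ) + R * (2 ^ (h + 4) * (ζ / 2 ^ a)) =
        (2 + R * 2 ^ (h + 4)) * (ζ / 2 ^ a) := by ring
    linarith
  have hU1d : |U₁ (some (c 2)) - dd (Gw 2) x U₁| ≤ 2 ^ (h + 4 + c₂ + n) / 2 ^ g 2 := by
    have e1 : U₁ (some (c 2)) - dd (Gw 2) x U₁ =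
        δ * ((vl F a ν₁ (some (c 2)) - dd (Gw 2) x (vl F a ν₁)) -
          (vl F a ν₂ (some (c 2)) - dd (Gw 2) x (vl F a ν₂))) := by
      rw [hU₁, hXd, dd_smul, dd_sub_right, Pi.smul_apply, Pi.sub_apply, smul_eq_mul]
      ring
    rw [e1, abs_mul]
    have h1 := hvl ν₁ hB₁ hp₁ 2 (by norm_num)
    have h2 := hvl ν₂ hB₂ hp₂ 2 (by norm_num)
    have h3 := (abs_sub (vl F a ν₁ (some (c 2)) - dd (Gw 2) x (vl F a ν₁))
      (vl F a ν₂ (some (c 2)) - dd (Gw 2) x (vl F a ν₂))).trans (add_le_add h1 h2)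
    calc |δ| * _ ≤ 2 ^ (h + 3) * (2 ^ (c₂ + n) / 2 ^ g 2 + 2 ^ (c₂ + n) / 2 ^ g 2) :=
          mul_le_mul hδ h3 (abs_nonneg _) (by positivity)
      _ = _ := by
          rw [show h + 4 + c₂ + n = (h + 3) + (c₂ + n) + 1 by omega, pow_succ, pow_add]
          ring
  rw [← hx, ← hU₀, ← hU₁, ← hGw]
  have hmu : (0 : ℝ) < 1 / 2 ^ (h + 3) := by positivity
  have hmu1 : (1 : ℝ) / 2 ^ (h + 3) ≤ 1 := by
    rw [div_le_one (by positivity)]
    exact one_le_pow₀ (by norm_num)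
  have hRmu : R / (1 / 2 ^ (h + 3)) = 2 ^ (c₂ + n + k + h + 4) := by
    rw [hR, div_div_eq_mul_div, div_one, ← pow_add]
    congr 1
    omega
  obtain ⟨V, hV⟩ : ∃ V : Fin (D + 1) → Option (Fin m) → ℝ, V = fun j => vl F a (ν j) := ⟨_, rfl⟩
  obtain ⟨η, hη'⟩ : ∃ η : Fin (D + 1) → ℝ, η = fun j =>
      2 ^ g₀ * (vl F a (ν j) (some (c 0)) - vl F a ω (some (c 0))) := ⟨_, rfl⟩
  have hsepη : ∀ j j', j ≠ j' → 1 / 2 ^ (h + 3) ≤ |η j - η j'| := by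
    intro j j' hjj
    have h1 := hν3 j j' hjj
    have e1 : η j - η j' = 2 ^ g₀ / 2 ^ a * (bd F (ν j) (some (c 0)) - bd F (ν j') (some (c 0))) := by
      rw [hη']
      simp only [vl, Pi.smul_apply, smul_eq_mul]
      ring
    rw [e1, abs_mul, abs_of_pos (show (0 : ℝ) < 2 ^ g₀ / 2 ^ a by positivity)]
    calc (1 : ℝ) / 2 ^ (h + 3) = 2 ^ g₀ / 2 ^ a * (2 ^ a / 2 ^ (g₀ + h + 3)) := by
          rw [show g₀ + h + 3 = g₀ + (h + 3) by omega, pow_add 2 g₀ (h + 3)]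
          field_simp
      _ ≤ _ := mul_le_mul_of_nonneg_left h1 (by positivity)
  have hpt0 : ∀ (j : Fin (D + 1)) (t : ℝ), (x + t • (U₀ + η j • U₁)) none =
      (x + t • V j) none := by
    intro j t
    simp only [Pi.add_apply, Pi.smul_apply, smul_eq_mul]
    rw [hU1n, hU0n, hV]
    show x none + t * (1 / 2 ^ a + η j * 0) = x none + t * vl F a (ν j) none
    rw [vl_none]
    ring
  have hpt1 : ∀ (j : Fin (D + 1)) (t : ℝ),
      (x + t • (U₀ + η j • U₁)) (some (c 0)) = (x + t • V j) (some (c 0)) := by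
    intro j t
    simp only [Pi.add_apply, Pi.smul_apply, smul_eq_mul]
    rw [hU1c, hU₀, hV, hη']
    field_simp
    ring
  -- the boxes
  obtain ⟨s₁, hs₁⟩ : ∃ s₁ : ℝ, s₁ = 2 ^ z * (ζ / 2 ^ a) := ⟨_, rfl⟩
  have hs10 : 0 ≤ s₁ := by rw [hs₁]; positivity
  have hs1g : s₁ ≤ 2 ^ z / 2 ^ g 1 := by
    rw [hs₁, div_eq_mul_one_div ((2 : ℝ) ^ z)]
    refine mul_le_mul_of_nonneg_left ?_ (by positivity)
    rw [div_le_div_iff₀ (by positivity) (by positivity), one_mul]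
    rw [le_div_iff₀ (by positivity)] at hζ
    exact hζ
  obtain ⟨K₂, hK₂⟩ : ∃ K₂ : ℝ, K₂ = 2 ^ (c₀ + n' * D₁) * (2 ^ y * 2 ^ g 1 / 2 ^ g 2) := ⟨_, rfl⟩
  have hK20 : 0 ≤ K₂ := by rw [hK₂]; positivity
  have hKs : K₂ * s₁ ≤ 2 ^ u / 2 ^ g 2 := by
    calc K₂ * s₁ ≤ K₂ * (2 ^ z / 2 ^ g 1) := mul_le_mul_of_nonneg_left hs1g hK20
      _ = 2 ^ u / 2 ^ g 2 := by
          rw [hK₂, hu, show c₀ + n' * D₁ + y + z = (c₀ + n' * D₁) + (y + z) by omega,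
            pow_add _ (c₀ + n' * D₁) (y + z), pow_add _ y z]
          field_simp
  obtain ⟨z₁, hz₁⟩ : ∃ z₁ : Fin (D + 1) → ℝ, z₁ = fun j => V j (some (c 1)) -
      U₀ (some (c 1)) - η j * U₁ (some (c 1)) := ⟨_, rfl⟩
  have hz1b : ∀ j, |z₁ j| ≤ s₁ := by
    intro j
    rw [hz₁, hV, hη', hs₁]
    exact hz1 (ν j) (hν1 j).1 (hν1 j).2
  have hL : ∀ j, ∀ t : ℝ, -rt F a (ν j) ≤ t → t ≤ 1 - rt F a (ν j) →
      |eval (x + t • (U₀ + η j • U₁)) (Gw 2) - eval (x + t • V j) (Gw 2) - t * (-(z₁ j) * τ)| ≤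
        2 ^ u / 2 ^ g 2 := by
    intro j t h0 h1
    have ht1 : |t| ≤ 1 := by
      have := rt_mem F a (ν j)
      exact abs_le.2 ⟨by linarith [this.2], by linarith [this.1]⟩
    obtain ⟨b, hb⟩ : ∃ b, b = x + t • V j := ⟨_, rfl⟩
    obtain ⟨sv, hsv⟩ : ∃ sv, sv = -(t * z₁ j) := ⟨_, rfl⟩
    have hsv1 : |sv| ≤ s₁ := by
      rw [hsv, abs_neg, abs_mul]
      calc |t| * |z₁ j| ≤ 1 * s₁ := mul_le_mul ht1 (hz1b j) (abs_nonneg _) (by norm_num)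
        _ = s₁ := one_mul _
    have e1 : eval (x + t • (U₀ + η j • U₁)) (Gw 2) = eval (mvp (ek (c 1)) sv b) (Gw 2) := by
      refine hGp 2 _ _ ?_ fun k hk => ?_
      · rw [hpt0, mvp_none, hb]
      · rcases Nat.lt_or_ge k 1 with h2 | h2
        · have : k = 0 := by omega
          subst this
          rw [hpt1, mvp_some, ek_ne hc01, mul_zero, add_zero, hb]
        · have : k = 1 := by omega
          subst this
          rw [mvp_some, ek_self, mul_one, hb, hsv, hz₁]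
          simp only [Pi.add_apply, Pi.smul_apply, smul_eq_mul]
          ring
    have hbn : b none - F.t ω = t * (1 / 2 ^ a) := by
      rw [hb, Pi.add_apply, Pi.smul_apply, hV, smul_eq_mul]
      show x none + t * vl F a (ν j) none - F.t ω = _
      rw [vl_none, hx]
      show F.t ω + t * (1 / 2 ^ a) - F.t ω = _
      ring
    have hbl : ∀ l < 3, |b (some (c l)) - eval b (Gw l)| ≤ 2 ^ n / 2 ^ g l := by
      intro l hl
      rw [hb, hV]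
      exact hpath (ν j) (hν1 j).1 (hν1 j).2 t h0 h1 l hl
    have h2 := meanv (ek (c 1)) b (Gw 2) (x := τ) (Y := K₂) (s := sv) (fun s' hs' => by
      have hs'1 : |s'| ≤ 2 ^ z / 2 ^ g 1 := (hs'.trans hsv1).trans hs1g
      have h3 := hdil (c := c) (i := 2) (G := Gw)
        (Q := dir (ek (c 1)) (Gw 2) - C τ) (g := g) (a := a) (t := F.t ω)
        (M := 2 ^ y * 2 ^ g 1 / 2 ^ g 2) n'
        (by norm_num) (hc.mono (by
          intro y hy
          rw [Set.mem_Iio] at hy ⊢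
          omega)) hGd hGp (fun b b' hn hb => by
          rw [map_sub, map_sub, eval_C, eval_C, dir_dep _ (hGp 2) b b' hn hb])
        ((totalDegree_sub _ _).trans (max_le (dir_deg _ (hGd 2)) (by
          rw [totalDegree_C]; exact Nat.zero_le _))) (by positivity) (fun b hb => by
          rw [map_sub, eval_C, hGw]
          rw [hGw] at hb
          exact hτ b hb) (mvp (ek (c 1)) s' b) (by
          rw [mvp_none, hbn, abs_mul, abs_of_pos (show (0 : ℝ) < 1 / 2 ^ a by positivity)]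
          calc |t| * (1 / 2 ^ a) ≤ 1 * (1 / 2 ^ a) :=
                mul_le_mul_of_nonneg_right ht1 (by positivity)
            _ = _ := one_mul _) (fun l hl => by
          rcases Nat.lt_or_ge l 1 with h4 | h4
          · have : l = 0 := by omega
            subst this
            have e3 : eval (mvp (ek (c 1)) s' b) (Gw 0) = eval b (Gw 0) :=
              hGp 0 _ _ (mvp_none _ _ _) fun k hk => absurd hk (Nat.not_lt_zero k)
            rw [e3, mvp_some, ek_ne hc01, mul_zero, add_zero]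
            refine (hbl 0 (by norm_num)).trans (div_le_div_of_nonneg_right (pw ?_)
              (by positivity))
            omega
          · have : l = 1 := by omega
            subst this
            have e3 : eval (mvp (ek (c 1)) s' b) (Gw 1) = eval b (Gw 1) :=
              hGp 1 _ _ (mvp_none _ _ _) fun k hk => by
                have : k = 0 := by omega
                subst this
                rw [mvp_some, ek_ne hc01, mul_zero, add_zero]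
            rw [e3, mvp_some, ek_self, mul_one]
            have e4 : b (some (c 1)) + s' - eval b (Gw 1) =
                (b (some (c 1)) - eval b (Gw 1)) + s' := by ring
            rw [e4]
            refine (abs_add_le _ _).trans ((add_le_add (hbl 1 (by norm_num)) hs'1).trans ?_)
            rw [← add_div]
            refine div_le_div_of_nonneg_right ?_ (by positivity)
            have g1 : (2 : ℝ) ^ n ≤ 2 ^ (n + z) := pw (by omega)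
            have g2 : (2 : ℝ) ^ z ≤ 2 ^ (n + z) := pw (by omega)
            rw [hn', pow_succ]
            linarith)
      rw [map_sub, eval_C, ← hK₂] at h3
      exact h3)
    rw [e1, ← hb]
    have e5 : eval (mvp (ek (c 1)) sv b) (Gw 2) - eval b (Gw 2) - t * (-(z₁ j) * τ) =
        eval (mvp (ek (c 1)) sv b) (Gw 2) - eval b (Gw 2) - τ * sv := by
      rw [hsv]
      ring
    rw [e5]
    exact (h2.trans (mul_le_mul_of_nonneg_left hsv1 hK20)).trans hKs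
  have hrtw := rt_mem F a ω
  have h1 := hpb (Gw 2) x U₀ U₁ V (some (c 2)) η (fun j => rt F a (ν j)) (fun j => -(z₁ j) * τ)
    (rt F a ω) R (1 / 2 ^ (h + 3)) (2 ^ n / 2 ^ g 2) (2 ^ u / 2 ^ g 2)
    (2 ^ (h + 4 + c₂ + n) / 2 ^ g 2) (hGd 2) hR1 hmu hmu1 (fun j => by
      rw [hη']
      exact hηR (ν j) (hν1 j).1 (hν1 j).2) hsepη (fun j => rt_mem F a (ν j)) hrtw.1 hrtw.2
    (fun t h0 h1 => by
      rw [hU₀]
      exact hpath ω hω rfl t h0 h1 2 (by norm_num))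
    (fun j t h0 h1 => by
      rw [hV]
      exact hpath (ν j) (hν1 j).1 (hν1 j).2 t h0 h1 2 (by norm_num)) hL hU1d α β
    (hα.trans hkR) (hβ.trans hkR)
  refine h1.trans ?_
  have e9 : C₁ * (R / (1 / 2 ^ (h + 3))) ^ N * (2 ^ n / 2 ^ g 2 + 2 ^ u / 2 ^ g 2) +
      R * (2 ^ (h + 4 + c₂ + n) / 2 ^ g 2) =
      (C₁ * 2 ^ ((c₂ + n + k + h + 4) * N) * (2 ^ n + 2 ^ u) +
        2 ^ (c₂ + n + k + 1 + (h + 4 + c₂ + n))) / 2 ^ g 2 := by
    rw [hRmu, ← pow_mul, hR, pow_add _ (c₂ + n + k + 1) (h + 4 + c₂ + n)]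
    ring
  rw [e9]
  refine div_le_div_of_nonneg_right ?_ (by positivity)
  obtain ⟨M, hM⟩ : ∃ M, M = c₁ + (c₂ + n + k + h + 4) * N + n + u + 2 +
    (c₂ + n + k + 1 + (h + 4 + c₂ + n)) := ⟨_, rfl⟩
  have g1 : (2 : ℝ) ^ n + 2 ^ u ≤ 2 ^ (n + u + 1) := by
    have a1 : (2 : ℝ) ^ n ≤ 2 ^ (n + u) := pw (by omega)
    have a2 : (2 : ℝ) ^ u ≤ 2 ^ (n + u) := pw (by omega)
    rw [pow_succ]
    linarith
  have g2 : C₁ * 2 ^ ((c₂ + n + k + h + 4) * N) * (2 ^ n + 2 ^ u) ≤ 2 ^ M := by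
    calc C₁ * 2 ^ ((c₂ + n + k + h + 4) * N) * (2 ^ n + 2 ^ u) ≤
        2 ^ c₁ * 2 ^ ((c₂ + n + k + h + 4) * N) * 2 ^ (n + u + 1) := by
          refine mul_le_mul (mul_le_mul_of_nonneg_right hc₁.le (by positivity)) g1
            (by positivity) (by positivity)
      _ = 2 ^ (c₁ + (c₂ + n + k + h + 4) * N + (n + u + 1)) := by rw [← pow_add, ← pow_add]
      _ ≤ _ := pw (by omega)
  have g3 : (2 : ℝ) ^ (c₂ + n + k + 1 + (h + 4 + c₂ + n)) ≤ 2 ^ M := pw (by omega)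
  calc _ ≤ (2 : ℝ) ^ M + 2 ^ M := add_le_add g2 g3
    _ = 2 ^ (M + 1) := by rw [pow_succ]; ring
    _ ≤ _ := pw (by omega)

end Pool.NVX
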