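import Pool.Agent.H80.NV.Hcl
import Pool.Agent.H23.D2.Two
import Pool.Agent.H39.NV.BoxDir

/-!
# Polynomials of the line on a window

`low_rem`: a polynomial of the line is large at most samples, in comparison with its size on the
window. `mkv_win`: the increments of a polynomial which is bounded on the window.
-/

set_option autoImplicit false

namespace Pool.NVX

open Finset Real MvPolynomial
open Pool.Agent.H49.Ent Pool.Agent.H32.Dense Pool.STK Pool.KA Pool.KSAT Pool.K2S Pool.PB Pool.S6C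
open Pool.GEN Pool.CHT
open Pool.D2R (dd hs)
open Pool.SHR (dir mvp RelvH Shr)
open Pool.PB.Trl (rt rt_mem t_rt)
open Pool.FLF (Fam.sub)

variable {m J : ℕ}

/-- A polynomial of the time, in the relative time of the window. -/
noncomputable def rlt (w n : ℕ) (P : Polynomial ℝ) : Polynomial ℝ :=
  P.comp (Polynomial.C (1 / 2 ^ w : ℝ) * (Polynomial.X + Polynomial.C (n : ℝ)))

theorem rlt_deg (w n : ℕ) {P : Polynomial ℝ} {D : ℕ} (h : P.natDegree ≤ D) :
    (rlt w n P).natDegree ≤ D := by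
  unfold rlt
  refine Polynomial.natDegree_comp_le.trans ?_
  have h1 : (Polynomial.C (1 / 2 ^ w : ℝ) * (Polynomial.X + Polynomial.C (n : ℝ))).natDegree ≤
      1 := by
    refine (Polynomial.natDegree_C_mul_le _ _).trans ?_
    exact (Polynomial.natDegree_X_add_C _).le
  calc P.natDegree * _ ≤ D * 1 := Nat.mul_le_mul h h1
    _ = D := Nat.mul_one _

theorem rlt_eval (w n : ℕ) (P : Polynomial ℝ) (τ : ℝ) :
    (rlt w n P).eval τ = P.eval ((n + τ) / 2 ^ w) := by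
  unfold rlt
  rw [Polynomial.eval_comp]
  congr 1
  simp only [Polynomial.eval_mul, Polynomial.eval_C, Polynomial.eval_add, Polynomial.eval_X]
  ring

/-- The relative time of a time. -/
theorem rlt_time (w n : ℕ) (P : Polynomial ℝ) (t : ℝ) :
    (rlt w n P).eval (2 ^ w * t - n) = P.eval t := by
  rw [rlt_eval]
  congr 1
  field_simp
  ring

/-- [R1] (39) **A polynomial of the line is large at most samples**, in comparison with its size on
the window. -/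
theorem low_rem (m D : ℕ) : ∃ C₁ : ℝ, 1 ≤ C₁ ∧ ∀ {J : ℕ} {F : Fam m J} {A : F.Ω → Prop}
    {w s : ℕ} {θ : ℝ} (hA : 0 < Pe F.p A)
    (P : LnT F → Polynomial ℝ) (K : LnT F → ℝ),
    w ≤ J → (∀ s, (P s).natDegree ≤ D) → (Fam.sub F A hA).Tm θ → 0 ≤ θ →
    C₁ * (θ + 1) ≤ ((J : ℝ) - w) * Real.log 2 → C₁ * (θ + 1) ≤ s →
    (∀ ω, A ω → 0 < K (slam F w ω) ∧ ∃ t : ℝ, F.t ω - rt F w ω / 2 ^ w ≤ t ∧
      t ≤ F.t ω + (1 - rt F w ω) / 2 ^ w ∧ K (slam F w ω) ≤ |(P (slam F w ω)).eval t|) →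
    ∃ B : F.Ω → Prop, Sub B A ∧ Pe F.p A / 2 ≤ Pe F.p B ∧ ∀ ω, B ω →
      K (slam F w ω) / 2 ^ s ≤ |(P (slam F w ω)).eval (F.t ω)| := by
  classical
  obtain ⟨C₀, hC₀, hrem⟩ := Pool.PZ.Zrt.rem_ev (m := m) D
  refine ⟨5 * C₀, by linarith, ?_⟩
  intro J F A w s θ hA P K hw hP hTm hθ hJ hs hK
  obtain ⟨Bad, hBad⟩ : ∃ Bad : (Fam.sub F A hA).Ω → Prop, Bad = fun ω =>
      |(P (slam F w ω.1)).eval (F.t ω.1)| < K (slam F w ω.1) / 2 ^ s := ⟨_, rfl⟩
  have hq := (Fam.sub F A hA).isLaw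
  rcases le_or_gt (Pe (Fam.sub F A hA).p Bad) (1 / 2) with hb | hb
  · have hcompl : Pe (Fam.sub F A hA).p (fun ω => ¬ Bad ω) =
        1 - Pe (Fam.sub F A hA).p Bad := by
      have h1 := Pool.PB.Trl.Pe_compl hq Bad
      have h2 : Pe (Fam.sub F A hA).p (fun ω => ¬ Bad ω) =
          Pool.BFL.Pb (Fam.sub F A hA).p (fun ω => ¬ Bad ω) := by
        rw [Pe_eq]
        rfl
      rw [h2]
      linarith
    refine ⟨fun ω => ∃ h : A ω, ¬ Bad ⟨ω, h⟩, fun ω hω => hω.1, ?_, fun ω hω => ?_⟩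
    · obtain ⟨E, hE⟩ : ∃ E : {ω // A ω} → Prop, E = fun ω => ¬ Bad ω := ⟨_, rfl⟩
      have h5 : Pe F.p (fun ω => ∃ h : A ω, E ⟨ω, h⟩) = Pe F.p A * Pe (Fam.sub F A hA).p E :=
        Pool.FLF.sub_Pe hA E
      have h6 : Pe (Fam.sub F A hA).p E = 1 - Pe (Fam.sub F A hA).p Bad := by
        rw [hE]
        exact hcompl
      rw [h6, hE] at h5
      rw [h5]
      nlinarith
    · obtain ⟨h, hω⟩ := hω
      rw [hBad] at hω
      exact not_lt.1 hω
  · exfalso
    have hb0 : 0 < Pe (Fam.sub F A hA).p Bad := by linarith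
    have hTm' := Pool.FLF.Tm_of_event (F := Fam.sub F A hA) (A := Bad) hTm hb0
    obtain ⟨θ', hθ'⟩ : ∃ θ' : ℝ, θ' = (θ + Real.log 2) / Pe (Fam.sub F A hA).p Bad := ⟨_, rfl⟩
    rw [← hθ'] at hTm'
    have hl0 : 0 < Real.log 2 := Real.log_pos (by norm_num)
    have hl1 : Real.log 2 ≤ 1 := by
      have := Real.log_two_lt_d9
      linarith
    have hl2 : (69 : ℝ) / 100 ≤ Real.log 2 := by
      have := Real.log_two_gt_d9
      linarith
    have hθ0 : 0 ≤ θ' := by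
      rw [hθ']
      exact div_nonneg (by linarith) hb0.le
    have hθ2 : θ' ≤ 2 * (θ + 1) := by
      rw [hθ', div_le_iff₀ hb0]
      nlinarith
    have hC₀0 : 0 < C₀ := by linarith
    have hnum : C₀ * (θ' + 1) ≤ 3 * (C₀ * (θ + 1)) := by nlinarith
    obtain ⟨B, k1, k2, k3⟩ := hrem J (Fam.sub F A hA) Bad hb0 w
      (fun s' => Polynomial.C (1 / K s') * rlt w s'.2.2 (P s')) (1 / 2 ^ s) θ' hw
      (fun s' => (Polynomial.natDegree_C_mul_le _ _).trans (rlt_deg _ _ (hP s')))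
      (by positivity) hθ0 hTm' (by
        have : 3 * (C₀ * (θ + 1)) ≤ 5 * C₀ * (θ + 1) := by nlinarith
        linarith) (fun ω hω => by
        rw [hBad] at hω
        have h1 := (hK ω.1 ω.2).1
        have e1 : (rlt w (slam (Fam.sub F A hA) w ω).2.2
            (P (slam (Fam.sub F A hA) w ω))).eval (rt (Fam.sub F A hA) w ω) =
            (P (slam F w ω.1)).eval (F.t ω.1) := by
          have h2 := t_rt F hw ω.1
          rw [h2]
          exact rlt_eval w (slam F w ω.1).2.2 (P (slam F w ω.1)) (rt F w ω.1)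
        have e2 : K (slam (Fam.sub F A hA) w ω) = K (slam F w ω.1) := rfl
        rw [Polynomial.eval_mul, Polynomial.eval_C, e1, e2, abs_mul, abs_of_pos (by positivity),
          one_div_mul_eq_div, div_le_iff₀ h1]
        have h3 : |(P (slam F w ω.1)).eval (F.t ω.1)| < K (slam F w ω.1) / 2 ^ s := hω
        refine h3.le.trans (le_of_eq ?_)
        ring)
    have hBpos : 0 < Pe (Fam.sub F A hA).p B := by linarith
    obtain ⟨ω, hω⟩ : ∃ ω, B ω := by
      by_contra hcon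
      push Not at hcon
      have : Pe (Fam.sub F A hA).p B = 0 := by
        rw [Pe_eq]
        refine Finset.sum_eq_zero fun ω _ => ?_
        rw [if_neg (hcon ω)]
      linarith
    obtain ⟨h1, t, h2, h3, h4⟩ := hK ω.1 ω.2
    have ht := t_rt F hw ω.1
    have hw0 : (0 : ℝ) < 2 ^ w := by positivity
    have e3 : F.t ω.1 - rt F w ω.1 / 2 ^ w = ((slam F w ω.1).2.2 : ℝ) / 2 ^ w := by
      rw [ht]
      ring
    have e4 : F.t ω.1 + (1 - rt F w ω.1) / 2 ^ w = (((slam F w ω.1).2.2 : ℝ) + 1) / 2 ^ w := by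
      rw [ht]
      ring
    rw [e3, div_le_iff₀ hw0] at h2
    rw [e4, le_div_iff₀ hw0] at h3
    have h5 := k3 ω hω (2 ^ w * t - ((slam F w ω.1).2.2 : ℝ)) ⟨by linarith, by linarith⟩
    have e5 : (Polynomial.C (1 / K (slam (Fam.sub F A hA) w ω)) *
        rlt w (slam (Fam.sub F A hA) w ω).2.2 (P (slam (Fam.sub F A hA) w ω))).eval
          (2 ^ w * t - ((slam F w ω.1).2.2 : ℝ)) =
        1 / K (slam F w ω.1) * (P (slam F w ω.1)).eval t := by
      rw [Polynomial.eval_mul, Polynomial.eval_C]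
      congr 1
      exact rlt_time w (slam F w ω.1).2.2 (P (slam F w ω.1)) t
    rw [e5, abs_mul, abs_of_pos (by positivity), one_div_mul_eq_div, div_le_iff₀ h1] at h5
    have h6 : Real.exp (C₀ * (θ' + 1)) * (1 / 2 ^ s) < 1 := by
      rw [mul_one_div, div_lt_one (by positivity), ← Real.rpow_natCast,
        ← Real.exp_log (show (0 : ℝ) < 2 by norm_num), ← Real.exp_mul, Real.exp_lt_exp]
      have h7 : 3 * (C₀ * (θ + 1)) < 5 * C₀ * (θ + 1) * Real.log 2 := by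
        have : 0 < C₀ * (θ + 1) := by positivity
        nlinarith
      have h8 := mul_le_mul_of_nonneg_right hs hl0.le
      linarith
    have h7 := mul_lt_mul_of_pos_right h6 h1
    linarith

/-- The increments of the powers. -/
theorem pow_incr4 (x y : ℝ) (hx : |x| ≤ 4) (hy : |y| ≤ 4) (j : ℕ) :
    |x ^ j - y ^ j| ≤ j * 4 ^ j * |x - y| := by
  induction j with
  | zero => simp
  | succ j ih =>
    have h1 : x ^ (j + 1) - y ^ (j + 1) = x * (x ^ j - y ^ j) + y ^ j * (x - y) := by ring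
    rw [h1]
    refine (abs_add_le _ _).trans ?_
    rw [abs_mul, abs_mul, abs_pow]
    have h2 : |x| * |x ^ j - y ^ j| ≤ 4 * (j * 4 ^ j * |x - y|) :=
      mul_le_mul hx ih (abs_nonneg _) (by norm_num)
    have h3 : |y| ^ j * |x - y| ≤ 4 ^ j * |x - y| :=
      mul_le_mul_of_nonneg_right (pow_le_pow_left₀ (abs_nonneg _) hy j) (abs_nonneg _)
    have h4 : (0 : ℝ) ≤ 4 ^ j * |x - y| := by positivity
    push_cast
    rw [pow_succ]
    nlinarith

/-- The increments of a polynomial which is bounded on the unit interval. -/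
theorem lip_four (K : ℕ) : ∃ C : ℝ, 1 ≤ C ∧ ∀ (q : Polynomial ℝ) (S : ℝ), q.natDegree ≤ K →
    (∀ t ∈ Set.Icc (0 : ℝ) 1, |q.eval t| ≤ S) → ∀ x y : ℝ, |x| ≤ 4 → |y| ≤ 4 →
      |q.eval x - q.eval y| ≤ C * S * |x - y| := by
  obtain ⟨C, hC, h⟩ := Pool.Agent.H40.FR.unit_coef K
  obtain ⟨A, hA⟩ : ∃ A : ℝ, A = ∑ j ∈ range (K + 1), (j : ℝ) * 4 ^ j := ⟨_, rfl⟩
  have hA0 : 0 ≤ A := by
    rw [hA]
    exact Finset.sum_nonneg fun j _ => by positivity
  refine ⟨C * A + 1, by nlinarith, ?_⟩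
  intro q S hq hS x y hx hy
  have hS0 : 0 ≤ S := le_trans (abs_nonneg _) (hS 0 (by simp))
  have h1 := h q S hq hS
  rw [Polynomial.eval_eq_sum_range' (Nat.lt_succ_of_le hq),
    Polynomial.eval_eq_sum_range' (Nat.lt_succ_of_le hq), ← Finset.sum_sub_distrib]
  refine (Finset.abs_sum_le_sum_abs _ _).trans ?_
  have h2 : ∑ j ∈ range (K + 1), |q.coeff j * x ^ j - q.coeff j * y ^ j| ≤
      ∑ j ∈ range (K + 1), (C * S) * ((j : ℝ) * 4 ^ j * |x - y|) := by
    refine Finset.sum_le_sum fun j _ => ?_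
    rw [← mul_sub, abs_mul]
    exact mul_le_mul (h1 j) (pow_incr4 x y hx hy j) (abs_nonneg _) (by positivity)
  refine h2.trans ?_
  rw [← Finset.mul_sum, ← Finset.sum_mul, ← hA]
  have h3 : 0 ≤ S * |x - y| := mul_nonneg hS0 (abs_nonneg _)
  nlinarith

/-- [R2] (39) **Markov on a window**: a polynomial of size `K` on the window `w` moves by
`2 ^ (C + w - w') K` over the distance `2 ^ (1 - w')`. -/
theorem mkv_win (D : ℕ) : ∃ C : ℕ, ∀ {m J : ℕ} {F : Fam m J} {w w' : ℕ} {K : ℝ}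
    {P : Polynomial ℝ} {ω : F.Ω}, w ≤ w' → w' ≤ J → P.natDegree ≤ D →
    (∀ t : ℝ, F.t ω - rt F w ω / 2 ^ w ≤ t → t ≤ F.t ω + (1 - rt F w ω) / 2 ^ w →
      |P.eval t| ≤ K) → ∀ t : ℝ, |t - F.t ω| ≤ 2 / 2 ^ w' →
      |P.eval t - P.eval (F.t ω)| ≤ 2 ^ C * 2 ^ w / 2 ^ w' * K := by
  obtain ⟨C₀, hC₀, hlip⟩ := lip_four D
  obtain ⟨C, hC⟩ := pow_unbounded_of_one_lt (C₀ * 2) (one_lt_two (α := ℝ))
  refine ⟨C, ?_⟩
  intro m J F w w' K P ω hww hwJ hP hK t ht
  have hw0 : (0 : ℝ) < 2 ^ w := by positivity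
  have hw'0 : (0 : ℝ) < 2 ^ w' := by positivity
  obtain ⟨n, hn⟩ : ∃ n : ℕ, n = (slam F w ω).2.2 := ⟨_, rfl⟩
  have htr := t_rt F (hww.trans hwJ) ω
  rw [← hn] at htr
  have hrt := rt_mem F w ω
  have hunit : ∀ τ ∈ Set.Icc (0 : ℝ) 1, |(rlt w n P).eval τ| ≤ K := by
    intro τ hτ
    rw [rlt_eval]
    have e3 : F.t ω - rt F w ω / 2 ^ w = (n : ℝ) / 2 ^ w := by
      rw [htr]
      ring
    have e4 : F.t ω + (1 - rt F w ω) / 2 ^ w = ((n : ℝ) + 1) / 2 ^ w := by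
      rw [htr]
      ring
    refine hK _ ?_ ?_
    · rw [e3]
      exact div_le_div_of_nonneg_right (by linarith [hτ.1]) hw0.le
    · rw [e4]
      exact div_le_div_of_nonneg_right (by linarith [hτ.2]) hw0.le
  have hK0 : 0 ≤ K := (abs_nonneg _).trans (hunit 0 ⟨le_rfl, zero_le_one⟩)
  have e5 : 2 ^ w * F.t ω - (n : ℝ) = rt F w ω := by
    rw [htr]
    field_simp
    ring
  have h2 : |(2 ^ w * t - (n : ℝ)) - (2 ^ w * F.t ω - n)| ≤ 2 ^ w * (2 / 2 ^ w') := by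
    have e6 : (2 ^ w * t - (n : ℝ)) - (2 ^ w * F.t ω - n) = 2 ^ w * (t - F.t ω) := by ring
    rw [e6, abs_mul, abs_of_pos hw0]
    exact mul_le_mul_of_nonneg_left ht hw0.le
  have h3 : (2 : ℝ) ^ w * (2 / 2 ^ w') ≤ 2 := by
    have h4 : (2 : ℝ) ^ w ≤ 2 ^ w' := pow_le_pow_right₀ (by norm_num) hww
    rw [← mul_div_assoc, div_le_iff₀ hw'0]
    linarith
  have hy : |2 ^ w * F.t ω - (n : ℝ)| ≤ 4 := by
    rw [e5, abs_le]
    constructor <;> linarith [hrt.1, hrt.2]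
  have hx : |2 ^ w * t - (n : ℝ)| ≤ 4 := by
    have h5 := h2.trans h3
    rw [e5, abs_le] at h5
    rw [abs_le]
    constructor <;> linarith [hrt.1, hrt.2, h5.1, h5.2]
  have h6 := hlip _ _ (rlt_deg w n hP) hunit _ _ hx hy
  rw [rlt_time, rlt_time] at h6
  refine h6.trans ?_
  calc C₀ * K * |(2 ^ w * t - (n : ℝ)) - (2 ^ w * F.t ω - n)|
      ≤ C₀ * K * (2 ^ w * (2 / 2 ^ w')) :=
        mul_le_mul_of_nonneg_left h2 (mul_nonneg (by linarith) hK0)
    _ = (C₀ * 2) * 2 ^ w / 2 ^ w' * K := by ring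
    _ ≤ 2 ^ C * 2 ^ w / 2 ^ w' * K := by
        refine mul_le_mul_of_nonneg_right ?_ hK0
        exact div_le_div_of_nonneg_right (mul_le_mul_of_nonneg_right hC.le hw0.le) hw'0.le

end Pool.NVX
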