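import Pool.Agent.H39.NV.BoxW
import Pool.Agent.H39.NV.Sig
import Pool.Agent.H87.NV.End

/-!
# The slope of the label of `c 2` in the direction `c 1`, at any node

`sig_exw`: at a node `(a, w)` the slope is visible, and closed at the window `a`, up to the natural
size of the node.
-/

set_option autoImplicit false

namespace Pool.NVX

open Finset Real MvPolynomial
open Pool.Agent.H49.Ent Pool.Agent.H32.Dense Pool.STK Pool.KA Pool.KSAT Pool.K2S Pool.PB Pool.S6C
open Pool.GEN Pool.CHT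
open Pool.D2R (dd hs)
open Pool.SHR (dir mvp mvp_none mvp_some RelvH Shr meanv slp_cmp dir_sub dir_deg dir_dep)

variable {m J : ℕ}

/-- The point of another sample of the same window is on the own line. -/
theorem bt_line {F : Fam m J} {a : ℕ} {ω ω' : F.Ω} (h : slam F a ω = slam F a ω') :
    bt F ω + (F.t ω' - F.t ω) • bd F ω = bt F ω' := by
  rw [← pt_slam F a ω, h, pt_slam F a ω', sub_self, zero_smul, add_zero]

/-- The numbers of `sig_exw`. -/
theorem sigw_num (c₀ D₁ C₂ C₃ h y E C T : ℕ) (hT : T = h + y + 1) (hE : E = C₂ + y + 1 + (h + C₃))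
    (hC : C = C₂ + 2 * C₃ + c₀ + D₁ + 14) :
    c₀ + D₁ + 7 + E ≤ C * T ∧ (h + C₃) + C₃ ≤ C * T ∧ 7 ≤ C := by
  have hT1 : 1 ≤ T := by omega
  have h1 : C₂ ≤ C₂ * T := Nat.le_mul_of_pos_right _ hT1
  have h2 : C₃ ≤ C₃ * T := Nat.le_mul_of_pos_right _ hT1
  have c0 : c₀ ≤ c₀ * T := Nat.le_mul_of_pos_right _ hT1
  have d1 : D₁ ≤ D₁ * T := Nat.le_mul_of_pos_right _ hT1
  have h8 : C * T = C₂ * T + 2 * (C₃ * T) + c₀ * T + D₁ * T + 14 * T := by
    rw [hC]
    ring
  refine ⟨by omega, by omega, by omega⟩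

/-- **The slope of the label of `c 2` in the direction `c 1`, visible, and closed at the window
`a`**, up to the natural size of the node `(a, w)`. -/
theorem sig_exw (D : ℕ) : ∃ C : ℕ, ∀ {m J : ℕ} {F : Fam m J} {c : ℕ → Fin m}
    {a w e h y : ℕ} {g Y : ℕ → ℕ} {κ : ℝ} {B₀ B : F.Ω → Prop}
    {T : PtT F → ℕ → MvPolynomial (Option (Fin m)) ℝ}
    {TH : LnT F → ℕ → MvPolynomial (Option (Fin m)) ℝ},
    Set.InjOn c (Set.Iio 3) → w ≤ a → a ≤ J → Sub B B₀ → 0 ≤ κ →
    κ * Pe F.p B₀ ≤ Pe F.p B → ChOK F c 3 (fun _ => D) a w e g B T TH →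
    RelvH F c 3 a w g Y D h κ B₀ T → (∀ j < 3, Y j ≤ J) →
    (∀ l < 3, e + g l + C * (h + y + 1) ≤ J) →
    (∀ ω, B ω → ∀ t : ℝ, |t - F.t ω| ≤ 1 / 2 ^ a →
      |eval (bt F ω + (t - F.t ω) • bd F ω) (pderiv (some (c 1)) (TH (slam F w ω) 2)) -
        eval (bt F ω) (pderiv (some (c 1)) (TH (slam F w ω) 2))| ≤ 2 ^ (g 1 + y) / 2 ^ g 2) →
    ∃ (B' : F.Ω → Prop) (v : PtT F → Fin m → ℝ) (v' : LnT F → Fin m → ℝ), Sub B' B ∧
      Pe F.p B / 4 ≤ Pe F.p B' ∧ (∀ ω, B' ω → v (ptr F J ω) = v' (slam F a ω)) ∧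
      (∀ x, v x (c 1) = 1 ∧ v x (c 0) = 0 ∧ ∀ k, k ≠ c 1 → k ≠ c 2 → v x k = 0) ∧
      ∀ ω, B' ω → Shr F c 1 a g T v (C * (h + y + 1)) 2 ω ∧
        (∀ b, NBx c (T (ptr F J ω)) g a (F.t ω) 2 b →
          |eval b (pderiv (some (c 1)) (T (ptr F J ω) 2)) - v (ptr F J ω) (c 2)| ≤
            2 ^ (C * (h + y + 1) + g 1) / 2 ^ g 2 ∧
          |eval b (pderiv (some (c 1)) (TH (slam F w ω) 2)) - v (ptr F J ω) (c 2)| ≤
            2 ^ (C * (h + y + 1) + g 1) / 2 ^ g 2) ∧
        ∀ t : ℝ, |t - F.t ω| ≤ 1 / 2 ^ a →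
          |eval (bt F ω + (t - F.t ω) • bd F ω) (pderiv (some (c 1)) (TH (slam F w ω) 2)) -
            v (ptr F J ω) (c 2)| ≤ 2 ^ (C * (h + y + 1) + g 1) / 2 ^ g 2 := by
  classical
  obtain ⟨c₀, D₁, hD₁, hdil⟩ := nbx_dil 3 (fun _ => D)
  obtain ⟨C₂, hcmp⟩ := slp_cmp D 3
  obtain ⟨C₃, hbox⟩ := box_gen D D 3
  have pw : ∀ {x y : ℕ}, x ≤ y → (2 : ℝ) ^ x ≤ 2 ^ y := fun h => pow_le_pow_right₀ (by norm_num) h
  obtain ⟨Ct, hCt⟩ : ∃ Ct, Ct = C₂ + 2 * C₃ + c₀ + D₁ + 14 := ⟨_, rfl⟩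
  refine ⟨Ct, ?_⟩
  intro m J F c a w e h y g Y κ B₀ B T TH hc hwa haJ hB hκ hP hL hR hY hJ hV
  obtain ⟨E₁, hE₁⟩ : ∃ E₁, E₁ = C₂ + y + 1 + (h + C₃) := ⟨_, rfl⟩
  obtain ⟨q1, q2, q3⟩ := sigw_num c₀ D₁ C₂ C₃ h y E₁ Ct _ rfl hE₁ hCt
  have hc2 : Set.InjOn c (Set.Iio 2) := hc.mono (by
    intro y hy
    rw [Set.mem_Iio] at hy ⊢
    omega)
  have hne : c 0 ≠ c 1 := fun h => by
    have := hc (show (0 : ℕ) ∈ Set.Iio 3 by simp) (show (1 : ℕ) ∈ Set.Iio 3 by simp) h
    omega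
  have hne2 : c 2 ≠ c 1 := fun h => by
    have := hc (show (2 : ℕ) ∈ Set.Iio 3 by simp) (show (1 : ℕ) ∈ Set.Iio 3 by simp) h
    omega
  have hne3 : c 0 ≠ c 2 := fun h => by
    have := hc (show (0 : ℕ) ∈ Set.Iio 3 by simp) (show (2 : ℕ) ∈ Set.Iio 3 by simp) h
    omega
  obtain ⟨nat, hnat⟩ : ∃ nat : ℝ, nat = 2 ^ g 1 / 2 ^ g 2 := ⟨_, rfl⟩
  have hnat0 : 0 < nat := by rw [hnat]; positivity
  obtain ⟨u, hu⟩ : ∃ u : ℝ, u = 2 ^ E₁ * nat := ⟨_, rfl⟩
  have hu0 : 0 < u := by rw [hu]; positivity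
  have upu : ∀ {z : ℕ}, z ≤ E₁ → (2 : ℝ) ^ z * nat ≤ u := fun hz => by
    rw [hu]
    exact mul_le_mul_of_nonneg_right (pw hz) hnat0.le
  have ve1 : ek (c 1) (c 1) = 1 := ek_self _
  have ve0 : ∀ j < 1, ek (c 1) (c j) = 0 := fun j hj => by
    have : j = 0 := by omega
    subst this
    exact ek_ne hne
  -- the derivatives
  have cmp : ∀ ω, B ω → ∀ b, NBx c (T (ptr F J ω)) g a (F.t ω) 2 b →
      |eval b (pderiv (some (c 1)) (T (ptr F J ω) 2)) -
        eval b (pderiv (some (c 1)) (TH (slam F w ω) 2))| ≤ 2 ^ C₂ * nat := by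
    intro ω hω b hb
    have h1 := hcmp (c := c) (l := 1) (i := 2) (a := a) (k := 0) (y := 0) (p := g 2) (g := g)
      (G := T) (v := fun _ => ek (c 1)) (P := T (ptr F J ω) 2 - TH (slam F w ω) 2) (ω := ω)
      (b := b) (by norm_num) hc2 hL.degG hL.depG (fun b b' hn hb => by
        rw [map_sub, map_sub, hL.depG _ 2 b b' hn hb, hL.depH _ 2 b b' hn hb])
      ((totalDegree_sub _ _).trans (max_le (hL.degG _ 2) (hL.degH _ 2))) ve1 ve0
      (fun j hj hlj => by omega) hb (fun b hb => by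
        rw [map_sub, pow_zero]
        exact hL.agr ω hω 2 (by norm_num) b hb)
    rw [dir_ek, map_sub, map_sub, zero_add, mul_div_assoc, ← hnat, zero_add, mul_one] at h1
    exact h1
  have hself : ∀ ω, B ω → NBx c (T (ptr F J ω)) g a (F.t ω) 2 (bt F ω) := fun ω hω =>
    hL.self hω (by norm_num)
  have hyn : (2 : ℝ) ^ (g 1 + y) / 2 ^ g 2 = 2 ^ y * nat := by
    rw [hnat, pow_add]
    ring
  have hyz : (2 : ℝ) ^ y * nat ≤ 2 ^ (C₂ + y + 1) * nat :=
    mul_le_mul_of_nonneg_right (pw (by omega)) hnat0.le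
  have hcz : (2 : ℝ) ^ C₂ * nat ≤ 2 ^ (C₂ + y + 1) * nat :=
    mul_le_mul_of_nonneg_right (pw (by omega)) hnat0.le
  -- the derivative on the natural box
  obtain ⟨B₃, x, l1, l2, -, l3⟩ := hbox (c := c) (i := 2) (a := a) (w := w) (e := e) (h := h)
    (σ := h + C₃) (g := g) (Y := Y) (κ := κ) (V := 2 ^ (C₂ + y + 1) * nat) (B₀ := B₀) (B' := B)
    (G := T) (H := TH) (P := fun p => pderiv (some (c 1)) (T p 2))
    (R := fun s => pderiv (some (c 1)) (TH s 2)) (by norm_num) hc2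
    (hR.low (by norm_num) hc hL.depG) hB hP
    (hL.mono (by norm_num) (fun _ => le_rfl) le_rfl le_rfl) (by positivity)
    (fun y => totalDegree_pdσ (hL.degG y 2) _) (fun s => totalDegree_pdσ (hL.degH s 2) _)
    (fun y => DepC.pderiv (hL.depG y 2) 1) (fun s => DepC.pderiv (hL.depH s 2) 1)
    (fun ω hω b hb => (cmp ω hω b hb).trans hcz)
    (fun ω hω t ht => by
      have h1 := hV ω hω t ht
      rw [hyn] at h1
      exact h1.trans hyz) (fun j hj => hY j (by omega)) (fun j hj => by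
      have := hJ j (by omega)
      omega) le_rfl
  have htx : ∀ ω, B₃ ω → ∀ b, NBx c (T (ptr F J ω)) g a (F.t ω) 2 b →
      |eval b (pderiv (some (c 1)) (T (ptr F J ω) 2)) - x (ptr F J ω)| ≤ u := by
    intro ω hω b hb
    refine (l3 ω hω b hb).trans (le_of_eq ?_)
    rw [hu, hE₁, pow_add 2 (C₂ + y + 1)]
    ring
  -- the closed value
  obtain ⟨be, hbe⟩ : ∃ be : LnT F → ℝ, be = fun s =>
      if h : ∃ ω, B₃ ω ∧ slam F a ω = s then
        eval (bt F h.choose) (pderiv (some (c 1)) (TH (slam F w h.choose) 2)) else 0 := ⟨_, rfl⟩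
  have hbeta : ∀ ω, B₃ ω → |eval (bt F ω) (pderiv (some (c 1)) (TH (slam F w ω) 2)) -
      be (slam F a ω)| ≤ u := by
    intro ω hω
    have hex : ∃ ω', B₃ ω' ∧ slam F a ω' = slam F a ω := ⟨ω, hω, rfl⟩
    have h1 := hex.choose_spec
    have hs : slam F w hex.choose = slam F w ω := by
      rw [slam_coarse F hwa haJ hex.choose, slam_coarse F hwa haJ ω, h1.2]
    have h2 := hV ω (l1 ω hω) (F.t hex.choose) (t_win haJ h1.2)
    rw [hyn, bt_line h1.2.symm] at h2
    rw [hbe]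
    show |_ - (if h : ∃ ω', B₃ ω' ∧ slam F a ω' = slam F a ω then
      eval (bt F h.choose) (pderiv (some (c 1)) (TH (slam F w h.choose) 2)) else 0)| ≤ _
    rw [dif_pos hex, hs, abs_sub_comm]
    exact h2.trans (upu (by omega))
  obtain ⟨B₄, r, r', m1, m2, m3, m4⟩ := rnd_two (F := F) (w := a) (B := B₃) (f := x) (f' := be)
    (A := 4 * u) (by linarith) (fun ω hω => by
      have h1 := htx ω hω _ (hself ω (l1 ω hω))
      have h2 := (cmp ω (l1 ω hω) _ (hself ω (l1 ω hω))).trans (upu (by omega))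
      have h3 := hbeta ω hω
      rw [abs_sub_comm] at h1
      have h5 := abs_sub_le (x (ptr F J ω))
        (eval (bt F ω) (pderiv (some (c 1)) (T (ptr F J ω) 2))) (be (slam F a ω))
      have h6 := abs_sub_le (eval (bt F ω) (pderiv (some (c 1)) (T (ptr F J ω) 2)))
        (eval (bt F ω) (pderiv (some (c 1)) (TH (slam F w ω) 2))) (be (slam F a ω))
      linarith)
  have hv2 : ∀ z : ℝ, Function.update (ek (c 1)) (c 2) z (c 2) = z := fun z =>
    Function.update_self _ _ _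
  have hv1 : ∀ z : ℝ, ∀ k, k ≠ c 2 → Function.update (ek (c 1)) (c 2) z k = ek (c 1) k :=
    fun z k hk => Function.update_of_ne hk _ _
  -- the bounds
  have b1 : ∀ ω, B₄ ω → ∀ b, NBx c (T (ptr F J ω)) g a (F.t ω) 2 b →
      |eval b (pderiv (some (c 1)) (T (ptr F J ω) 2)) - r (ptr F J ω)| ≤ 17 * u := by
    intro ω hω b hb
    have h1 := htx ω (m1 ω hω) b hb
    have h2 := m4 (ptr F J ω)
    rw [abs_sub_comm] at h2
    have h3 := abs_sub_le (eval b (pderiv (some (c 1)) (T (ptr F J ω) 2))) (x (ptr F J ω))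
      (r (ptr F J ω))
    linarith
  have b2 : ∀ ω, B₄ ω → ∀ b, NBx c (T (ptr F J ω)) g a (F.t ω) 2 b →
      |eval b (pderiv (some (c 1)) (TH (slam F w ω) 2)) - r (ptr F J ω)| ≤ 18 * u := by
    intro ω hω b hb
    have h1 := b1 ω hω b hb
    have h2 := (cmp ω (l1 ω (m1 ω hω)) b hb).trans (upu (by omega))
    rw [abs_sub_comm] at h2
    have h4 := abs_sub_le (eval b (pderiv (some (c 1)) (TH (slam F w ω) 2)))
      (eval b (pderiv (some (c 1)) (T (ptr F J ω) 2))) (r (ptr F J ω))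
    linarith
  have hu5 : ∀ {z : ℝ}, z ≤ 19 * u → z ≤ 2 ^ (Ct * (h + y + 1) + g 1) / 2 ^ g 2 := by
    intro z hz
    refine hz.trans ?_
    rw [hu, hnat]
    have h1 : (19 : ℝ) ≤ 2 ^ 5 := by norm_num
    calc 19 * ((2 : ℝ) ^ E₁ * (2 ^ g 1 / 2 ^ g 2)) ≤ 2 ^ 5 * ((2 : ℝ) ^ E₁ * (2 ^ g 1 / 2 ^ g 2)) :=
          mul_le_mul_of_nonneg_right h1 (by positivity)
      _ = 2 ^ (5 + E₁ + g 1) / 2 ^ g 2 := by
          rw [pow_add, pow_add]
          ring
      _ ≤ _ := div_le_div_of_nonneg_right (pw (by omega)) (by positivity)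
  refine ⟨B₄, fun p => Function.update (ek (c 1)) (c 2) (r p),
    fun s => Function.update (ek (c 1)) (c 2) (r' s), fun ω hω => l1 ω (m1 ω hω), by linarith,
    fun ω hω => ?_, fun p => ⟨?_, ?_, fun k hk1 hk2 => ?_⟩, fun ω hω => ⟨?_, fun b hb => ?_,
      fun t ht => ?_⟩⟩
  · show Function.update (ek (c 1)) (c 2) (r (ptr F J ω)) =
      Function.update (ek (c 1)) (c 2) (r' (slam F a ω))
    rw [m3 ω hω]
  · show Function.update (ek (c 1)) (c 2) (r p) (c 1) = 1
    rw [hv1 _ _ hne2.symm]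
    exact ve1
  · show Function.update (ek (c 1)) (c 2) (r p) (c 0) = 0
    rw [hv1 _ _ hne3]
    exact ve0 0 (by norm_num)
  · show Function.update (ek (c 1)) (c 2) (r p) k = 0
    rw [hv1 _ _ hk2]
    exact ek_ne hk1
  · -- the shear
    intro b hb s hs
    show |eval (mvp (Function.update (ek (c 1)) (c 2) (r (ptr F J ω))) s b) (T (ptr F J ω) 2) -
      eval b (T (ptr F J ω) 2) -
        s * Function.update (ek (c 1)) (c 2) (r (ptr F J ω)) (c 2)| ≤ _
    rw [hv2]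
    have e1 : eval (mvp (Function.update (ek (c 1)) (c 2) (r (ptr F J ω))) s b)
        (T (ptr F J ω) 2) = eval (mvp (ek (c 1)) s b) (T (ptr F J ω) 2) :=
      hL.depG (ptr F J ω) 2 _ _ (by rw [mvp_none, mvp_none]) fun k hk => by
        rw [mvp_some, mvp_some, hv1]
        intro h
        have := hc (show k ∈ Set.Iio 3 by rw [Set.mem_Iio]; omega)
          (show (2 : ℕ) ∈ Set.Iio 3 by simp) h
        omega
    rw [e1]
    have h5 := meanv (ek (c 1)) b (T (ptr F J ω) 2) (x := r (ptr F J ω))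
      (Y := 2 ^ (c₀ + 1 * D₁) * (17 * u)) (s := s) (fun s' hs' => by
        have hs1 : |s'| ≤ 1 / 2 ^ g 1 := hs'.trans hs
        have h6 := hdil (c := c) (i := 2) (G := T (ptr F J ω))
          (Q := dir (ek (c 1)) (T (ptr F J ω) 2) - C (r (ptr F J ω))) (g := g) (a := a)
          (t := F.t ω) (M := 17 * u) 1 (by norm_num) hc2 (hL.degG _) (hL.depG _)
          (fun b b' hn hb => by
            rw [map_sub, map_sub, eval_C, eval_C, dir_dep _ (hL.depG _ 2) b b' hn hb])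
          ((totalDegree_sub _ _).trans (max_le (dir_deg _ (hL.degG _ 2)) (by
            rw [totalDegree_C]; exact Nat.zero_le _))) (by linarith)
          (fun b hb => by
            rw [map_sub, eval_C, dir_ek]
            exact b1 ω hω b hb) (mvp (ek (c 1)) s' b) (by rw [mvp_none]; exact hb.1)
          (fun l hl => by
            rcases Nat.lt_or_ge l 1 with h7 | h7
            · have : l = 0 := by omega
              subst this
              have e3 : eval (mvp (ek (c 1)) s' b) (T (ptr F J ω) 0) =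
                  eval b (T (ptr F J ω) 0) :=
                hL.depG _ 0 _ _ (mvp_none _ _ _) fun k hk => absurd hk (Nat.not_lt_zero k)
              rw [e3, mvp_some, ve0 0 (by norm_num), mul_zero, add_zero]
              refine (hb.2 0 (by norm_num)).trans (div_le_div_of_nonneg_right (by norm_num)
                (by positivity))
            · have : l = 1 := by omega
              subst this
              have e3 : eval (mvp (ek (c 1)) s' b) (T (ptr F J ω) 1) =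
                  eval b (T (ptr F J ω) 1) :=
                hL.depG _ 1 _ _ (mvp_none _ _ _) fun k hk => by
                  rw [mvp_some, ve0 k hk, mul_zero, add_zero]
              rw [e3, mvp_some, ve1, mul_one]
              have e4 : b (some (c 1)) + s' - eval b (T (ptr F J ω) 1) =
                  (b (some (c 1)) - eval b (T (ptr F J ω) 1)) + s' := by ring
              rw [e4]
              refine (abs_add_le _ _).trans ((add_le_add (hb.2 1 (by norm_num)) hs1).trans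
                (le_of_eq ?_))
              ring)
        rw [map_sub, eval_C] at h6
        exact h6)
    have e2 : s * r (ptr F J ω) = r (ptr F J ω) * s := mul_comm _ _
    rw [e2]
    refine h5.trans ?_
    have h7 : (17 : ℝ) ≤ 2 ^ 5 := by norm_num
    calc (2 : ℝ) ^ (c₀ + 1 * D₁) * (17 * u) * |s|
        ≤ 2 ^ (c₀ + 1 * D₁) * (2 ^ 5 * u) * (1 / 2 ^ g 1) := by
          refine mul_le_mul ?_ hs (abs_nonneg _) (by positivity)
          refine mul_le_mul_of_nonneg_left ?_ (by positivity)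
          exact mul_le_mul_of_nonneg_right h7 hu0.le
      _ = 2 ^ (c₀ + 1 * D₁ + 5 + E₁) / 2 ^ g 2 := by
          rw [hu, hnat, pow_add _ (c₀ + 1 * D₁ + 5), pow_add _ (c₀ + 1 * D₁)]
          field_simp
      _ ≤ _ := div_le_div_of_nonneg_right (pw (by omega)) (by positivity)
  · show |eval b (pderiv (some (c 1)) (T (ptr F J ω) 2)) -
        Function.update (ek (c 1)) (c 2) (r (ptr F J ω)) (c 2)| ≤ _ ∧
      |eval b (pderiv (some (c 1)) (TH (slam F w ω) 2)) -
        Function.update (ek (c 1)) (c 2) (r (ptr F J ω)) (c 2)| ≤ _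
    rw [hv2]
    exact ⟨hu5 (by linarith [b1 ω hω b hb]), hu5 (by linarith [b2 ω hω b hb])⟩
  · show |eval (bt F ω + (t - F.t ω) • bd F ω) (pderiv (some (c 1)) (TH (slam F w ω) 2)) -
        Function.update (ek (c 1)) (c 2) (r (ptr F J ω)) (c 2)| ≤ _
    rw [hv2]
    have h1 := b2 ω hω _ (hself ω (l1 ω (m1 ω hω)))
    have h2 := hV ω (l1 ω (m1 ω hω)) t ht
    rw [hyn] at h2
    have h3 := h2.trans (upu (by omega))
    have h4 := abs_sub_le (eval (bt F ω + (t - F.t ω) • bd F ω)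
      (pderiv (some (c 1)) (TH (slam F w ω) 2))) (eval (bt F ω)
      (pderiv (some (c 1)) (TH (slam F w ω) 2))) (r (ptr F J ω))
    exact hu5 (by linarith)

end Pool.NVX
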