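import Pool.Agent.H23.D2.Two
import Pool.Agent.H23.D2.Nat
import Pool.Agent.H2.GEN.AttF
import Pool.Agent.H39.NV.BoxDir

/-!
# The mixed second derivatives of the closed label

`star`: if a plane is close to the graph of the label of the point over the natural box, and the
label of the line is close to it, then the second derivatives of the label of the line in the
directions of the plane are small.
-/

set_option autoImplicit false

namespace Pool.NVX

open Finset Real MvPolynomial
open Pool.Agent.H49.Ent Pool.Agent.H32.Dense Pool.STK Pool.KA Pool.KSAT Pool.K2S Pool.PB Pool.S6C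
open Pool.GEN Pool.CHT
open Pool.D2R (dd hs)

variable {m : ℕ}

/-- The line through `x` in the direction `W`. -/
noncomputable def slin (x W : Option (Fin m) → ℝ) (o : Option (Fin m)) : Polynomial ℝ :=
  Polynomial.C (x o) + Polynomial.C (W o) * Polynomial.X

theorem slin_deg (x W : Option (Fin m) → ℝ) (o : Option (Fin m)) : (slin x W o).natDegree ≤ 1 := by
  unfold slin
  refine (Polynomial.natDegree_add_le _ _).trans (max_le ?_ ?_)
  · rw [Polynomial.natDegree_C]
    exact Nat.zero_le _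
  · exact (Polynomial.natDegree_C_mul_le _ _).trans Polynomial.natDegree_X_le

theorem slin_eval (x W : Option (Fin m) → ℝ) (s : ℝ) (o : Option (Fin m)) :
    (slin x W o).eval s = (x + s • W) o := by
  unfold slin
  simp only [Polynomial.eval_add, Polynomial.eval_C, Polynomial.eval_mul, Polynomial.eval_X,
    Pi.add_apply, Pi.smul_apply, smul_eq_mul]
  ring

theorem slin_der (x W : Option (Fin m) → ℝ) (o : Option (Fin m)) :
    Polynomial.derivative (slin x W o) = Polynomial.C (W o) := by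
  unfold slin
  simp

theorem slin_dd (x W : Option (Fin m) → ℝ) (s : ℝ) (R : MvPolynomial (Option (Fin m)) ℝ) :
    (aeval (slin x W) R).eval s = eval (x + s • W) R ∧
    (Polynomial.derivative (aeval (slin x W) R)).eval s = dd R (x + s • W) W ∧
    (Polynomial.derivative (Polynomial.derivative (aeval (slin x W) R))).eval s =
      hs R (x + s • W) W W := by
  have h := Pool.D2R.der_curve (slin x W) (x := x + s • W) (V := W) (Z := 0) (s := s)
    (fun o => slin_eval x W s o) (fun o => by rw [slin_der, Polynomial.eval_C]) (fun o => by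
      rw [slin_der, Polynomial.derivative_C, Polynomial.eval_zero]; rfl) R
  have h0 : dd R (x + s • W) 0 = 0 := by
    unfold dd
    refine Finset.sum_eq_zero fun o _ => ?_
    rw [Pi.zero_apply, mul_zero]
  refine ⟨?_, h.1, ?_⟩
  · rw [Pool.KBX.eval_aeval_poly]
    congr 1
    exact congrArg _ (funext fun o => slin_eval x W s o)
  · rw [h.2, h0, add_zero]

/-- [St] (39 or 31) **The mixed second derivatives of the closed label**: `G i` is close to `H` on the
natural box, and the plane `x + α U₀ + β U₁` is close to the graph of `G i`. -/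
theorem star (D r : ℕ) : ∃ C : ℕ, ∀ {m : ℕ} {c : ℕ → Fin m}
    {G : ℕ → MvPolynomial (Option (Fin m)) ℝ} {H : MvPolynomial (Option (Fin m)) ℝ} {g : ℕ → ℕ}
    {a i n : ℕ} {t δ e : ℝ} {x U₀ U₁ : Option (Fin m) → ℝ}, i ≤ r →
    Set.InjOn c (Set.Iio i) → (∀ l, (G l).totalDegree ≤ D) → (∀ l, DepC c l (G l)) →
    H.totalDegree ≤ D → DepC c i H → x none = t → U₀ none = 1 / 2 ^ a → U₁ none = 0 → 0 ≤ δ →
    (∀ b, NBx c G g a t i b → |eval b (G i) - eval b H| ≤ δ) →
    (∀ α β : ℝ, |α| ≤ 1 → |β| ≤ 1 → (∀ l < i, |(x + α • U₀ + β • U₁) (some (c l)) -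
      eval (x + α • U₀ + β • U₁) (G l)| ≤ 2 ^ n / 2 ^ g l) ∧
      |(x + α • U₀ + β • U₁) (some (c i)) - eval (x + α • U₀ + β • U₁) (G i)| ≤ e) →
    ∀ α : ℝ, |α| ≤ 1 → |hs H (x + α • U₀) U₀ U₁| ≤ 2 ^ C * (e + 2 ^ (C * (n + 1)) * δ) ∧
      |hs H (x + α • U₀) U₁ U₁| ≤ 2 ^ C * (e + 2 ^ (C * (n + 1)) * δ) := by
  classical
  obtain ⟨c₀, D₁, -, hdil⟩ := nbx_dil (r + 1) (fun _ => D)
  obtain ⟨K, hK, hder⟩ := Pool.D2R.der_one (D + 1)
  obtain ⟨c₁, hc₁⟩ := pow_unbounded_of_one_lt (K * K) (one_lt_two (α := ℝ))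
  refine ⟨c₀ + D₁ + c₁, ?_⟩
  intro m c G H g a i n t δ e x U₀ U₁ hi hc hG hGd hH hHd hx hU₀ hU₁ hδ hagr hpl
  obtain ⟨M, hM⟩ : ∃ M : ℝ, M = e + 2 ^ (c₀ + n * D₁) * δ := ⟨_, rfl⟩
  -- the plane is close to the graph of the closed label
  have hval : ∀ α β : ℝ, |α| ≤ 1 → |β| ≤ 1 → |(x + α • U₀ + β • U₁) (some (c i)) -
      eval (x + α • U₀ + β • U₁) H| ≤ M := by
    intro α β hα hβ
    obtain ⟨h1, h2⟩ := hpl α β hα hβ
    have hn : |(x + α • U₀ + β • U₁) none - t| ≤ 1 / 2 ^ a := by
      have e1 : (x + α • U₀ + β • U₁) none - t = α * (1 / 2 ^ a) := by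
        show x none + α * U₀ none + β * U₁ none - t = _
        rw [hx, hU₀, hU₁]
        ring
      rw [e1, abs_mul, abs_of_pos (show (0 : ℝ) < 1 / 2 ^ a by positivity)]
      calc |α| * (1 / 2 ^ a) ≤ 1 * (1 / 2 ^ a) :=
            mul_le_mul_of_nonneg_right hα (by positivity)
        _ = 1 / 2 ^ a := one_mul _
    have h3 := hdil (c := c) (i := i) (G := G) (Q := G i - H) (g := g) (a := a) (t := t)
      (M := δ) n (Nat.lt_succ_of_le hi) hc hG hGd (fun b b' hn hb => by
        rw [map_sub, map_sub, hGd i b b' hn hb, hHd b b' hn hb])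
      ((totalDegree_sub _ _).trans (max_le (hG i) hH)) hδ (fun b hb => by
        rw [map_sub]
        exact hagr b hb) _ hn h1
    rw [map_sub] at h3
    have e2 : (x + α • U₀ + β • U₁) (some (c i)) - eval (x + α • U₀ + β • U₁) H =
        ((x + α • U₀ + β • U₁) (some (c i)) - eval (x + α • U₀ + β • U₁) (G i)) +
        (eval (x + α • U₀ + β • U₁) (G i) - eval (x + α • U₀ + β • U₁) H) := by ring
    rw [e2, hM]
    exact (abs_add_le _ _).trans (add_le_add h2 h3)
  have hM0 : 0 ≤ M := (abs_nonneg _).trans (hval 0 0 (by simp) (by simp))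
  have hK0 : 0 < K := by linarith
  -- the derivatives in the second direction
  have hf : ∀ α : ℝ, |α| ≤ 1 → (∀ β : ℝ, |β| ≤ 1 →
      |U₁ (some (c i)) - dd H (x + α • U₀ + β • U₁) U₁| ≤ K * M) ∧
      |hs H (x + α • U₀) U₁ U₁| ≤ K * (K * M) := by
    intro α hα
    obtain ⟨f, hf⟩ : ∃ f : Polynomial ℝ, f = slin (x + α • U₀) U₁ (some (c i)) -
      aeval (slin (x + α • U₀) U₁) H := ⟨_, rfl⟩
    have hfd : f.natDegree ≤ D + 1 := by
      rw [hf]
      refine (Polynomial.natDegree_sub_le _ _).trans (max_le ?_ ?_)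
      · exact (slin_deg _ _ _).trans (by omega)
      · exact (Pool.KBX.natDegree_aeval_le H _ (slin_deg _ _) hH).trans (by omega)
    have h1 : ∀ β : ℝ, f.eval β = (x + α • U₀ + β • U₁) (some (c i)) -
        eval (x + α • U₀ + β • U₁) H := by
      intro β
      rw [hf, Polynomial.eval_sub, slin_eval, (slin_dd _ _ _ _).1]
    have h2 : ∀ β : ℝ, f.derivative.eval β = U₁ (some (c i)) -
        dd H (x + α • U₀ + β • U₁) U₁ := by
      intro β
      rw [hf, Polynomial.derivative_sub, Polynomial.eval_sub, slin_der, Polynomial.eval_C,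
        (slin_dd _ _ _ _).2.1]
    have h3 : f.derivative.derivative.eval 0 = - hs H (x + α • U₀) U₁ U₁ := by
      rw [hf, Polynomial.derivative_sub, Polynomial.derivative_sub, Polynomial.eval_sub, slin_der,
        Polynomial.derivative_C, Polynomial.eval_zero, (slin_dd _ _ _ _).2.2, zero_smul, add_zero,
        zero_sub]
    have h4 : ∀ β : ℝ, |β| ≤ 1 → |f.derivative.eval β| ≤ K * M := hder f M hfd (fun β hβ => by
      rw [h1]
      exact hval α β hα (by rw [abs_of_nonneg hβ.1]; exact hβ.2))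
    refine ⟨fun β hβ => ?_, ?_⟩
    · rw [← h2]
      exact h4 β hβ
    · have h5 := hder f.derivative (K * M) ((Polynomial.natDegree_derivative_le f).trans
        ((Nat.sub_le _ _).trans hfd)) (fun β hβ => h4 β (by
          rw [abs_of_nonneg hβ.1]; exact hβ.2)) 0 (by simp)
      rw [h3, abs_neg] at h5
      exact h5
  -- the mixed derivative
  have hk : ∀ α : ℝ, |α| ≤ 1 → |hs H (x + α • U₀) U₀ U₁| ≤ K * (K * M) := by
    obtain ⟨k, hk⟩ : ∃ k : Polynomial ℝ, k = Polynomial.C (U₁ (some (c i))) -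
      ∑ o, aeval (slin x U₀) (pderiv o H) * Polynomial.C (U₁ o) := ⟨_, rfl⟩
    have hkd : k.natDegree ≤ D + 1 := by
      rw [hk]
      refine (Polynomial.natDegree_sub_le _ _).trans (max_le ?_ ?_)
      · rw [Polynomial.natDegree_C]
        exact Nat.zero_le _
      · refine Polynomial.natDegree_sum_le_of_forall_le _ _ fun o _ => ?_
        refine Polynomial.natDegree_mul_le.trans ?_
        rw [Polynomial.natDegree_C, Nat.add_zero]
        exact (Pool.KBX.natDegree_aeval_le _ _ (slin_deg _ _)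
          (Pool.GEN.totalDegree_pdσ hH o)).trans (Nat.le_succ D)
    have h1 : ∀ α : ℝ, k.eval α = U₁ (some (c i)) - dd H (x + α • U₀) U₁ := by
      intro α
      rw [hk, Polynomial.eval_sub, Polynomial.eval_C, Polynomial.eval_finsetSum]
      unfold dd
      congr 1
      refine Finset.sum_congr rfl fun o _ => ?_
      rw [Polynomial.eval_mul, Polynomial.eval_C, (slin_dd _ _ _ _).1]
    have h2 : ∀ α : ℝ, k.derivative.eval α = - hs H (x + α • U₀) U₀ U₁ := by
      intro α
      rw [hk, Polynomial.derivative_sub, Polynomial.eval_sub, Polynomial.derivative_C,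
        Polynomial.eval_zero, Polynomial.derivative_sum, Polynomial.eval_finsetSum, zero_sub]
      unfold hs
      congr 1
      refine Finset.sum_congr rfl fun o _ => ?_
      rw [Polynomial.derivative_mul, Polynomial.derivative_C, mul_zero, add_zero,
        Polynomial.eval_mul, Polynomial.eval_C, (slin_dd _ _ _ _).2.1]
    intro α hα
    have h3 := hder k (K * M) hkd (fun α hα => by
      rw [h1]
      have h4 := (hf α (by rw [abs_of_nonneg hα.1]; exact hα.2)).1 0 (by simp)
      rwa [zero_smul, add_zero] at h4) α hα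
    rw [h2, abs_neg] at h3
    exact h3
  have hfin : K * (K * M) ≤ 2 ^ (c₀ + D₁ + c₁) * (e + 2 ^ ((c₀ + D₁ + c₁) * (n + 1)) * δ) := by
    have h1 : K * K ≤ 2 ^ (c₀ + D₁ + c₁) :=
      hc₁.le.trans (pow_le_pow_right₀ (by norm_num) (by omega))
    have h2 : M ≤ e + 2 ^ ((c₀ + D₁ + c₁) * (n + 1)) * δ := by
      rw [hM]
      refine add_le_add le_rfl (mul_le_mul_of_nonneg_right (pow_le_pow_right₀ (by norm_num) ?_) hδ)
      have e1 : (c₀ + D₁ + c₁) * (n + 1) = c₀ * n + D₁ * n + c₁ * n + c₀ + D₁ + c₁ := by ring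
      have e2 : n * D₁ = D₁ * n := Nat.mul_comm _ _
      rw [e1, e2]
      omega
    calc K * (K * M) = (K * K) * M := by ring
      _ ≤ 2 ^ (c₀ + D₁ + c₁) * M := mul_le_mul_of_nonneg_right h1 hM0
      _ ≤ _ := mul_le_mul_of_nonneg_left h2 (by positivity)
  exact fun α hα => ⟨(hk α hα).trans hfin, (hf α hα).2.trans hfin⟩

end Pool.NVX
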